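import Mathlib

/-! Words and coefficients in a free associative algebra. -/

set_option autoImplicit false

namespace Pool.Agent.Helper844_FA

open FreeAlgebra

section Words

variable {K : Type} [Field K] {X : Type}

/-- the monomial of a word -/
noncomputable def mo (K : Type) [Field K] {X : Type} (w : List X) : FreeAlgebra K X :=
  (w.map (FreeAlgebra.ι K)).prod

theorem mo_nil : mo K ([] : List X) = 1 := rfl

theorem mo_cons (x : X) (w : List X) : mo K (x :: w) = FreeAlgebra.ι K x * mo K w := by
  simp [mo]

theorem mo_append (v w : List X) : mo K (v ++ w) = mo K v * mo K w := by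
  simp [mo]

theorem mo_single (x : X) : mo K [x] = FreeAlgebra.ι K x := by simp [mo]

theorem basis_apply (w : List X) : basisFreeMonoid K X (FreeMonoid.ofList w) = mo K w := by
  rw [basisFreeMonoid, Module.Basis.map_apply]
  change equivMonoidAlgebraFreeMonoid.symm (MonoidAlgebra.single (FreeMonoid.ofList w) (1 : K)) = _
  rw [AlgEquiv.symm_apply_eq]
  induction w with
  | nil =>
    rw [mo_nil, map_one]; rfl
  | cons x w ih =>
    rw [mo_cons, map_mul, ← ih]
    have h1 : equivMonoidAlgebraFreeMonoid (FreeAlgebra.ι K x) =
        MonoidAlgebra.single (FreeMonoid.of x) (1 : K) := by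
      simp [equivMonoidAlgebraFreeMonoid]
    rw [h1, MonoidAlgebra.single_mul_single, mul_one]
    rfl

/-- the coefficient of a word -/
noncomputable def cf (w : List X) : FreeAlgebra K X →ₗ[K] K :=
  (basisFreeMonoid K X).coord (FreeMonoid.ofList w)

open Classical in
theorem cf_mo (v w : List X) : cf v (mo K w) = if v = w then 1 else 0 := by
  rw [cf, ← basis_apply, Module.Basis.coord_apply, Module.Basis.repr_self, Finsupp.single_apply]
  by_cases h : v = w
  · subst h; simp
  · rw [if_neg h, if_neg]
    intro h2
    exact h (FreeMonoid.ofList.injective h2).symm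

theorem cf_ext {a b : FreeAlgebra K X} (h : ∀ w, cf w a = cf w b) : a = b := by
  apply (basisFreeMonoid K X).ext_elem
  intro i
  exact h (FreeMonoid.toList i)

theorem lin_ext {M : Type} [AddCommMonoid M] [Module K M] {f g : FreeAlgebra K X →ₗ[K] M}
    (h : ∀ w, f (mo K w) = g (mo K w)) : f = g := by
  apply (basisFreeMonoid K X).ext
  intro i
  have : basisFreeMonoid K X i = mo K (FreeMonoid.toList i) := basis_apply (FreeMonoid.toList i)
  rw [this]
  exact h _

/-- induction on elements -/
theorem mo_induction {P : FreeAlgebra K X → Prop} (a : FreeAlgebra K X) (h0 : P 0)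
    (hm : ∀ w, P (mo K w)) (ha : ∀ a b, P a → P b → P (a + b)) (hs : ∀ (c : K) a, P a → P (c • a)) :
    P a := by
  have ha' : a ∈ Submodule.span K (Set.range (basisFreeMonoid K X)) := by
    rw [Module.Basis.span_eq]; trivial
  induction ha' using Submodule.span_induction with
  | mem x hx =>
    obtain ⟨i, rfl⟩ := hx
    have : basisFreeMonoid K X i = mo K (FreeMonoid.toList i) := basis_apply (FreeMonoid.toList i)
    rw [this]; exact hm _
  | zero => exact h0
  | add x y _ _ hx hy => exact ha _ _ hx hy
  | smul c x _ hx => exact hs _ _ hx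

theorem cf_finite (a : FreeAlgebra K X) : {w : List X | cf w a ≠ 0}.Finite := by
  have h := ((basisFreeMonoid K X).repr a).support.finite_toSet
  refine (h.preimage (f := FreeMonoid.ofList) (fun _ _ _ _ h => FreeMonoid.ofList.injective h)).subset ?_
  intro w hw
  simpa [cf] using hw

/-- the support -/
noncomputable def supp (a : FreeAlgebra K X) : Finset (List X) := (cf_finite a).toFinset

theorem mem_supp {a : FreeAlgebra K X} {w : List X} : w ∈ supp a ↔ cf w a ≠ 0 := by
  simp [supp]

theorem eq_sum (a : FreeAlgebra K X) : a = ∑ w ∈ supp a, cf w a • mo K w := by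
  classical
  apply cf_ext
  intro v
  rw [map_sum]
  simp only [map_smul, cf_mo, smul_eq_mul, mul_ite, mul_one, mul_zero]
  rw [Finset.sum_ite_eq]
  split_ifs with h
  · rfl
  · rw [mem_supp, not_not] at h; exact h

/-- the element with given coefficients -/
theorem exists_of_cf (f : List X → K) (hf : {w | f w ≠ 0}.Finite) :
    ∃ a : FreeAlgebra K X, ∀ w, cf w a = f w := by
  classical
  refine ⟨∑ w ∈ hf.toFinset, f w • mo K w, fun v => ?_⟩
  rw [map_sum]
  simp only [map_smul, cf_mo, smul_eq_mul, mul_ite, mul_one, mul_zero]
  rw [Finset.sum_ite_eq]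
  split_ifs with h
  · rfl
  · rw [Set.Finite.mem_toFinset, Set.mem_ofPred_eq, not_not] at h; exact h.symm

theorem cf_mul_mo (p q v : List X) : cf v (mo K p * mo K q) =
    ∑ k ∈ Finset.range (v.length + 1), cf (v.take k) (mo K p) * cf (v.drop k) (mo K q) := by
  classical
  rw [← mo_append]
  simp only [cf_mo]
  by_cases h : v = p ++ q
  · rw [if_pos h]
    rw [Finset.sum_eq_single p.length]
    · subst h; simp
    · intro k hk hkp
      rw [if_neg, zero_mul]
      intro h2
      apply hkp
      rw [← h2, List.length_take]
      rw [Finset.mem_range] at hk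
      omega
    · intro h2
      exfalso; apply h2
      rw [Finset.mem_range, h]
      simp
  · rw [if_neg h]
    symm
    apply Finset.sum_eq_zero
    intro k _
    by_cases h1 : v.take k = p
    · by_cases h2 : v.drop k = q
      · exfalso; apply h; rw [← h1, ← h2, List.take_append_drop]
      · rw [if_neg h2, mul_zero]
    · rw [if_neg h1, zero_mul]

theorem cf_mul (a b : FreeAlgebra K X) (v : List X) : cf v (a * b) =
    ∑ k ∈ Finset.range (v.length + 1), cf (v.take k) a * cf (v.drop k) b := by
  induction a using mo_induction with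
  | h0 => simp
  | hm p =>
    induction b using mo_induction with
    | h0 => simp
    | hm q => exact cf_mul_mo p q v
    | ha a b ha hb =>
      rw [mul_add, map_add, ha, hb, ← Finset.sum_add_distrib]
      apply Finset.sum_congr rfl
      intro k _
      rw [map_add, mul_add]
    | hs c a ha =>
      rw [mul_smul_comm, map_smul, ha, smul_eq_mul, Finset.mul_sum]
      apply Finset.sum_congr rfl
      intro k _
      rw [map_smul, smul_eq_mul]; ring
  | ha a b ha hb =>
    rw [add_mul, map_add, ha, hb, ← Finset.sum_add_distrib]
    apply Finset.sum_congr rfl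
    intro k _
    rw [map_add, add_mul]
  | hs c a ha =>
    rw [smul_mul_assoc, map_smul, ha, smul_eq_mul, Finset.mul_sum]
    apply Finset.sum_congr rfl
    intro k _
    rw [map_smul, smul_eq_mul]; ring

theorem cf_one_nil : cf ([] : List X) (1 : FreeAlgebra K X) = 1 := by
  classical
  rw [← mo_nil, cf_mo, if_pos rfl]

theorem cf_one_cons (x : X) (w : List X) : cf (x :: w) (1 : FreeAlgebra K X) = 0 := by
  classical
  rw [← mo_nil, cf_mo, if_neg (by simp)]

theorem cf_one_ne {w : List X} (hw : w ≠ []) : cf w (1 : FreeAlgebra K X) = 0 := by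
  cases w with
  | nil => exact absurd rfl hw
  | cons x w => exact cf_one_cons x w

theorem cf_algebraMap_ne {w : List X} (hw : w ≠ []) (c : K) :
    cf w (algebraMap K (FreeAlgebra K X) c) = 0 := by
  rw [Algebra.algebraMap_eq_smul_one, map_smul, cf_one_ne hw, smul_zero]

theorem cf_nil_mul (a b : FreeAlgebra K X) : cf [] (a * b) = cf [] a * cf [] b := by
  rw [cf_mul]; simp

theorem cf_nil_ι (x : X) : cf [] (FreeAlgebra.ι K x) = 0 := by
  classical
  rw [← mo_single, cf_mo, if_neg (by simp)]

open Classical in
theorem cf_ι (w : List X) (x : X) : cf w (FreeAlgebra.ι K x) = if w = [x] then 1 else 0 := by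
  rw [← mo_single, cf_mo]

theorem cf_cons_ι_mul [DecidableEq X] (y x : X) (v : List X) (a : FreeAlgebra K X) :
    cf (y :: v) (FreeAlgebra.ι K x * a) = if y = x then cf v a else 0 := by
  classical
  rw [cf_mul, List.length_cons, Finset.sum_range_succ', Finset.sum_range_succ']
  simp only [List.take_zero, List.drop_zero, List.take_succ_cons, List.drop_succ_cons, zero_add]
  rw [Finset.sum_eq_zero]
  · rw [cf_nil_ι, zero_mul, zero_add, add_zero, cf_ι]
    by_cases h : y = x
    · subst h; simp
    · rw [if_neg h, if_neg]
      · simp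
      · intro h2; apply h; simpa using h2
  · intro k hk
    rw [Finset.mem_range] at hk
    rw [cf_ι, if_neg, zero_mul]
    intro h2
    have := congrArg List.length h2
    simp only [List.length_cons, List.length_take, List.length_nil] at this
    omega

theorem cf_nil_ι_mul (x : X) (a : FreeAlgebra K X) : cf [] (FreeAlgebra.ι K x * a) = 0 := by
  rw [cf_nil_mul, cf_nil_ι, zero_mul]

/-- left decomposition -/
theorem left_decomp [Fintype X] [DecidableEq X] (a : FreeAlgebra K X) :
    ∃ F : X → FreeAlgebra K X, a = algebraMap K _ (cf [] a) + ∑ x, FreeAlgebra.ι K x * F x ∧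
      ∀ x v, cf v (F x) = cf (x :: v) a := by
  classical
  have h1 : ∀ x : X, ∃ b : FreeAlgebra K X, ∀ w, cf w b = cf (x :: w) a := by
    intro x
    apply exists_of_cf
    exact (cf_finite a).preimage (f := fun w => x :: w) (fun _ _ _ _ h => List.cons_injective h)
  choose F hF using h1
  refine ⟨F, ?_, hF⟩
  apply cf_ext
  intro w
  cases w with
  | nil =>
    rw [map_add, map_sum]
    simp only [cf_nil_ι_mul, Finset.sum_const_zero, add_zero]
    rw [Algebra.algebraMap_eq_smul_one, map_smul, cf_one_nil, smul_eq_mul, mul_one]
  | cons y w =>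
    rw [map_add, map_sum, cf_algebraMap_ne (by simp), zero_add]
    simp only [cf_cons_ι_mul, Finset.sum_ite_eq, Finset.mem_univ, if_true]
    rw [hF]

end Words

end Pool.Agent.Helper844_FA
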