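import Mathlib
import Pool.Agent.Helper844_FA.Words

/-! Two bihomogeneous elements with independent bidegrees are free generators. -/

set_option autoImplicit false

namespace Pool.Agent.Helper844_FA

open FreeAlgebra

section Indep

variable {K : Type} [Field K]

theorem len_eq (w : List (Fin 2)) : w.length = w.count 0 + w.count 1 := by
  induction w with
  | nil => rfl
  | cons x w ih =>
    rw [List.length_cons, List.count_cons, List.count_cons, ih]
    fin_cases x <;> simp <;> omega

/-- bihomogeneous elements -/
def BH (s : FreeAlgebra K (Fin 2)) (p : ℕ × ℕ) : Prop :=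
  ∀ w : List (Fin 2), cf w s ≠ 0 → w.count 0 = p.1 ∧ w.count 1 = p.2

theorem exists_cf_ne {X : Type} {s : FreeAlgebra K X} (hs : s ≠ 0) : ∃ w, cf w s ≠ 0 := by
  by_contra h
  push Not at h
  apply hs
  apply cf_ext
  intro w
  rw [h w, map_zero]

theorem BH.len {s : FreeAlgebra K (Fin 2)} {p : ℕ × ℕ} (h : BH s p) {w : List (Fin 2)}
    (hw : cf w s ≠ 0) : w.length = p.1 + p.2 := by
  rw [len_eq, (h w hw).1, (h w hw).2]

/-- product with a homogeneous element on the left -/
theorem hom_mul {X : Type} {s : FreeAlgebra K X} {n : ℕ} (hs : ∀ w, cf w s ≠ 0 → w.length = n)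
    (a : FreeAlgebra K X) (v : List X) :
    cf v (s * a) = cf (v.take n) s * cf (v.drop n) a := by
  rw [cf_mul]
  by_cases hn : n ≤ v.length
  · rw [Finset.sum_eq_single n]
    · intro k hk hkn
      rw [Finset.mem_range] at hk
      have : cf (v.take k) s = 0 := by
        by_contra h
        apply hkn
        have := hs _ h
        rw [List.length_take] at this
        omega
      rw [this, zero_mul]
    · intro h
      exfalso; apply h
      rw [Finset.mem_range]; omega
  · have h0 : ∀ k, k ≤ v.length → cf (v.take k) s = 0 := by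
      intro k hk
      by_contra h
      have := hs _ h
      rw [List.length_take] at this
      omega
    rw [Finset.sum_eq_zero]
    · have h1 : v.take n = v.take v.length := by
        rw [List.take_length, List.take_of_length_le (by omega)]
      rw [h1, h0 _ le_rfl, zero_mul]
    · intro k hk
      rw [Finset.mem_range] at hk
      rw [h0 k (by omega), zero_mul]

/-- the endomorphism with given images -/
noncomputable def sub2 (s t : FreeAlgebra K (Fin 2)) : FreeAlgebra K (Fin 2) →ₐ[K] FreeAlgebra K (Fin 2) :=
  FreeAlgebra.lift K ![s, t]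

theorem sub2_ι0 (s t : FreeAlgebra K (Fin 2)) : sub2 s t (FreeAlgebra.ι K 0) = s := by
  simp [sub2]

theorem sub2_ι1 (s t : FreeAlgebra K (Fin 2)) : sub2 s t (FreeAlgebra.ι K 1) = t := by
  simp [sub2]

theorem hom_ext2 {B : Type} [Semiring B] [Algebra K B] {f g : FreeAlgebra K (Fin 2) →ₐ[K] B}
    (h0 : f (FreeAlgebra.ι K 0) = g (FreeAlgebra.ι K 0))
    (h1 : f (FreeAlgebra.ι K 1) = g (FreeAlgebra.ι K 1)) : f = g := by
  apply FreeAlgebra.hom_ext
  funext i
  fin_cases i
  · exact h0
  · exact h1

theorem inj_of_rind {s t : FreeAlgebra K (Fin 2)} (hs : cf [] s = 0) (ht : cf [] t = 0)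
    (h : ∀ a b, s * a + t * b = 0 → a = 0 ∧ b = 0) : Function.Injective (sub2 s t) := by
  rw [injective_iff_map_eq_zero]
  have key : ∀ n : ℕ, ∀ F : FreeAlgebra K (Fin 2), (∀ w, cf w F ≠ 0 → w.length < n) →
      sub2 s t F = 0 → F = 0 := by
    intro n
    induction n with
    | zero =>
      intro F hF _
      by_contra hne
      obtain ⟨w, hw⟩ := exists_cf_ne hne
      exact absurd (hF w hw) (by omega)
    | succ n ih =>
      intro F hF h0
      obtain ⟨G, hG, hG2⟩ := left_decomp F
      rw [Fin.sum_univ_two] at hG
      have h1 : algebraMap K _ (cf [] F) + (s * sub2 s t (G 0) + t * sub2 s t (G 1)) = 0 := by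
        rw [← h0]
        conv_rhs => rw [hG]
        rw [map_add, map_add, map_mul, map_mul, sub2_ι0, sub2_ι1, AlgHom.commutes]
      have h2 : cf [] F = 0 := by
        have := congrArg (cf []) h1
        rw [map_add, map_add, cf_nil_mul, cf_nil_mul, hs, ht, zero_mul, zero_mul, add_zero, add_zero,
          map_zero, Algebra.algebraMap_eq_smul_one, map_smul, cf_one_nil, smul_eq_mul, mul_one] at this
        exact this
      rw [h2, map_zero, zero_add] at h1
      obtain ⟨h3, h4⟩ := h _ _ h1
      have h5 : ∀ x, G x = 0 := by
        intro x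
        apply ih
        · intro w hw
          rw [hG2] at hw
          have := hF _ hw
          rw [List.length_cons] at this
          omega
        · fin_cases x
          · exact h3
          · exact h4
      rw [hG, h2, h5, h5]
      simp
  intro F hF
  obtain ⟨n, hn⟩ : ∃ n, ∀ w, cf w F ≠ 0 → w.length < n := by
    refine ⟨(supp F).sup List.length + 1, fun w hw => ?_⟩
    have := Finset.le_sup (f := List.length) (mem_supp.2 hw)
    omega
  exact key n F hn hF

theorem exists_factor {s t a b : FreeAlgebra K (Fin 2)} {p q : ℕ × ℕ} (hs : BH s p) (ht : BH t q)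
    (hpq : p.1 + p.2 ≤ q.1 + q.2) (hab : s * a + t * b = 0) (hb : b ≠ 0) :
    ∃ r : FreeAlgebra K (Fin 2), (∀ c : List (Fin 2), cf c r ≠ 0 →
      c.count 0 + p.1 = q.1 ∧ c.count 1 + p.2 = q.2) ∧ t = s * r := by
  classical
  obtain ⟨w, hw⟩ := exists_cf_ne hb
  obtain ⟨r, hr⟩ := exists_of_cf (K := K) (fun c : List (Fin 2) =>
      if c.count 0 + p.1 = q.1 ∧ c.count 1 + p.2 = q.2 then - cf (c ++ w) a / cf w b else 0) (by
    refine ((cf_finite a).preimage (f := fun c => c ++ w)
      (fun _ _ _ _ h => List.append_left_injective w h)).subset ?_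
    intro c hc
    change cf (c ++ w) a ≠ 0
    intro h
    apply hc
    simp [h])
  refine ⟨r, ?_, ?_⟩
  · intro c hc
    rw [hr] at hc
    split_ifs at hc with h
    · exact h
    · exact absurd rfl hc
  · apply cf_ext
    intro v
    rw [hom_mul (fun w hw => hs.len hw)]
    set n := p.1 + p.2 with hn
    have key : q.1 + q.2 = v.length → cf v t * cf w b = - (cf (v.take n) s * cf (v.drop n ++ w) a) := by
      intro hv
      have h1 := congrArg (cf (v ++ w)) hab
      rw [map_add, hom_mul (fun w hw => hs.len hw), hom_mul (fun w hw => ht.len hw), map_zero, hv,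
        List.take_left, List.drop_left, List.take_append_of_le_length (by omega),
        List.drop_append_of_le_length (by omega)] at h1
      exact eq_neg_of_add_eq_zero_right h1
    by_cases h0 : cf (v.take n) s = 0
    · rw [h0, zero_mul]
      by_contra hv
      have h1 := ht.len hv
      have h2 := key h1.symm
      rw [h0, zero_mul, neg_zero] at h2
      rcases mul_eq_zero.1 h2 with h3 | h3
      · exact hv h3
      · exact hw h3
    · have h1 := hs _ h0
      have h2 : ∀ x, v.count x = (v.take n).count x + (v.drop n).count x := by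
        intro x
        rw [← List.count_append, List.take_append_drop]
      rw [hr]
      split_ifs with h3
      · have h4 : q.1 + q.2 = v.length := by
          rw [len_eq, h2, h2]; omega
        have h5 := key h4
        rw [mul_div_assoc', mul_neg, ← h5, mul_div_assoc, div_self hw, mul_one]
      · rw [mul_zero]
        by_contra hv
        apply h3
        have h4 := ht _ hv
        rw [h2, h2] at h4
        omega

/-- the encoding of words -/
def enc : List (Fin 2) → List (Fin 2)
  | [] => []
  | x :: w => if x = 0 then 0 :: enc w else 0 :: 1 :: enc w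

theorem enc_ne (w : List (Fin 2)) (v : List (Fin 2)) : enc w ≠ 1 :: v := by
  cases w with
  | nil => simp [enc]
  | cons x w =>
    rw [enc]
    split_ifs
    · intro h; injection h with h1; exact absurd h1 (by decide)
    · intro h; injection h with h1; exact absurd h1 (by decide)

theorem enc_inj : Function.Injective enc := by
  intro v
  induction v with
  | nil =>
    intro w h
    cases w with
    | nil => rfl
    | cons y w =>
      exfalso
      rw [enc, enc] at h
      split_ifs at h
  | cons x v ih =>
    intro w h
    cases w with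
    | nil =>
      exfalso
      rw [enc, enc] at h
      split_ifs at h
    | cons y w =>
      rw [enc, enc] at h
      split_ifs at h with h1 h2 h2
      · rw [h1, h2]
        injection h with _ h
        rw [ih h]
      · exfalso
        injection h with _ h
        exact enc_ne _ _ h
      · exfalso
        injection h with _ h
        exact enc_ne _ _ h.symm
      · injection h with _ h
        injection h with _ h
        rw [ih h]
        congr 1
        omega

theorem sub2_enc (w : List (Fin 2)) :
    sub2 (FreeAlgebra.ι K 0) (FreeAlgebra.ι K 0 * FreeAlgebra.ι K 1) (mo K w) = mo K (enc w) := by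
  induction w with
  | nil => rw [mo_nil, map_one]; rfl
  | cons x w ih =>
    rw [mo_cons, map_mul, ih, enc]
    by_cases hx : x = 0
    · rw [if_pos hx, mo_cons, hx, sub2_ι0]
    · have hx1 : x = 1 := by omega
      rw [if_neg hx, mo_cons, mo_cons, hx1, sub2_ι1, mul_assoc]

theorem sub2_enc_inj :
    Function.Injective (sub2 (FreeAlgebra.ι K 0) (FreeAlgebra.ι K 0 * FreeAlgebra.ι K 1)) := by
  classical
  rw [injective_iff_map_eq_zero]
  intro F hF
  have key : ∀ v, (cf (enc v)).comp (sub2 (FreeAlgebra.ι K 0)
      (FreeAlgebra.ι K 0 * FreeAlgebra.ι K 1)).toLinearMap = cf v := by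
    intro v
    apply lin_ext
    intro w
    change cf (enc v) (sub2 _ _ (mo K w)) = cf v (mo K w)
    rw [sub2_enc, cf_mo, cf_mo]
    simp [enc_inj.eq_iff]
  apply cf_ext
  intro v
  rw [← key v, map_zero]
  change cf (enc v) (sub2 _ _ F) = 0
  rw [hF, map_zero]

theorem sub2_swap_inj {s t : FreeAlgebra K (Fin 2)} (h : Function.Injective (sub2 s t)) :
    Function.Injective (sub2 t s) := by
  have h1 : (sub2 t s) = (sub2 s t).comp (sub2 (FreeAlgebra.ι K 1) (FreeAlgebra.ι K 0)) := by
    apply hom_ext2
    · rw [sub2_ι0, AlgHom.comp_apply, sub2_ι0, sub2_ι1]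
    · rw [sub2_ι1, AlgHom.comp_apply, sub2_ι1, sub2_ι0]
  have h2 : (sub2 (FreeAlgebra.ι K 1) (FreeAlgebra.ι K 0)).comp
      (sub2 (FreeAlgebra.ι K (1 : Fin 2)) (FreeAlgebra.ι K 0)) = AlgHom.id K _ := by
    apply hom_ext2
    · rw [AlgHom.comp_apply, sub2_ι0, sub2_ι1]; rfl
    · rw [AlgHom.comp_apply, sub2_ι1, sub2_ι0]; rfl
  rw [h1, AlgHom.coe_comp]
  apply h.comp
  apply Function.LeftInverse.injective (g := sub2 (FreeAlgebra.ι K (1 : Fin 2)) (FreeAlgebra.ι K 0))
  intro a
  exact DFunLike.congr_fun h2 a

theorem indep_aux (n : ℕ) : ∀ (s t : FreeAlgebra K (Fin 2)) (p q : ℕ × ℕ), BH s p → BH t q →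
    s ≠ 0 → t ≠ 0 → p.1 * q.2 ≠ p.2 * q.1 → p.1 + p.2 + (q.1 + q.2) = n →
    Function.Injective (sub2 s t) := by
  induction n using Nat.strong_induction_on with
  | _ n ih =>
    have main : ∀ (s t : FreeAlgebra K (Fin 2)) (p q : ℕ × ℕ), BH s p → BH t q →
        s ≠ 0 → t ≠ 0 → p.1 * q.2 ≠ p.2 * q.1 → p.1 + p.2 + (q.1 + q.2) = n →
        p.1 + p.2 ≤ q.1 + q.2 → Function.Injective (sub2 s t) := by
      intro s t p q hs ht hs0 ht0 hdet hn hle
      have hp : 0 < p.1 + p.2 := by
        by_contra h
        apply hdet
        have h1 : p.1 = 0 := by omega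
        have h2 : p.2 = 0 := by omega
        rw [h1, h2, zero_mul, zero_mul]
      have hcs : cf [] s = 0 := by
        by_contra h
        have := hs.len h
        rw [List.length_nil] at this
        omega
      have hct : cf [] t = 0 := by
        by_contra h
        have := ht.len h
        rw [List.length_nil] at this
        omega
      by_cases hind : ∀ a b, s * a + t * b = 0 → a = 0 ∧ b = 0
      · exact inj_of_rind hcs hct hind
      · push Not at hind
        obtain ⟨a, b, hab, hne⟩ := hind
        have hb : b ≠ 0 := by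
          intro hb
          rw [hb, mul_zero, add_zero] at hab
          rcases mul_eq_zero.1 hab with h | h
          · exact hs0 h
          · exact hne h hb
        obtain ⟨r, hr, htr⟩ := exists_factor hs ht hle hab hb
        have hr0 : r ≠ 0 := by
          intro h; apply ht0; rw [htr, h, mul_zero]
        obtain ⟨c, hc⟩ := exists_cf_ne hr0
        have hc' := hr c hc
        have hrBH : BH r (c.count 0, c.count 1) := by
          intro w hw
          have := hr w hw
          constructor
          · change w.count 0 = c.count 0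
            omega
          · change w.count 1 = c.count 1
            omega
        have h1 := ih (p.1 + p.2 + (c.count 0 + c.count 1)) (by omega) s r p
          (c.count 0, c.count 1) hs hrBH hs0 hr0 (by
            intro h
            apply hdet
            rw [← hc'.1, ← hc'.2, mul_add, mul_add]
            change p.1 * c.count 1 = p.2 * c.count 0 at h
            rw [h]; ring) rfl
        have h2 : sub2 s t = (sub2 s r).comp (sub2 (FreeAlgebra.ι K 0)
            (FreeAlgebra.ι K 0 * FreeAlgebra.ι K 1)) := by
          apply hom_ext2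
          · rw [sub2_ι0, AlgHom.comp_apply, sub2_ι0, sub2_ι0]
          · rw [sub2_ι1, AlgHom.comp_apply, sub2_ι1, map_mul, sub2_ι0, sub2_ι1, htr]
        rw [h2, AlgHom.coe_comp]
        exact h1.comp sub2_enc_inj
    intro s t p q hs ht hs0 ht0 hdet hn
    rcases le_total (p.1 + p.2) (q.1 + q.2) with h | h
    · exact main s t p q hs ht hs0 ht0 hdet hn h
    · apply sub2_swap_inj
      exact main t s q p ht hs ht0 hs0 (by
        intro h2; apply hdet; rw [mul_comm p.1, mul_comm p.2]; exact h2.symm) (by omega) h

theorem indep {s t : FreeAlgebra K (Fin 2)} {p q : ℕ × ℕ} (hs : BH s p) (ht : BH t q)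
    (hs0 : s ≠ 0) (ht0 : t ≠ 0) (hdet : p.1 * q.2 ≠ p.2 * q.1) :
    Function.Injective (sub2 s t) :=
  indep_aux _ s t p q hs ht hs0 ht0 hdet rfl

end Indep

end Pool.Agent.Helper844_FA
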