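import Mathlib
import Pool.Agent.Helper844_FA.Indep

/-! Bihomogeneous locally nilpotent derivations of a free associative algebra of rank two. -/

set_option autoImplicit false

namespace Pool.Agent.Helper844_FA

open FreeAlgebra

section Der

variable {K : Type} [Field K] {A : Type} [Ring A] [Algebra K A]

/-- derivations of a noncommutative algebra -/
def IsDer (D : A →ₗ[K] A) : Prop := ∀ a b, D (a * b) = D a * b + a * D b

theorem IsDer.one {D : A →ₗ[K] A} (h : IsDer D) : D 1 = 0 := by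
  have := h 1 1
  rw [mul_one, mul_one, one_mul] at this
  exact left_eq_add.1 this

theorem IsDer.algebraMap {D : A →ₗ[K] A} (h : IsDer D) (c : K) : D (algebraMap K A c) = 0 := by
  rw [Algebra.algebraMap_eq_smul_one, map_smul, h.one, smul_zero]

theorem IsDer.sub {D E : A →ₗ[K] A} (h : IsDer D) (h' : IsDer E) : IsDer (D - E) := by
  intro a b
  rw [LinearMap.sub_apply, LinearMap.sub_apply, LinearMap.sub_apply, h a b, h' a b]
  noncomm_ring

theorem iterate_zero' (D : A →ₗ[K] A) (N : ℕ) : D^[N] 0 = 0 := by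
  induction N with
  | zero => rfl
  | succ N ih => rw [Function.iterate_succ_apply, map_zero, ih]

theorem iterate_ge (D : A →ₗ[K] A) {N M : ℕ} (h : N ≤ M) {a : A} (ha : D^[N] a = 0) :
    D^[M] a = 0 := by
  obtain ⟨t, rfl⟩ := Nat.exists_eq_add_of_le h
  rw [add_comm, Function.iterate_add_apply, ha, iterate_zero']

theorem iterate_add' (D : A →ₗ[K] A) (N : ℕ) (a b : A) : D^[N] (a + b) = D^[N] a + D^[N] b := by
  induction N generalizing a b with
  | zero => rfl
  | succ N ih => rw [Function.iterate_succ_apply, map_add, ih]; rfl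

theorem iterate_smul' (D : A →ₗ[K] A) (N : ℕ) (c : K) (a : A) : D^[N] (c • a) = c • D^[N] a := by
  induction N generalizing a with
  | zero => rfl
  | succ N ih => rw [Function.iterate_succ_apply, map_smul, ih]; rfl

theorem IsDer.iter_mul {D : A →ₗ[K] A} (hD : IsDer D) (N : ℕ) : ∀ n m : ℕ, n + m = N → ∀ a b : A,
    D^[n + 1] a = 0 → D^[m + 1] b = 0 → D^[N] (a * b) = (N.choose n : K) • (D^[n] a * D^[m] b) := by
  induction N with
  | zero =>
    intro n m h a b ha hb
    obtain ⟨rfl, rfl⟩ : n = 0 ∧ m = 0 := by omega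
    simp
  | succ N ih =>
    intro n m h a b ha hb
    rw [Function.iterate_succ_apply, hD, iterate_add']
    rcases n with _ | n
    · have ha' : D a = 0 := ha
      obtain rfl : m = N + 1 := by omega
      rw [ha', zero_mul, iterate_zero', zero_add, ih 0 N (by omega) a (D b) ha (by
        rw [← Function.iterate_succ_apply]; exact hb)]
      simp
    · rcases m with _ | m
      · have hb' : D b = 0 := hb
        obtain rfl : n = N := by omega
        rw [hb', mul_zero, iterate_zero', add_zero, ih n 0 (by omega) (D a) b (by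
          rw [← Function.iterate_succ_apply]; exact ha) hb]
        simp
      · rw [ih (n + 1) m (by omega) a (D b) ha (by rw [← Function.iterate_succ_apply]; exact hb),
          ih n (m + 1) (by omega) (D a) b (by rw [← Function.iterate_succ_apply]; exact ha) hb]
        rw [← Function.iterate_succ_apply, ← Function.iterate_succ_apply, Nat.choose_succ_succ,
          ← add_smul]
        push_cast
        rfl

theorem IsDer.iter_mul_zero {D : A →ₗ[K] A} (hD : IsDer D) {n m : ℕ} {a b : A}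
    (ha : D^[n + 1] a = 0) (hb : D^[m + 1] b = 0) : D^[n + m + 1] (a * b) = 0 := by
  rw [Function.iterate_succ_apply', hD.iter_mul (n + m) n m rfl a b ha hb]
  rw [map_smul, hD, ← Function.iterate_succ_apply' D n a,
    ← Function.iterate_succ_apply' D m b, ha, hb]
  simp

end Der

section Ext

variable {K : Type} [Field K]

theorem IsDer.ext0 {D : FreeAlgebra K (Fin 2) →ₗ[K] FreeAlgebra K (Fin 2)} (h : IsDer D)
    (h0 : ∀ i, D (FreeAlgebra.ι K i) = 0) : D = 0 := by
  apply lin_ext
  intro w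
  induction w with
  | nil => rw [mo_nil, h.one]; rfl
  | cons x w ih =>
    rw [mo_cons, h, h0, ih]
    simp

/-- derivations with given values on generators -/
theorem exists_der (f : Fin 2 → FreeAlgebra K (Fin 2)) :
    ∃ D : FreeAlgebra K (Fin 2) →ₗ[K] FreeAlgebra K (Fin 2), IsDer D ∧
      ∀ i, D (FreeAlgebra.ι K i) = f i := by
  let φ : FreeAlgebra K (Fin 2) →ₐ[K] TrivSqZeroExt (FreeAlgebra K (Fin 2)) (FreeAlgebra K (Fin 2)) :=
    FreeAlgebra.lift K (fun i => TrivSqZeroExt.inl (FreeAlgebra.ι K i) + TrivSqZeroExt.inr (f i))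
  have hfst : ∀ a, (φ a).fst = a := by
    intro a
    have : (TrivSqZeroExt.fstHom K (FreeAlgebra K (Fin 2)) (FreeAlgebra K (Fin 2))).comp φ =
        AlgHom.id K _ := by
      apply FreeAlgebra.hom_ext
      funext i
      simp [φ]
    exact DFunLike.congr_fun this a
  let D : FreeAlgebra K (Fin 2) →ₗ[K] FreeAlgebra K (Fin 2) :=
    { toFun := fun a => (φ a).snd
      map_add' := by intro a b; simp
      map_smul' := by intro c a; simp }
  refine ⟨D, ?_, ?_⟩
  · intro a b
    change (φ (a * b)).snd = (φ a).snd * b + a * (φ b).snd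
    rw [map_mul, TrivSqZeroExt.snd_mul, hfst, hfst]
    simp [add_comm]
  · intro i
    change (φ (FreeAlgebra.ι K i)).snd = f i
    simp [φ]

end Ext

section Weight

variable {K : Type} [Field K]

/-- bidegree of a word in the lexicographically ordered group -/
def wt (w : List (Fin 2)) : ℤ ×ₗ ℤ := toLex ((w.count 0 : ℤ), (w.count 1 : ℤ))

theorem wt_nil : wt [] = 0 := by
  rw [wt, List.count_nil, List.count_nil]; rfl

theorem wt_append (v w : List (Fin 2)) : wt (v ++ w) = wt v + wt w := by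
  rw [wt, wt, wt, List.count_append, List.count_append]
  push_cast
  rfl

theorem wt_cons (x : Fin 2) (w : List (Fin 2)) : wt (x :: w) = wt [x] + wt w := by
  rw [← wt_append]; rfl

theorem wt_eq_iff {v : List (Fin 2)} {a b : ℕ} :
    wt v = toLex ((a : ℤ), (b : ℤ)) ↔ v.count 0 = a ∧ v.count 1 = b := by
  rw [wt, toLex.injective.eq_iff, Prod.mk.injEq]
  constructor
  · rintro ⟨h1, h2⟩; exact ⟨by exact_mod_cast h1, by exact_mod_cast h2⟩
  · rintro ⟨h1, h2⟩; exact ⟨by exact_mod_cast h1, by exact_mod_cast h2⟩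

theorem wt_pos {w : List (Fin 2)} (hw : w ≠ []) : 0 < wt w := by
  rw [← toLex_zero, wt, Prod.Lex.toLex_lt_toLex]
  have h := len_eq w
  have h1 : 0 < w.length := List.length_pos_iff.2 hw
  by_cases h2 : w.count 0 = 0
  · right
    refine ⟨?_, ?_⟩
    · change (0 : ℤ) = (w.count 0 : ℤ)
      rw [h2]; rfl
    · change (0 : ℤ) < (w.count 1 : ℤ)
      omega
  · left
    change (0 : ℤ) < (w.count 0 : ℤ)
    omega

/-- homogeneous part -/
def Ho (K : Type) [Field K] (α : ℤ ×ₗ ℤ) : Submodule K (FreeAlgebra K (Fin 2)) :=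
  Submodule.span K {z | ∃ w, wt w = α ∧ z = mo K w}

/-- lower part -/
def Lo (K : Type) [Field K] (α : ℤ ×ₗ ℤ) : Submodule K (FreeAlgebra K (Fin 2)) :=
  Submodule.span K {z | ∃ w, wt w < α ∧ z = mo K w}

theorem mo_mem_Ho (w : List (Fin 2)) : mo K w ∈ Ho K (wt w) := Submodule.subset_span ⟨w, rfl, rfl⟩

theorem mem_Ho_iff {α : ℤ ×ₗ ℤ} {a : FreeAlgebra K (Fin 2)} :
    a ∈ Ho K α ↔ ∀ v, cf v a ≠ 0 → wt v = α := by
  classical
  constructor
  · intro h
    induction h using Submodule.span_induction with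
    | mem x hx =>
      obtain ⟨w, hw, rfl⟩ := hx
      intro v hv
      rw [cf_mo] at hv
      split_ifs at hv with h
      · rw [h]; exact hw
      · exact absurd rfl hv
    | zero => intro v hv; rw [map_zero] at hv; exact absurd rfl hv
    | add x y _ _ hx hy =>
      intro v hv
      by_cases h1 : cf v x = 0
      · apply hy
        intro h2
        apply hv
        rw [map_add, h1, h2, add_zero]
      · exact hx v h1
    | smul c x _ hx =>
      intro v hv
      apply hx
      intro h2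
      apply hv
      rw [map_smul, h2, smul_zero]
  · intro h
    rw [eq_sum a]
    refine Submodule.sum_mem _ fun w hw => Submodule.smul_mem _ _ (Submodule.subset_span ⟨w, ?_, rfl⟩)
    exact h w (mem_supp.1 hw)

theorem mem_Lo_iff {α : ℤ ×ₗ ℤ} {a : FreeAlgebra K (Fin 2)} :
    a ∈ Lo K α ↔ ∀ v, cf v a ≠ 0 → wt v < α := by
  classical
  constructor
  · intro h
    induction h using Submodule.span_induction with
    | mem x hx =>
      obtain ⟨w, hw, rfl⟩ := hx
      intro v hv
      rw [cf_mo] at hv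
      split_ifs at hv with h
      · rw [h]; exact hw
      · exact absurd rfl hv
    | zero => intro v hv; rw [map_zero] at hv; exact absurd rfl hv
    | add x y _ _ hx hy =>
      intro v hv
      by_cases h1 : cf v x = 0
      · apply hy
        intro h2
        apply hv
        rw [map_add, h1, h2, add_zero]
      · exact hx v h1
    | smul c x _ hx =>
      intro v hv
      apply hx
      intro h2
      apply hv
      rw [map_smul, h2, smul_zero]
  · intro h
    rw [eq_sum a]
    refine Submodule.sum_mem _ fun w hw => Submodule.smul_mem _ _ (Submodule.subset_span ⟨w, ?_, rfl⟩)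
    exact h w (mem_supp.1 hw)

theorem Ho_mul {α β : ℤ ×ₗ ℤ} {a b : FreeAlgebra K (Fin 2)} (ha : a ∈ Ho K α) (hb : b ∈ Ho K β) :
    a * b ∈ Ho K (α + β) := by
  have : Ho K α * Ho K β ≤ Ho K (α + β) := by
    rw [Ho, Ho, Submodule.span_mul_span, Submodule.span_le]
    rintro _ ⟨_, ⟨v, hv, rfl⟩, _, ⟨w, hw, rfl⟩, rfl⟩
    change mo K v * mo K w ∈ _
    rw [← mo_append, ← hv, ← hw, ← wt_append]
    exact mo_mem_Ho _
  exact this (Submodule.mul_mem_mul ha hb)

theorem Lo_mul_Ho {α β : ℤ ×ₗ ℤ} {a b : FreeAlgebra K (Fin 2)} (ha : a ∈ Lo K α) (hb : b ∈ Ho K β) :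
    a * b ∈ Lo K (α + β) := by
  have : Lo K α * Ho K β ≤ Lo K (α + β) := by
    rw [Lo, Ho, Submodule.span_mul_span, Submodule.span_le]
    rintro _ ⟨_, ⟨v, hv, rfl⟩, _, ⟨w, hw, rfl⟩, rfl⟩
    change mo K v * mo K w ∈ _
    rw [← mo_append]
    refine Submodule.subset_span ⟨_, ?_, rfl⟩
    rw [wt_append, hw]
    exact add_lt_add_left hv β
  exact this (Submodule.mul_mem_mul ha hb)

theorem Ho_mul_Lo {α β : ℤ ×ₗ ℤ} {a b : FreeAlgebra K (Fin 2)} (ha : a ∈ Ho K α) (hb : b ∈ Lo K β) :
    a * b ∈ Lo K (α + β) := by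
  have : Ho K α * Lo K β ≤ Lo K (α + β) := by
    rw [Lo, Ho, Submodule.span_mul_span, Submodule.span_le]
    rintro _ ⟨_, ⟨v, hv, rfl⟩, _, ⟨w, hw, rfl⟩, rfl⟩
    change mo K v * mo K w ∈ _
    rw [← mo_append]
    refine Submodule.subset_span ⟨_, ?_, rfl⟩
    rw [wt_append, hv]
    exact add_lt_add_right hw α
  exact this (Submodule.mul_mem_mul ha hb)

theorem Ho_inf_Lo {α : ℤ ×ₗ ℤ} {a : FreeAlgebra K (Fin 2)} (h1 : a ∈ Ho K α) (h2 : a ∈ Lo K α) :
    a = 0 := by
  by_contra h
  obtain ⟨v, hv⟩ := exists_cf_ne h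
  have h3 := mem_Ho_iff.1 h1 v hv
  have h4 := mem_Lo_iff.1 h2 v hv
  rw [h3] at h4
  exact lt_irrefl _ h4

theorem Lo_mono {α β : ℤ ×ₗ ℤ} (h : α ≤ β) : Lo K α ≤ Lo K β := by
  apply Submodule.span_mono
  rintro _ ⟨w, hw, rfl⟩
  exact ⟨w, hw.trans_le h, rfl⟩

theorem Ho_le_Lo {α β : ℤ ×ₗ ℤ} (h : α < β) : Ho K α ≤ Lo K β := by
  apply Submodule.span_mono
  rintro _ ⟨w, hw, rfl⟩
  exact ⟨w, hw.trans_lt h, rfl⟩

/-- a derivation homogeneous on generators is homogeneous -/
theorem der_Ho {D : FreeAlgebra K (Fin 2) →ₗ[K] FreeAlgebra K (Fin 2)} (hD : IsDer D) {γ : ℤ ×ₗ ℤ}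
    (h : ∀ i, D (FreeAlgebra.ι K i) ∈ Ho K (wt [i] + γ)) {α : ℤ ×ₗ ℤ} {a : FreeAlgebra K (Fin 2)}
    (ha : a ∈ Ho K α) : D a ∈ Ho K (α + γ) := by
  have key : ∀ w, D (mo K w) ∈ Ho K (wt w + γ) := by
    intro w
    induction w with
    | nil => rw [mo_nil, hD.one]; exact Submodule.zero_mem _
    | cons x w ih =>
      rw [mo_cons, hD]
      apply Submodule.add_mem
      · have := Ho_mul (h x) (mo_mem_Ho (K := K) w)
        rwa [add_right_comm, ← wt_cons] at this
      · have h1 : FreeAlgebra.ι K x ∈ Ho K (wt [x]) := by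
          rw [← mo_single]; exact mo_mem_Ho _
        have := Ho_mul h1 ih
        rwa [← add_assoc, ← wt_cons] at this
  induction ha using Submodule.span_induction with
  | mem x hx =>
    obtain ⟨w, hw, rfl⟩ := hx
    rw [← hw]; exact key w
  | zero => rw [map_zero]; exact Submodule.zero_mem _
  | add x y _ _ hx hy => rw [map_add]; exact Submodule.add_mem _ hx hy
  | smul c x _ hx => rw [map_smul]; exact Submodule.smul_mem _ _ hx

/-- a derivation lower on generators is lower -/
theorem der_Lo {D : FreeAlgebra K (Fin 2) →ₗ[K] FreeAlgebra K (Fin 2)} (hD : IsDer D) {γ : ℤ ×ₗ ℤ}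
    (h : ∀ i, D (FreeAlgebra.ι K i) ∈ Lo K (wt [i] + γ)) (w : List (Fin 2)) :
    D (mo K w) ∈ Lo K (wt w + γ) := by
  induction w with
  | nil => rw [mo_nil, hD.one]; exact Submodule.zero_mem _
  | cons x w ih =>
    rw [mo_cons, hD]
    apply Submodule.add_mem
    · have := Lo_mul_Ho (h x) (mo_mem_Ho (K := K) w)
      rwa [add_right_comm, ← wt_cons] at this
    · have h1 : FreeAlgebra.ι K x ∈ Ho K (wt [x]) := by
        rw [← mo_single]; exact mo_mem_Ho _
      have := Ho_mul_Lo h1 ih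
      rwa [← add_assoc, ← wt_cons] at this

theorem lin_Lo {T : FreeAlgebra K (Fin 2) →ₗ[K] FreeAlgebra K (Fin 2)} {γ : ℤ ×ₗ ℤ}
    (h : ∀ w, T (mo K w) ∈ Lo K (wt w + γ)) {α : ℤ ×ₗ ℤ} {a : FreeAlgebra K (Fin 2)}
    (ha : a ∈ Ho K α) : T a ∈ Lo K (α + γ) := by
  induction ha using Submodule.span_induction with
  | mem x hx =>
    obtain ⟨w, hw, rfl⟩ := hx
    rw [← hw]; exact h w
  | zero => rw [map_zero]; exact Submodule.zero_mem _
  | add x y _ _ hx hy => rw [map_add]; exact Submodule.add_mem _ hx hy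
  | smul c x _ hx => rw [map_smul]; exact Submodule.smul_mem _ _ hx

/-- the leading part of a nilpotent operator is nilpotent -/
theorem lead_nil {T θ : FreeAlgebra K (Fin 2) →ₗ[K] FreeAlgebra K (Fin 2)} {γ : ℤ ×ₗ ℤ}
    (hθ : ∀ α a, a ∈ Ho K α → θ a ∈ Ho K (α + γ))
    (hT : ∀ w, (T - θ) (mo K w) ∈ Lo K (wt w + γ)) {α : ℤ ×ₗ ℤ} {a : FreeAlgebra K (Fin 2)}
    (ha : a ∈ Ho K α) {r : ℕ} (h0 : T^[r] a = 0) : θ^[r] a = 0 := by
  have hLo : ∀ β b, b ∈ Lo K β → T b ∈ Lo K (β + γ) := by
    intro β b hb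
    induction hb using Submodule.span_induction with
    | mem x hx =>
      obtain ⟨w, hw, rfl⟩ := hx
      have h1 := hT w
      have h2 := hθ _ _ (mo_mem_Ho (K := K) w)
      have h3 : T (mo K w) = (T - θ) (mo K w) + θ (mo K w) := by
        rw [LinearMap.sub_apply, sub_add_cancel]
      rw [h3]
      have h4 : wt w + γ < β + γ := add_lt_add_left hw γ
      exact Submodule.add_mem _ (Lo_mono h4.le h1) (Ho_le_Lo h4 h2)
    | zero => rw [map_zero]; exact Submodule.zero_mem _
    | add x y _ _ hx hy => rw [map_add]; exact Submodule.add_mem _ hx hy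
    | smul c x _ hx => rw [map_smul]; exact Submodule.smul_mem _ _ hx
  have key : ∀ r : ℕ, θ^[r] a ∈ Ho K (α + r • γ) ∧ T^[r] a - θ^[r] a ∈ Lo K (α + r • γ) := by
    intro r
    induction r with
    | zero =>
      refine ⟨by simpa using ha, ?_⟩
      rw [Function.iterate_zero, Function.iterate_zero, sub_self]
      exact Submodule.zero_mem _
    | succ r ih =>
      obtain ⟨h1, h2⟩ := ih
      have e : α + (r + 1) • γ = α + r • γ + γ := by rw [succ_nsmul, add_assoc]
      rw [e, Function.iterate_succ_apply', Function.iterate_succ_apply']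
      refine ⟨hθ _ _ h1, ?_⟩
      have h3 : T (T^[r] a) - θ (θ^[r] a) = T (T^[r] a - θ^[r] a) + (T - θ) (θ^[r] a) := by
        rw [map_sub, LinearMap.sub_apply]; abel
      rw [h3]
      exact Submodule.add_mem _ (hLo _ _ h2) (lin_Lo hT h1)
  obtain ⟨h1, h2⟩ := key r
  rw [h0, zero_sub, Submodule.neg_mem_iff] at h2
  exact Ho_inf_Lo h1 h2

end Weight

section Hom

variable {K : Type} [Field K] [CharZero K]

omit [CharZero K] in
theorem exists_ndeg {A : Type} [Ring A] [Algebra K A] (D : A →ₗ[K] A) {a : A} (ha : a ≠ 0)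
    (h1 : ∃ r, D^[r] a = 0) : ∃ n : ℕ, D^[n] a ≠ 0 ∧ D^[n + 1] a = 0 := by
  classical
  have h2 := Nat.find_spec h1
  have h3 : Nat.find h1 ≠ 0 := by
    intro h4
    rw [h4] at h2
    exact ha h2
  obtain ⟨n, hn⟩ := Nat.exists_eq_succ_of_ne_zero h3
  refine ⟨n, ?_, ?_⟩
  · intro h5
    have := Nat.find_min' h1 h5
    omega
  · rw [hn] at h2; exact h2

/-- bihomogeneous nilpotent derivations of nonnegative bidegree vanish -/
theorem hom_lnd {θ : FreeAlgebra K (Fin 2) →ₗ[K] FreeAlgebra K (Fin 2)} (hθ : IsDer θ) (a b : ℕ)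
    (h : ∀ i, θ (FreeAlgebra.ι K i) ∈ Ho K (wt [i] + toLex ((a : ℤ), (b : ℤ))))
    (hn : ∀ i, ∃ r, θ^[r] (FreeAlgebra.ι K i) = 0) (i : Fin 2) : θ (FreeAlgebra.ι K i) = 0 := by
  by_contra hne
  set γ : ℤ ×ₗ ℤ := toLex ((a : ℤ), (b : ℤ)) with hγ
  have hι : ∀ i : Fin 2, FreeAlgebra.ι K i ≠ 0 := fun i h0 => by
    have := congrArg (cf [i]) h0
    classical
    rw [cf_ι, if_pos rfl, map_zero] at this
    exact one_ne_zero this
  have h1 : ∀ i, ∃ n : ℕ, θ^[n] (FreeAlgebra.ι K i) ≠ 0 ∧ θ^[n + 1] (FreeAlgebra.ι K i) = 0 :=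
    fun i => exists_ndeg θ (hι i) (hn i)
  choose d hd1 hd2 using h1
  have hfac : ∀ n : ℕ, ((n.factorial : ℕ) : K) ≠ 0 := fun n => by
    exact_mod_cast n.factorial_ne_zero
  let s : Fin 2 → FreeAlgebra K (Fin 2) := fun i => (((d i).factorial : ℕ) : K)⁻¹ •
    θ^[d i] (FreeAlgebra.ι K i)
  have hs0 : ∀ i, s i ≠ 0 := fun i => smul_ne_zero (inv_ne_zero (hfac _)) (hd1 i)
  have hs : ∀ i, θ^[d i] (FreeAlgebra.ι K i) = (((d i).factorial : ℕ) : K) • s i := fun i => by
    change _ = _ • (_ • _)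
    rw [smul_smul, mul_inv_cancel₀ (hfac _), one_smul]
  have hHo : ∀ α c, c ∈ Ho K α → θ c ∈ Ho K (α + γ) := fun α c hc => der_Ho hθ h hc
  have hit : ∀ (i : Fin 2) (n : ℕ), θ^[n] (FreeAlgebra.ι K i) ∈ Ho K (wt [i] + n • γ) := by
    intro i n
    induction n with
    | zero =>
      rw [zero_nsmul, add_zero, ← mo_single]; exact mo_mem_Ho _
    | succ n ih =>
      rw [Function.iterate_succ_apply', succ_nsmul, ← add_assoc]
      exact hHo _ _ ih
  have hsum : ∀ (i : Fin 2) (n : ℕ), wt [i] + n • γ =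
      toLex ((([i].count 0 + n * a : ℕ) : ℤ), (([i].count 1 + n * b : ℕ) : ℤ)) := by
    intro i n
    rw [hγ, wt, ← toLex_smul, ← toLex_add]
    congr 1
  have hBH : ∀ i : Fin 2, BH (s i) ([i].count 0 + d i * a, [i].count 1 + d i * b) := by
    intro i w hw
    have h1 : s i ∈ Ho K (wt [i] + (d i) • γ) := Submodule.smul_mem _ _ (hit i (d i))
    rw [hsum] at h1
    exact wt_eq_iff.1 (mem_Ho_iff.1 h1 w hw)
  have hinj : Function.Injective (sub2 (s 0) (s 1)) := by
    refine indep (hBH 0) (hBH 1) (hs0 0) (hs0 1) ?_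
    simp only [Fin.isValue, List.count_singleton]
    simp
    intro h2
    have : (1 + d 0 * a) * (1 + d 1 * b) = 1 + d 0 * a + d 1 * b + d 0 * b * (d 1 * a) := by ring
    rw [this] at h2
    omega
  -- the top power on words
  let M : List (Fin 2) → ℕ := fun w => d 0 * w.count 0 + d 1 * w.count 1
  have hword : ∀ w, θ^[M w] (mo K w) = (((M w).factorial : ℕ) : K) • sub2 (s 0) (s 1) (mo K w) ∧
      θ^[M w + 1] (mo K w) = 0 := by
    intro w
    induction w with
    | nil =>
      have : M [] = 0 := by simp [M]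
      rw [this]
      refine ⟨?_, ?_⟩
      · simp [mo_nil]
      · rw [mo_nil]; exact hθ.one
    | cons x w ih =>
      have hM : M (x :: w) = d x + M w := by
        simp only [M, List.count_cons]
        fin_cases x
        · simp; ring
        · simp; ring
      have hsx : sub2 (s 0) (s 1) (FreeAlgebra.ι K x) = s x := by
        fin_cases x
        · exact sub2_ι0 _ _
        · exact sub2_ι1 _ _
      rw [hM, mo_cons]
      refine ⟨?_, hθ.iter_mul_zero (hd2 x) ih.2⟩
      rw [hθ.iter_mul (d x + M w) (d x) (M w) rfl _ _ (hd2 x) ih.2, ih.1, hs, map_mul, hsx,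
        smul_mul_smul_comm, smul_smul]
      congr 1
      rw [← Nat.cast_mul, ← Nat.cast_mul, ← mul_assoc]
      congr 1
      rw [Nat.choose_symm_add]
      exact Nat.add_choose_mul_factorial_mul_factorial _ _
  -- the contradiction
  have hdi : 1 ≤ d i := by
    by_contra h2
    have h3 : d i = 0 := by omega
    apply hne
    have := hd2 i
    rw [h3] at this
    exact this
  set f := θ (FreeAlgebra.ι K i) with hf
  set p0 := [i].count 0 + 1 * a with hp0
  set p1 := [i].count 1 + 1 * b with hp1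
  have hfHo : f ∈ Ho K (toLex ((p0 : ℤ), (p1 : ℤ))) := by
    have := hit i 1
    rw [hsum] at this
    exact this
  set N := d 0 * p0 + d 1 * p1 with hN
  have hfN : ∀ g ∈ Ho K (toLex ((p0 : ℤ), (p1 : ℤ))),
      θ^[N] g = ((N.factorial : ℕ) : K) • sub2 (s 0) (s 1) g := by
    intro g hg
    induction hg using Submodule.span_induction with
    | mem x hx =>
      obtain ⟨w, hw, rfl⟩ := hx
      have h3 := wt_eq_iff.1 hw
      have h4 : M w = N := by
        simp only [M]
        rw [h3.1, h3.2]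
      rw [← h4]
      exact (hword w).1
    | zero => rw [map_zero, smul_zero, iterate_zero']
    | add x y _ _ hx hy => rw [map_add, smul_add, iterate_add', hx, hy]
    | smul c x _ hx => rw [map_smul, iterate_smul', hx, smul_comm]
  have hNd : d i ≤ N := by
    have h5 : d i * 1 ≤ N := by
      rw [hN, hp0, hp1]
      fin_cases i
      · refine le_trans ?_ (Nat.le_add_right _ _)
        apply Nat.mul_le_mul le_rfl
        simp
      · refine le_trans ?_ (Nat.le_add_left _ _)
        apply Nat.mul_le_mul le_rfl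
        simp
    rwa [mul_one] at h5
  have h6 : θ^[N] f = 0 := by
    rw [hf, ← Function.iterate_succ_apply]
    exact iterate_ge θ (by omega) (hd2 i)
  rw [hfN f hfHo] at h6
  rcases smul_eq_zero.1 h6 with h7 | h7
  · exact hfac _ h7
  · apply hne
    apply hinj
    rw [h7, map_zero]

end Hom

end Pool.Agent.Helper844_FA
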