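import Mathlib
import Pool.Agent.Helper844_FA.Words

/-! Slices of a comultiplication on a free associative algebra. -/

set_option autoImplicit false

namespace Pool.Agent.Helper844_FA

open FreeAlgebra
open scoped TensorProduct

section Slices

variable {K : Type} [Field K] {X : Type}

/-- slice of a tensor at a word -/
noncomputable def sl (w : List X) : FreeAlgebra K X ⊗[K] FreeAlgebra K X →ₗ[K] FreeAlgebra K X :=
  (TensorProduct.rid K (FreeAlgebra K X)).toLinearMap ∘ₗ
    (LinearMap.lTensor (FreeAlgebra K X) (cf w))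

theorem sl_tmul (w : List X) (a b : FreeAlgebra K X) : sl w (a ⊗ₜ[K] b) = cf w b • a := by
  simp [sl]

theorem sl_ext {T T' : FreeAlgebra K X ⊗[K] FreeAlgebra K X} (h : ∀ w, sl w T = sl w T') :
    T = T' := by
  classical
  apply (TensorProduct.equivFinsuppOfBasisRight (M := FreeAlgebra K X)
    (basisFreeMonoid K X)).injective
  ext i
  rw [TensorProduct.equivFinsuppOfBasisRight_apply, TensorProduct.equivFinsuppOfBasisRight_apply]
  exact h (FreeMonoid.toList i)

theorem sl_mul (T T' : FreeAlgebra K X ⊗[K] FreeAlgebra K X) (v : List X) :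
    sl v (T * T') = ∑ k ∈ Finset.range (v.length + 1), sl (v.take k) T * sl (v.drop k) T' := by
  induction T using TensorProduct.induction_on with
  | zero => simp
  | tmul a b =>
    induction T' using TensorProduct.induction_on with
    | zero => simp
    | tmul c d =>
      rw [Algebra.TensorProduct.tmul_mul_tmul, sl_tmul, cf_mul, Finset.sum_smul]
      apply Finset.sum_congr rfl
      intro k _
      rw [sl_tmul, sl_tmul, smul_mul_smul_comm]
    | add T1 T2 h1 h2 =>
      rw [mul_add, map_add, h1, h2, ← Finset.sum_add_distrib]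
      apply Finset.sum_congr rfl
      intro k _
      rw [map_add, mul_add]
  | add T1 T2 h1 h2 =>
    rw [add_mul, map_add, h1, h2, ← Finset.sum_add_distrib]
    apply Finset.sum_congr rfl
    intro k _
    rw [map_add, add_mul]

theorem cf_sl_comm (T : FreeAlgebra K X ⊗[K] FreeAlgebra K X) (v w : List X) :
    cf v (sl w (Algebra.TensorProduct.comm K (FreeAlgebra K X) (FreeAlgebra K X) T)) =
      cf w (sl v T) := by
  induction T using TensorProduct.induction_on with
  | zero => simp
  | tmul a b =>
    rw [Algebra.TensorProduct.comm_tmul, sl_tmul, sl_tmul, map_smul, map_smul, smul_eq_mul,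
      smul_eq_mul, mul_comm]
  | add T1 T2 h1 h2 => rw [map_add, map_add, map_add, map_add, map_add, h1, h2]

/-- slices of the comultiplication -/
noncomputable def dl (Δ : FreeAlgebra K X →ₐ[K] FreeAlgebra K X ⊗[K] FreeAlgebra K X) (w : List X) :
    FreeAlgebra K X →ₗ[K] FreeAlgebra K X := sl w ∘ₗ Δ.toLinearMap

variable {Δ : FreeAlgebra K X →ₐ[K] FreeAlgebra K X ⊗[K] FreeAlgebra K X}

theorem dl_apply (w : List X) (a : FreeAlgebra K X) : dl Δ w a = sl w (Δ a) := rfl

theorem dl_mul (v : List X) (a b : FreeAlgebra K X) : dl Δ v (a * b) =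
    ∑ k ∈ Finset.range (v.length + 1), dl Δ (v.take k) a * dl Δ (v.drop k) b := by
  rw [dl_apply, map_mul, sl_mul]; rfl

theorem dl_one_nil : dl Δ [] 1 = 1 := by
  rw [dl_apply, map_one, Algebra.TensorProduct.one_def, sl_tmul, cf_one_nil, one_smul]

theorem dl_one_ne {w : List X} (hw : w ≠ []) : dl Δ w 1 = 0 := by
  rw [dl_apply, map_one, Algebra.TensorProduct.one_def, sl_tmul, cf_one_ne hw, zero_smul]

theorem dl_algebraMap_ne {w : List X} (hw : w ≠ []) (c : K) :
    dl Δ w (algebraMap K _ c) = 0 := by
  rw [Algebra.algebraMap_eq_smul_one, map_smul, dl_one_ne hw, smul_zero]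

theorem dl_nil_mul (a b : FreeAlgebra K X) : dl Δ [] (a * b) = dl Δ [] a * dl Δ [] b := by
  rw [dl_mul]; simp

/-- standing hypotheses: primitive generators with zero constant term -/
structure HS (S : Set (FreeAlgebra K X))
    (Δ : FreeAlgebra K X →ₐ[K] FreeAlgebra K X ⊗[K] FreeAlgebra K X) : Prop where
  gen : Algebra.adjoin K S = ⊤
  prim : ∀ l ∈ S, Δ l = l ⊗ₜ[K] 1 + 1 ⊗ₜ[K] l
  aug : ∀ l ∈ S, cf [] l = 0

variable {S : Set (FreeAlgebra K X)}

theorem HS.ind (h : HS S Δ) {P : FreeAlgebra K X → Prop} (hS : ∀ l ∈ S, P l)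
    (hc : ∀ c : K, P (algebraMap K _ c)) (ha : ∀ a b, P a → P b → P (a + b))
    (hm : ∀ a b, P a → P b → P (a * b)) (a : FreeAlgebra K X) : P a := by
  have ha' : a ∈ Algebra.adjoin K S := by rw [h.gen]; trivial
  induction ha' using Algebra.adjoin_induction with
  | mem x hx => exact hS x hx
  | algebraMap r => exact hc r
  | add x y _ _ hx hy => exact ha _ _ hx hy
  | mul x y _ _ hx hy => exact hm _ _ hx hy

theorem HS.dl_S (h : HS S Δ) {l : FreeAlgebra K X} (hl : l ∈ S) (w : List X) :
    dl Δ w l = cf w (1 : FreeAlgebra K X) • l + cf w l • 1 := by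
  rw [dl_apply, h.prim l hl, map_add, sl_tmul, sl_tmul]

theorem HS.dl_S_ne (h : HS S Δ) {l : FreeAlgebra K X} (hl : l ∈ S) {w : List X} (hw : w ≠ []) :
    dl Δ w l = algebraMap K _ (cf w l) := by
  rw [h.dl_S hl, cf_one_ne hw, zero_smul, zero_add, Algebra.algebraMap_eq_smul_one]

theorem HS.dl_nil (h : HS S Δ) (a : FreeAlgebra K X) : dl Δ [] a = a := by
  refine h.ind (P := fun a => dl Δ [] a = a) ?_ ?_ ?_ ?_ a
  · intro l hl
    rw [h.dl_S hl, cf_one_nil, h.aug l hl, one_smul, zero_smul, add_zero]
  · intro c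
    rw [Algebra.algebraMap_eq_smul_one, map_smul, dl_one_nil]
  · intro a b ha hb; rw [map_add, ha, hb]
  · intro a b ha hb; rw [dl_nil_mul, ha, hb]

theorem HS.comm (h : HS S Δ) (a : FreeAlgebra K X) :
    Algebra.TensorProduct.comm K (FreeAlgebra K X) (FreeAlgebra K X) (Δ a) = Δ a := by
  refine h.ind (P := fun a => Algebra.TensorProduct.comm K (FreeAlgebra K X) (FreeAlgebra K X) (Δ a)
    = Δ a) ?_ ?_ ?_ ?_ a
  · intro l hl
    rw [h.prim l hl, map_add, Algebra.TensorProduct.comm_tmul, Algebra.TensorProduct.comm_tmul,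
      add_comm]
  · intro c
    rw [AlgHom.commutes, AlgEquiv.commutes]
  · intro a b ha hb; rw [map_add, map_add, ha, hb]
  · intro a b ha hb; rw [map_mul, map_mul, ha, hb]

theorem HS.flip (h : HS S Δ) (a : FreeAlgebra K X) (v w : List X) :
    cf v (dl Δ w a) = cf w (dl Δ v a) := by
  rw [dl_apply, dl_apply, ← cf_sl_comm, h.comm]

/-- iterated slices reach the constants -/
def GN (Δ : FreeAlgebra K X →ₐ[K] FreeAlgebra K X ⊗[K] FreeAlgebra K X) :
    ℕ → FreeAlgebra K X → Prop
  | 0, a => ∃ c : K, a = algebraMap K _ c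
  | (r + 1), a => ∀ w : List X, w ≠ [] → GN Δ r (dl Δ w a)

theorem GN_algebraMap (r : ℕ) (c : K) : GN Δ r (algebraMap K _ c) := by
  induction r generalizing c with
  | zero => exact ⟨c, rfl⟩
  | succ r ih =>
    intro w hw
    rw [dl_algebraMap_ne hw, ← map_zero (algebraMap K (FreeAlgebra K X))]
    exact ih 0

theorem GN_add (r : ℕ) {a b : FreeAlgebra K X} (ha : GN Δ r a) (hb : GN Δ r b) : GN Δ r (a + b) := by
  induction r generalizing a b with
  | zero =>
    obtain ⟨c, rfl⟩ := ha
    obtain ⟨d, rfl⟩ := hb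
    exact ⟨c + d, by rw [map_add]⟩
  | succ r ih =>
    intro w hw
    rw [map_add]
    exact ih (ha w hw) (hb w hw)

theorem GN_succ {r : ℕ} {a : FreeAlgebra K X} (ha : GN Δ r a) : GN Δ (r + 1) a := by
  induction r generalizing a with
  | zero =>
    obtain ⟨c, rfl⟩ := ha
    exact GN_algebraMap _ c
  | succ r ih =>
    intro w hw
    exact ih (ha w hw)

theorem GN_mono {r s : ℕ} (hrs : r ≤ s) {a : FreeAlgebra K X} (ha : GN Δ r a) : GN Δ s a := by
  induction s, hrs using Nat.le_induction with
  | base => exact ha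
  | succ s _ ih => exact GN_succ ih

theorem GN_smul (r : ℕ) (c : K) {a : FreeAlgebra K X} (ha : GN Δ r a) : GN Δ r (c • a) := by
  induction r generalizing a with
  | zero =>
    obtain ⟨d, rfl⟩ := ha
    exact ⟨c * d, by rw [map_mul, Algebra.smul_def]⟩
  | succ r ih =>
    intro w hw
    rw [map_smul]
    exact ih (ha w hw)

theorem GN_sum (r : ℕ) {ι : Type} (s : Finset ι) (f : ι → FreeAlgebra K X)
    (h : ∀ i ∈ s, GN Δ r (f i)) : GN Δ r (∑ i ∈ s, f i) := by
  classical
  induction s using Finset.induction_on with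
  | empty =>
    rw [Finset.sum_empty, ← map_zero (algebraMap K (FreeAlgebra K X))]
    exact GN_algebraMap r 0
  | insert i s hi ih =>
    rw [Finset.sum_insert hi]
    exact GN_add r (h i (Finset.mem_insert_self i s))
      (ih (fun j hj => h j (Finset.mem_insert_of_mem hj)))

theorem HS.GN_mul (h : HS S Δ) (n : ℕ) : ∀ r s : ℕ, r + s = n → ∀ a b : FreeAlgebra K X,
    GN Δ r a → GN Δ s b → GN Δ n (a * b) := by
  induction n using Nat.strong_induction_on with
  | _ n ih =>
    intro r s hrs a b ha hb
    rcases r with _ | r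
    · obtain ⟨c, rfl⟩ := ha
      rw [← Algebra.smul_def]
      rw [zero_add] at hrs
      subst hrs
      exact GN_smul _ c hb
    · rcases s with _ | s
      · obtain ⟨c, rfl⟩ := hb
        rw [← Algebra.commutes, ← Algebra.smul_def]
        rw [add_zero] at hrs
        subst hrs
        exact GN_smul _ c ha
      · obtain ⟨m, rfl⟩ : ∃ m, n = m + 1 := ⟨r + s + 1, by omega⟩
        intro w hw
        rw [dl_mul]
        apply GN_sum
        intro k hk
        rw [Finset.mem_range] at hk
        have hwl : 0 < w.length := List.length_pos_iff.2 hw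
        by_cases h0 : k = 0
        · subst h0
          rw [List.take_zero, List.drop_zero, h.dl_nil]
          exact ih m (by omega) (r + 1) s (by omega) _ _ ha (hb w hw)
        · by_cases h1 : k = w.length
          · subst h1
            rw [List.take_length, List.drop_length, h.dl_nil]
            exact ih m (by omega) r (s + 1) (by omega) _ _ (ha w hw) hb
          · have h2 : w.take k ≠ [] := by
              intro h3
              have := congrArg List.length h3
              simp only [List.length_take, List.length_nil] at this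
              omega
            have h3 : w.drop k ≠ [] := by
              intro h3
              have := congrArg List.length h3
              simp only [List.length_drop, List.length_nil] at this
              omega
            have h4 := ih (r + s) (by omega) r s rfl _ _ (ha _ h2) (hb _ h3)
            exact GN_mono (by omega) h4

theorem HS.exists_GN (h : HS S Δ) (a : FreeAlgebra K X) : ∃ r, GN Δ r a := by
  refine h.ind (P := fun a => ∃ r, GN Δ r a) ?_ ?_ ?_ ?_ a
  · intro l hl
    refine ⟨1, fun w hw => ?_⟩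
    rw [h.dl_S_ne hl hw]
    exact GN_algebraMap _ _
  · intro c
    exact ⟨0, c, rfl⟩
  · rintro a b ⟨r, hr⟩ ⟨s, hs⟩
    exact ⟨max r s, GN_add _ (GN_mono (le_max_left _ _) hr) (GN_mono (le_max_right _ _) hs)⟩
  · rintro a b ⟨r, hr⟩ ⟨s, hs⟩
    exact ⟨r + s, h.GN_mul _ r s rfl a b hr hs⟩

theorem GN_iterate {w : List X} (hw : w ≠ []) {r : ℕ} {a : FreeAlgebra K X} (ha : GN Δ r a) :
    (dl Δ w)^[r + 1] a = 0 := by
  induction r generalizing a with
  | zero =>
    obtain ⟨c, rfl⟩ := ha
    rw [zero_add, Function.iterate_one, dl_algebraMap_ne hw]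
  | succ r ih =>
    rw [Function.iterate_succ_apply]
    exact ih (ha w hw)

theorem HS.nilp (h : HS S Δ) {w : List X} (hw : w ≠ []) (a : FreeAlgebra K X) :
    ∃ r, (dl Δ w)^[r] a = 0 := by
  obtain ⟨r, hr⟩ := h.exists_GN a
  exact ⟨r + 1, GN_iterate hw hr⟩

/-- the standard comultiplication -/
noncomputable def D0 (K : Type) [Field K] (X : Type) :
    FreeAlgebra K X →ₐ[K] FreeAlgebra K X ⊗[K] FreeAlgebra K X :=
  FreeAlgebra.lift K (fun x => FreeAlgebra.ι K x ⊗ₜ[K] 1 + 1 ⊗ₜ[K] FreeAlgebra.ι K x)

theorem D0_ι (x : X) : D0 K X (FreeAlgebra.ι K x) =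
    FreeAlgebra.ι K x ⊗ₜ[K] 1 + 1 ⊗ₜ[K] FreeAlgebra.ι K x := by
  rw [D0, FreeAlgebra.lift_ι_apply]

theorem HS0 : HS (Set.range (FreeAlgebra.ι K)) (D0 K X) where
  gen := FreeAlgebra.adjoin_range_ι K X
  prim := by rintro _ ⟨x, rfl⟩; exact D0_ι x
  aug := by rintro _ ⟨x, rfl⟩; exact cf_nil_ι x

/-- bidegree of slices of the standard comultiplication -/
theorem D0_count [DecidableEq X] (p : List X) : ∀ v w : List X, cf v (dl (D0 K X) w (mo K p)) ≠ 0 →
    ∀ x, v.count x + w.count x = p.count x := by
  classical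
  induction p with
  | nil =>
    intro v w h x
    by_cases hw : w = []
    · subst hw
      rw [mo_nil, dl_one_nil] at h
      by_cases hv : v = []
      · subst hv; simp
      · exact absurd (cf_one_ne hv) h
    · rw [mo_nil, dl_one_ne hw, map_zero] at h
      exact absurd rfl h
  | cons y p ih =>
    intro v w h x
    have key : cf v (dl (D0 K X) w (mo K (y :: p))) =
        cf v (FreeAlgebra.ι K y * dl (D0 K X) w (mo K p)) +
        cf w (FreeAlgebra.ι K y * dl (D0 K X) v (mo K p)) := by
      have h1 : ∀ T : FreeAlgebra K X ⊗[K] FreeAlgebra K X,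
          cf v (sl w ((FreeAlgebra.ι K y ⊗ₜ[K] 1 + 1 ⊗ₜ[K] FreeAlgebra.ι K y) * T)) =
          cf v (FreeAlgebra.ι K y * sl w T) + cf w (FreeAlgebra.ι K y * sl v
            (Algebra.TensorProduct.comm K (FreeAlgebra K X) (FreeAlgebra K X) T)) := by
        intro T
        induction T using TensorProduct.induction_on with
        | zero => simp
        | tmul a b =>
          rw [add_mul, Algebra.TensorProduct.tmul_mul_tmul, Algebra.TensorProduct.tmul_mul_tmul,
            one_mul, one_mul, map_add, sl_tmul, sl_tmul, map_add, Algebra.TensorProduct.comm_tmul,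
            sl_tmul, sl_tmul, map_smul, map_smul, mul_smul_comm, mul_smul_comm, map_smul, map_smul]
          simp only [smul_eq_mul]
          ring
        | add T1 T2 h1 h2 =>
          rw [mul_add, map_add, map_add, h1, h2, map_add, map_add, map_add, mul_add, mul_add,
            map_add, map_add]
          ring
      rw [mo_cons, dl_apply, map_mul, D0_ι, h1, HS0.comm]
      rfl
    rw [key] at h
    have h3 : ∀ v w : List X, cf v (FreeAlgebra.ι K y * dl (D0 K X) w (mo K p)) ≠ 0 →
        v.count x + w.count x = (y :: p).count x := by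
      intro v w h'
      cases v with
      | nil => exact absurd (cf_nil_ι_mul _ _) h'
      | cons z v =>
        rw [cf_cons_ι_mul] at h'
        split_ifs at h' with h2
        · subst h2
          have := ih v w h' x
          rw [List.count_cons, List.count_cons]
          omega
        · exact absurd rfl h'
    by_cases h4 : cf v (FreeAlgebra.ι K y * dl (D0 K X) w (mo K p)) = 0
    · rw [h4, zero_add] at h
      rw [add_comm]
      exact h3 w v h
    · exact h3 v w h4

theorem cf_dl_D0_ι (x : X) {w : List X} (hw : w ≠ []) :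
    dl (D0 K X) w (FreeAlgebra.ι K x) = algebraMap K _ (cf w (FreeAlgebra.ι K x)) :=
  HS0.dl_S_ne ⟨x, rfl⟩ hw

end Slices

end Pool.Agent.Helper844_FA
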