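import Mathlib
import Pool.Agent.Helper844_FA.LND
import Pool.Agent.Helper844_FA.Slices

/-! The core theorem: a normalised primitive generating set forces the standard comultiplication. -/

set_option autoImplicit false

namespace Pool.Agent.Helper844_FA

open FreeAlgebra
open scoped TensorProduct

section ClaimM

variable {K : Type} [Field K] [CharZero K]

theorem claimM {δ e : FreeAlgebra K (Fin 2) →ₗ[K] FreeAlgebra K (Fin 2)} (hder : IsDer (δ - e))
    (hnil : ∀ i, ∃ r, δ^[r] (FreeAlgebra.ι K i) = 0) {q : List (Fin 2)} (hq : q ≠ [])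
    (hlow : ∀ p v, cf v (e (mo K p)) ≠ 0 → ∀ x, v.count x + q.count x = p.count x)
    (hmix : ∀ i v, cf v ((δ - e) (FreeAlgebra.ι K i)) ≠ 0 → 0 < v.count 0 ∧ 0 < v.count 1) :
    δ = e := by
  classical
  rw [← sub_eq_zero]
  by_contra hne
  set D := δ - e with hD
  have h1 : ∃ i, D (FreeAlgebra.ι K i) ≠ 0 := by
    by_contra h
    push Not at h
    exact hne (hder.ext0 h)
  let T : Finset (ℤ ×ₗ ℤ) := Finset.univ.biUnion (fun i : Fin 2 =>
    (supp (D (FreeAlgebra.ι K i))).image (fun v => wt v - wt [i]))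
  have hT : T.Nonempty := by
    obtain ⟨i, hi⟩ := h1
    obtain ⟨v, hv⟩ := exists_cf_ne hi
    refine ⟨wt v - wt [i], ?_⟩
    rw [Finset.mem_biUnion]
    exact ⟨i, Finset.mem_univ _, Finset.mem_image.2 ⟨v, mem_supp.2 hv, rfl⟩⟩
  set γ := T.max' hT with hγ
  obtain ⟨i0, v0, hv0, hγ0⟩ : ∃ i0 v0, cf v0 (D (FreeAlgebra.ι K i0)) ≠ 0 ∧ wt v0 - wt [i0] = γ := by
    have := T.max'_mem hT
    rw [Finset.mem_biUnion] at this
    obtain ⟨i, _, hi⟩ := this
    obtain ⟨v, hv, h⟩ := Finset.mem_image.1 hi
    exact ⟨i, v, mem_supp.1 hv, h⟩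
  have hle : ∀ i v, cf v (D (FreeAlgebra.ι K i)) ≠ 0 → wt v ≤ wt [i] + γ := by
    intro i v hv
    have : wt v - wt [i] ≤ γ := by
      apply T.le_max'
      rw [Finset.mem_biUnion]
      exact ⟨i, Finset.mem_univ _, Finset.mem_image.2 ⟨v, mem_supp.2 hv, rfl⟩⟩
    rw [add_comm]
    exact sub_le_iff_le_add.1 this
  let f : Fin 2 → FreeAlgebra K (Fin 2) := fun i =>
    ∑ v ∈ (supp (D (FreeAlgebra.ι K i))).filter (fun v => wt v = wt [i] + γ),
      cf v (D (FreeAlgebra.ι K i)) • mo K v
  have hf : ∀ i v, cf v (f i) = if wt v = wt [i] + γ then cf v (D (FreeAlgebra.ι K i)) else 0 := by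
    intro i v
    simp only [f]
    rw [map_sum]
    simp only [map_smul, cf_mo, smul_eq_mul, mul_ite, mul_one, mul_zero, Finset.sum_ite_eq,
      Finset.mem_filter, mem_supp]
    by_cases h2 : wt v = wt [i] + γ
    · by_cases h3 : cf v (D (FreeAlgebra.ι K i)) = 0
      · simp [h3]
      · simp [h2, h3]
    · simp [h2]
  obtain ⟨θ, hθ, hθf⟩ := exists_der f
  have hHo : ∀ i, θ (FreeAlgebra.ι K i) ∈ Ho K (wt [i] + γ) := by
    intro i
    rw [hθf, mem_Ho_iff]
    intro v hv
    rw [hf] at hv
    split_ifs at hv with h2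
    · exact h2
    · exact absurd rfl hv
  have hLo : ∀ i, (D - θ) (FreeAlgebra.ι K i) ∈ Lo K (wt [i] + γ) := by
    intro i
    rw [LinearMap.sub_apply, hθf, mem_Lo_iff]
    intro v hv
    rw [map_sub, hf] at hv
    split_ifs at hv with h2
    · rw [sub_self] at hv; exact absurd rfl hv
    · rw [sub_zero] at hv
      exact lt_of_le_of_ne (hle i v hv) h2
  -- the bidegree of the leading part
  obtain ⟨hm0, hm1⟩ := hmix i0 v0 hv0
  obtain ⟨a, b, hab⟩ : ∃ a b : ℕ, γ = toLex ((a : ℤ), (b : ℤ)) := by
    refine ⟨v0.count 0 - [i0].count 0, v0.count 1 - [i0].count 1, ?_⟩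
    have h2 : [i0].count 0 ≤ v0.count 0 := le_trans (by rw [List.count_singleton]; split_ifs <;> omega) hm0
    have h3 : [i0].count 1 ≤ v0.count 1 := le_trans (by rw [List.count_singleton]; split_ifs <;> omega) hm1
    rw [← hγ0, wt, wt, ← toLex_sub, Prod.mk_sub_mk, Nat.cast_sub h2, Nat.cast_sub h3]
  have hγpos : 0 ≤ γ := by
    rw [hab, ← toLex_zero, Prod.Lex.toLex_le_toLex]
    change (0 : ℤ) < (a : ℤ) ∨ (0 : ℤ) = (a : ℤ) ∧ (0 : ℤ) ≤ (b : ℤ)
    omega
  have hnθ : ∀ i, ∃ r, θ^[r] (FreeAlgebra.ι K i) = 0 := by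
    intro i
    obtain ⟨r, hr⟩ := hnil i
    refine ⟨r, ?_⟩
    refine lead_nil (T := δ) (θ := θ) (γ := γ) (fun α c hc => der_Ho hθ hHo hc) ?_
      (α := wt [i]) (by rw [← mo_single]; exact mo_mem_Ho _) hr
    intro w
    have e1 : (δ - θ) (mo K w) = (D - θ) (mo K w) + e (mo K w) := by
      rw [LinearMap.sub_apply, LinearMap.sub_apply, hD, LinearMap.sub_apply]; abel
    rw [e1]
    refine Submodule.add_mem _ (der_Lo (hder.sub hθ) hLo w) ?_
    rw [mem_Lo_iff]
    intro v hv
    have h2 := hlow w v hv
    have h3 : wt v + wt q = wt w := by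
      rw [wt, wt, wt, ← toLex_add, Prod.mk_add_mk, ← h2 0, ← h2 1]
      push_cast
      rfl
    have h4 : wt v < wt w := by
      rw [← h3]; exact lt_add_of_pos_right _ (wt_pos hq)
    exact lt_of_lt_of_le h4 (le_add_of_nonneg_right hγpos)
  have h5 := hom_lnd hθ a b (by rw [← hab]; exact hHo) hnθ i0
  rw [hθf] at h5
  have h6 := hf i0 v0
  rw [h5, map_zero, if_pos (by rw [← hγ0]; abel)] at h6
  exact hv0 h6.symm

end ClaimM

section Ab

variable {K : Type} [Field K]

/-- abelianisation -/
noncomputable def ab (K : Type) [Field K] : FreeAlgebra K (Fin 2) →ₐ[K] MvPolynomial (Fin 2) K :=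
  FreeAlgebra.lift K (fun i : Fin 2 => (MvPolynomial.X i : MvPolynomial (Fin 2) K))

theorem ab_ι (i : Fin 2) : ab K (FreeAlgebra.ι K i) = MvPolynomial.X i := by
  rw [ab, FreeAlgebra.lift_ι_apply]

theorem ab_mo (w : List (Fin 2)) :
    ab K (mo K w) = MvPolynomial.monomial (w.map (fun i => Finsupp.single i 1)).sum (1 : K) := by
  induction w with
  | nil => rw [mo_nil, map_one]; rfl
  | cons x w ih =>
    rw [mo_cons, map_mul, ih, ab_ι, List.map_cons, List.sum_cons, MvPolynomial.X,
      MvPolynomial.monomial_mul, mul_one]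

theorem cnt_apply (w : List (Fin 2)) (y : Fin 2) :
    (w.map (fun i => (Finsupp.single i 1 : Fin 2 →₀ ℕ))).sum y = w.count y := by
  classical
  induction w with
  | nil => simp
  | cons x w ih =>
    rw [List.map_cons, List.sum_cons, Finsupp.add_apply, ih, List.count_cons, Finsupp.single_apply,
      add_comm]
    simp

theorem cnt_eq_single {w : List (Fin 2)} {x : Fin 2} {j : ℕ} :
    (w.map (fun i => (Finsupp.single i 1 : Fin 2 →₀ ℕ))).sum = Finsupp.single x j ↔
      w = List.replicate j x := by
  classical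
  constructor
  · intro h
    have h1 : ∀ y, w.count y = (Finsupp.single x j : Fin 2 →₀ ℕ) y := by
      intro y; rw [← h, cnt_apply]
    have h2 : ∀ y ∈ w, y = x := by
      intro y hy
      by_contra hne
      have h3 := h1 y
      rw [Finsupp.single_eq_of_ne hne] at h3
      exact (List.count_pos_iff.2 hy).ne' h3
    have h3 : w = List.replicate w.length x := List.eq_replicate_of_mem h2
    have h4 := h1 x
    rw [Finsupp.single_eq_same, h3, List.count_replicate_self] at h4
    rw [h3, h4]
  · rintro rfl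
    ext y
    rw [cnt_apply, List.count_replicate, Finsupp.single_apply]
    simp

theorem coeff_ab (x : Fin 2) (j : ℕ) (a : FreeAlgebra K (Fin 2)) :
    MvPolynomial.coeff (Finsupp.single x j) (ab K a) = cf (List.replicate j x) a := by
  classical
  induction a using mo_induction with
  | h0 => simp
  | hm w =>
    rw [ab_mo, MvPolynomial.coeff_monomial, cf_mo]
    by_cases h : w = List.replicate j x
    · rw [if_pos (cnt_eq_single.2 h), if_pos h.symm]
    · rw [if_neg (fun h2 => h (cnt_eq_single.1 h2)), if_neg (fun h2 => h h2.symm)]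
  | ha a b ha hb => rw [map_add, MvPolynomial.coeff_add, ha, hb, map_add]
  | hs c a ha => rw [map_smul, MvPolynomial.coeff_smul, ha, map_smul]

end Ab

section CoreThm

variable {K : Type} [Field K] [CharZero K] {S : Set (FreeAlgebra K (Fin 2))}
  {Δ : FreeAlgebra K (Fin 2) →ₐ[K] FreeAlgebra K (Fin 2) ⊗[K] FreeAlgebra K (Fin 2)}

omit [CharZero K] in
theorem HS.dl_single_mul (h : HS S Δ) (x : Fin 2) (a b : FreeAlgebra K (Fin 2)) :
    dl Δ [x] (a * b) = a * dl Δ [x] b + dl Δ [x] a * b := by
  rw [dl_mul]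
  simp only [List.length_singleton]
  rw [Finset.sum_range_succ, Finset.sum_range_one]
  simp only [List.take_zero, List.drop_zero]
  have e1 : List.take 1 [x] = [x] := rfl
  have e2 : List.drop 1 [x] = [] := rfl
  rw [e1, e2, h.dl_nil, h.dl_nil]

/-- generators with linear abelianisation -/
def Lin (K : Type) [Field K] (S : Set (FreeAlgebra K (Fin 2))) : Prop :=
  ∀ l ∈ S, ∃ α β : K, ab K l = MvPolynomial.C α * MvPolynomial.X 0 + MvPolynomial.C β * MvPolynomial.X 1

omit [CharZero K] in
theorem level1 (h : HS S Δ) (hN : Lin K S) (y : Fin 2) (a : FreeAlgebra K (Fin 2)) :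
    ab K (dl Δ [y] a) = MvPolynomial.pderiv y (ab K a) := by
  refine h.ind (P := fun a => ab K (dl Δ [y] a) = MvPolynomial.pderiv y (ab K a)) ?_ ?_ ?_ ?_ a
  · intro l hl
    rw [h.dl_S_ne hl (by simp), AlgHom.commutes]
    obtain ⟨α, β, hl2⟩ := hN l hl
    have h1 : cf [y] l = MvPolynomial.coeff (Finsupp.single y 1) (ab K l) := by
      rw [coeff_ab]; rfl
    have h2 : MvPolynomial.pderiv y (MvPolynomial.C α * MvPolynomial.X 0 +
        MvPolynomial.C β * MvPolynomial.X 1) = MvPolynomial.C α *
        (Pi.single y (1 : MvPolynomial (Fin 2) K) : Fin 2 → MvPolynomial (Fin 2) K) 0 +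
        MvPolynomial.C β * (Pi.single y (1 : MvPolynomial (Fin 2) K) : Fin 2 → _) 1 := by
      rw [map_add, Derivation.leibniz, Derivation.leibniz, MvPolynomial.pderiv_C,
        MvPolynomial.pderiv_C, MvPolynomial.pderiv_X, MvPolynomial.pderiv_X]
      simp
    rw [h1, hl2, h2, MvPolynomial.coeff_add, MvPolynomial.coeff_C_mul, MvPolynomial.coeff_C_mul,
      MvPolynomial.algebraMap_eq]
    fin_cases y
    · simp [MvPolynomial.coeff_X, Finsupp.single_left_inj]
    · simp [MvPolynomial.coeff_X, Finsupp.single_left_inj]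
  · intro c
    rw [dl_algebraMap_ne (by simp), AlgHom.commutes, MvPolynomial.algebraMap_eq, MvPolynomial.pderiv_C,
      map_zero]
  · intro a b ha hb
    rw [map_add, map_add, ha, hb, map_add, map_add]
  · intro a b ha hb
    rw [h.dl_single_mul, map_add, map_mul, map_mul, ha, hb, map_mul, Derivation.leibniz, smul_eq_mul,
      smul_eq_mul]
    ring

omit [CharZero K] in
theorem cf_const_ne {w : List (Fin 2)} (hw : w ≠ []) (c : K) :
    cf w (algebraMap K (FreeAlgebra K (Fin 2)) c) = 0 := cf_algebraMap_ne hw c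

omit [CharZero K] in
/-- the mixed-letter condition follows from vanishing on pure powers -/
theorem mix_of_pure {a : FreeAlgebra K (Fin 2)} (h : ∀ x j, cf (List.replicate j x) a = 0)
    (v : List (Fin 2)) (hv : cf v a ≠ 0) : 0 < v.count 0 ∧ 0 < v.count 1 := by
  constructor
  · by_contra h0
    have h1 : v = List.replicate v.length 1 := by
      apply List.eq_replicate_of_mem
      intro y hy
      by_contra hne
      have : y = 0 := by omega
      rw [this] at hy
      exact h0 (List.count_pos_iff.2 hy)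
    rw [h1] at hv
    exact hv (h _ _)
  · by_contra h0
    have h1 : v = List.replicate v.length 0 := by
      apply List.eq_replicate_of_mem
      intro y hy
      by_contra hne
      have : y = 1 := by omega
      rw [this] at hy
      exact h0 (List.count_pos_iff.2 hy)
    rw [h1] at hv
    exact hv (h _ _)

omit [CharZero K] in
theorem diff_der (h : HS S Δ) {w : List (Fin 2)} (hw : w ≠ [])
    (hlt : ∀ v : List (Fin 2), v.length < w.length → dl Δ v = dl (D0 K (Fin 2)) v) :
    IsDer (dl Δ w - dl (D0 K (Fin 2)) w) := by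
  intro a b
  obtain ⟨m, hm⟩ : ∃ m, w.length = m + 1 := ⟨w.length - 1, by
    have := List.length_pos_iff.2 hw; omega⟩
  rw [LinearMap.sub_apply, LinearMap.sub_apply, LinearMap.sub_apply, dl_mul, dl_mul, hm]
  rw [Finset.sum_range_succ, Finset.sum_range_succ', Finset.sum_range_succ, Finset.sum_range_succ']
  have e1 : List.take (m + 1) w = w := by rw [← hm, List.take_length]
  have e2 : List.drop (m + 1) w = [] := by rw [← hm, List.drop_length]
  rw [e1, e2, List.take_zero, List.drop_zero, h.dl_nil, h.dl_nil, HS0.dl_nil, HS0.dl_nil]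
  have e3 : ∑ k ∈ Finset.range m, dl Δ (List.take (k + 1) w) a * dl Δ (List.drop (k + 1) w) b =
      ∑ k ∈ Finset.range m, dl (D0 K (Fin 2)) (List.take (k + 1) w) a *
        dl (D0 K (Fin 2)) (List.drop (k + 1) w) b := by
    apply Finset.sum_congr rfl
    intro k hk
    rw [Finset.mem_range] at hk
    rw [hlt (List.take (k + 1) w) (by rw [List.length_take]; omega),
      hlt (List.drop (k + 1) w) (by rw [List.length_drop]; omega)]
  rw [e3]
  noncomm_ring

theorem step_of_pure (h : HS S Δ) {w : List (Fin 2)} (hw : w ≠ [])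
    (hlt : ∀ v : List (Fin 2), v.length < w.length → dl Δ v = dl (D0 K (Fin 2)) v)
    (hp : ∀ i x j, 1 ≤ j → cf (List.replicate j x) (dl Δ w (FreeAlgebra.ι K i)) = 0) :
    dl Δ w = dl (D0 K (Fin 2)) w := by
  refine claimM (diff_der h hw hlt) (fun i => h.nilp hw _) hw
    (fun p v hv => D0_count p v w hv) ?_
  intro i
  apply mix_of_pure
  intro x j
  rw [LinearMap.sub_apply, map_sub, cf_dl_D0_ι i hw]
  rcases j with _ | j
  · rw [List.replicate_zero, h.flip, h.dl_nil, Algebra.algebraMap_eq_smul_one, map_smul, cf_one_nil,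
      smul_eq_mul, mul_one, sub_self]
  · rw [hp i x (j + 1) (by omega), cf_algebraMap_ne (by simp), sub_self]

theorem level1' (h : HS S Δ) (hN : Lin K S) (y : Fin 2) : dl Δ [y] = dl (D0 K (Fin 2)) [y] := by
  apply step_of_pure h (by simp)
  · intro v hv
    have : v = [] := by
      apply List.eq_nil_of_length_eq_zero
      rw [List.length_singleton] at hv; omega
    subst this
    ext a
    rw [h.dl_nil, HS0.dl_nil]
  · intro i x j hj
    rw [← coeff_ab, level1 h hN, ab_ι, MvPolynomial.pderiv_X]
    by_cases hy : i = y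
    · subst hy
      rw [Pi.single_eq_same]
      classical
      rw [MvPolynomial.coeff_one, if_neg]
      intro h2
      have := congrArg (fun s => s x) h2
      simp at this
      omega
    · rw [Pi.single_eq_of_ne hy, MvPolynomial.coeff_zero]

omit [CharZero K] in
theorem take_rep (j k : ℕ) (x : Fin 2) (hk : k ≤ j) :
    List.take k (List.replicate j x) = List.replicate k x := by
  rw [List.take_replicate, min_eq_left hk]

/-- slices at powers of a letter -/
theorem power_step (h : HS S Δ) (hN : Lin K S) (x : Fin 2) (a : FreeAlgebra K (Fin 2)) : ∀ j : ℕ,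
    dl Δ [x] (dl Δ (List.replicate j x) a) = ((j + 1 : ℕ) : K) • dl Δ (List.replicate (j + 1) x) a := by
  refine h.ind (P := fun a => ∀ j : ℕ, dl Δ [x] (dl Δ (List.replicate j x) a) =
    ((j + 1 : ℕ) : K) • dl Δ (List.replicate (j + 1) x) a) ?_ ?_ ?_ ?_ a
  · intro l hl j
    rcases j with _ | j
    · rw [List.replicate_zero, h.dl_nil, zero_add, Nat.cast_one, one_smul]; rfl
    · rw [h.dl_S_ne hl (by simp), dl_algebraMap_ne (by simp), h.dl_S_ne hl (by simp), ← coeff_ab]
      obtain ⟨α, β, hl2⟩ := hN l hl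
      have h1 : ∀ i : Fin 2, MvPolynomial.coeff (Finsupp.single x (j + 1 + 1))
          (MvPolynomial.X i : MvPolynomial (Fin 2) K) = 0 := by
        intro i
        rw [MvPolynomial.coeff_X, if_neg]
        intro h2
        have h3 := congrArg (fun s : Fin 2 →₀ ℕ => s x) h2
        simp only [Finsupp.single_eq_same] at h3
        have h4 : (Finsupp.single i 1 : Fin 2 →₀ ℕ) x ≤ 1 := by
          rw [Finsupp.single_apply]; split_ifs <;> omega
        omega
      rw [hl2, MvPolynomial.coeff_add, MvPolynomial.coeff_C_mul, MvPolynomial.coeff_C_mul, h1, h1]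
      simp
  · intro c j
    rw [dl_algebraMap_ne (w := List.replicate (j + 1) x) (by simp), smul_zero]
    rcases j with _ | j
    · rw [List.replicate_zero, h.dl_nil, dl_algebraMap_ne (by simp)]
    · rw [dl_algebraMap_ne (by simp), map_zero]
  · intro a b ha hb j
    rw [map_add, map_add, map_add, smul_add, ha, hb]
  · intro a b ha hb j
    rw [dl_mul, dl_mul, List.length_replicate, List.length_replicate, map_sum]
    have e1 : ∀ k ∈ Finset.range (j + 1), dl Δ [x] (dl Δ (List.take k (List.replicate j x)) a *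
        dl Δ (List.drop k (List.replicate j x)) b) =
        ((k + 1 : ℕ) : K) • (dl Δ (List.replicate (k + 1) x) a * dl Δ (List.replicate (j - k) x) b) +
        ((j + 1 - k : ℕ) : K) • (dl Δ (List.replicate k x) a *
          dl Δ (List.replicate (j + 1 - k) x) b) := by
      intro k hk
      rw [Finset.mem_range] at hk
      rw [h.dl_single_mul, take_rep j k x (by omega), List.drop_replicate, ha, hb]
      have e : j - k + 1 = j + 1 - k := by omega
      rw [e, mul_smul_comm, smul_mul_assoc, add_comm]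
    rw [Finset.sum_congr rfl e1, Finset.sum_add_distrib, Finset.smul_sum]
    have e2 : ∀ k ∈ Finset.range (j + 1 + 1), ((j + 1 : ℕ) : K) •
        (dl Δ (List.take k (List.replicate (j + 1) x)) a *
          dl Δ (List.drop k (List.replicate (j + 1) x)) b) =
        ((k : ℕ) : K) • (dl Δ (List.replicate k x) a * dl Δ (List.replicate (j + 1 - k) x) b) +
        ((j + 1 - k : ℕ) : K) • (dl Δ (List.replicate k x) a *
          dl Δ (List.replicate (j + 1 - k) x) b) := by
      intro k hk
      rw [Finset.mem_range] at hk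
      rw [take_rep (j + 1) k x (by omega), List.drop_replicate, ← add_smul]
      congr 1
      rw [← Nat.cast_add]
      congr 1
      omega
    rw [Finset.sum_congr rfl e2, Finset.sum_add_distrib]
    congr 1
    · conv_rhs => rw [Finset.sum_range_succ']
      simp only [Nat.cast_zero, zero_smul, add_zero]
      apply Finset.sum_congr rfl
      intro k _
      have e : j + 1 - (k + 1) = j - k := by omega
      rw [e]
    · rw [Finset.sum_range_succ _ (j + 1)]
      simp

theorem power_zero (h : HS S Δ) (hN : Lin K S) (x i : Fin 2) (j : ℕ) :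
    ∃ c : K, dl Δ (List.replicate (j + 1) x) (FreeAlgebra.ι K i) = algebraMap K _ c := by
  induction j with
  | zero =>
    have e : List.replicate (0 + 1) x = [x] := rfl
    rw [e, level1' h hN, cf_dl_D0_ι i (by simp)]
    exact ⟨_, rfl⟩
  | succ j ih =>
    obtain ⟨c, hc⟩ := ih
    have h1 := power_step h hN x (FreeAlgebra.ι K i) (j + 1)
    rw [hc, dl_algebraMap_ne (by simp)] at h1
    refine ⟨0, ?_⟩
    rw [map_zero]
    rcases smul_eq_zero.1 h1.symm with h2 | h2
    · exfalso
      exact (Nat.cast_ne_zero.2 (by omega)) h2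
    · exact h2

/-- the core theorem on slices -/
theorem core_slices (h : HS S Δ) (hN : Lin K S) (n : ℕ) : ∀ w : List (Fin 2), w.length = n →
    dl Δ w = dl (D0 K (Fin 2)) w := by
  induction n using Nat.strong_induction_on with
  | _ n ih =>
    intro w hw
    by_cases hw0 : w = []
    · subst hw0
      ext a
      rw [h.dl_nil, HS0.dl_nil]
    · apply step_of_pure h hw0
      · intro v hv
        exact ih v.length (by omega) v rfl
      · intro i x j hj
        obtain ⟨j, rfl⟩ : ∃ m, j = m + 1 := ⟨j - 1, by omega⟩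
        rw [h.flip]
        obtain ⟨c, hc⟩ := power_zero h hN x i j
        rw [hc, cf_algebraMap_ne hw0]

/-- the core theorem -/
theorem core (h : HS S Δ) (hN : Lin K S) : Δ = D0 K (Fin 2) := by
  apply AlgHom.ext
  intro a
  apply sl_ext
  intro w
  have := core_slices h hN w.length w rfl
  exact congrArg (fun f => f a) this

end CoreThm

end Pool.Agent.Helper844_FA
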