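import Mathlib

set_option autoImplicit false

namespace Pool.Agent.Helper844_FA.GE

open scoped TensorProduct

/-- Lie algebras embed in their enveloping algebras -/
def HInj : Prop := ∀ (K : Type) [Field K] (L : Type) [LieRing L] [LieAlgebra K L],
  Function.Injective (fun x : L => UniversalEnvelopingAlgebra.ι K x)

/-- primitive elements of enveloping algebras -/
def HPrim : Prop := ∀ (K : Type) [Field K] [CharZero K] (L : Type) [LieRing L] [LieAlgebra K L]
    (Δ : UniversalEnvelopingAlgebra K L →ₐ[K]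
      UniversalEnvelopingAlgebra K L ⊗[K] UniversalEnvelopingAlgebra K L),
    (∀ l : L, Δ (UniversalEnvelopingAlgebra.ι K l) =
      UniversalEnvelopingAlgebra.ι K l ⊗ₜ[K] 1 + 1 ⊗ₜ[K] UniversalEnvelopingAlgebra.ι K l) →
    ∀ x : UniversalEnvelopingAlgebra K L, Δ x = x ⊗ₜ[K] 1 + 1 ⊗ₜ[K] x →
    ∃ l : L, UniversalEnvelopingAlgebra.ι K l = x

section aux

attribute [local instance 100] LieRing.ofAssociativeRing

/-- the comultiplication of an enveloping algebra -/
theorem exists_comul (K : Type) [Field K] (M : Type) [LieRing M] [LieAlgebra K M] :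
    ∃ Δ : UniversalEnvelopingAlgebra K M →ₐ[K]
      UniversalEnvelopingAlgebra K M ⊗[K] UniversalEnvelopingAlgebra K M,
    ∀ l : M, Δ (UniversalEnvelopingAlgebra.ι K l) =
      UniversalEnvelopingAlgebra.ι K l ⊗ₜ[K] 1 + 1 ⊗ₜ[K] UniversalEnvelopingAlgebra.ι K l := by
  let f : M →ₗ⁅K⁆ UniversalEnvelopingAlgebra K M ⊗[K] UniversalEnvelopingAlgebra K M :=
    { toFun := fun l => UniversalEnvelopingAlgebra.ι K l ⊗ₜ[K] 1 + 1 ⊗ₜ[K] UniversalEnvelopingAlgebra.ι K l
      map_add' := by
        intro a b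
        rw [map_add, TensorProduct.add_tmul, TensorProduct.tmul_add]
        abel
      map_smul' := by
        intro r a
        rw [map_smul, ← TensorProduct.smul_tmul', TensorProduct.tmul_smul, smul_add, RingHom.id_apply]
      map_lie' := by
        intro a b
        rw [LieHom.map_lie, LieRing.of_associative_ring_bracket, LieRing.of_associative_ring_bracket]
        simp only [mul_add, add_mul, Algebra.TensorProduct.tmul_mul_tmul, one_mul, mul_one,
          TensorProduct.sub_tmul, TensorProduct.tmul_sub]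
        abel }
  refine ⟨UniversalEnvelopingAlgebra.lift K f, ?_⟩
  intro l
  rw [UniversalEnvelopingAlgebra.lift_ι_apply]
  rfl

theorem free_of_gens_aux (H1 : HInj) (H2 : HPrim) (K : Type) [Field K] [CharZero K] (L : Type) [LieRing L]
    [LieAlgebra K L] (Y : Type) (x : Y → L)
    (h : Function.Bijective (FreeAlgebra.lift K (fun y : Y => UniversalEnvelopingAlgebra.ι K (x y)) :
      FreeAlgebra K Y →ₐ[K] UniversalEnvelopingAlgebra K L)) :
    Nonempty (L ≃ₗ⁅K⁆ FreeLieAlgebra K Y) := by
  classical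
  let φ : FreeLieAlgebra K Y →ₗ⁅K⁆ L := FreeLieAlgebra.lift K x
  let Φ : UniversalEnvelopingAlgebra K (FreeLieAlgebra K Y) →ₐ[K] UniversalEnvelopingAlgebra K L :=
    UniversalEnvelopingAlgebra.lift K ((UniversalEnvelopingAlgebra.ι K).comp φ)
  have hΦι : ∀ f : FreeLieAlgebra K Y, Φ (UniversalEnvelopingAlgebra.ι K f)
      = UniversalEnvelopingAlgebra.ι K (φ f) := by
    intro f
    show UniversalEnvelopingAlgebra.lift K ((UniversalEnvelopingAlgebra.ι K).comp φ) _ = _
    rw [UniversalEnvelopingAlgebra.lift_ι_apply]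
    rfl
  -- Φ is bijective
  have hcomp : Φ.comp (FreeLieAlgebra.universalEnvelopingEquivFreeAlgebra K Y).symm.toAlgHom
      = FreeAlgebra.lift K (fun y : Y => UniversalEnvelopingAlgebra.ι K (x y)) := by
    apply FreeAlgebra.hom_ext
    funext y
    show Φ ((FreeLieAlgebra.universalEnvelopingEquivFreeAlgebra K Y).symm (FreeAlgebra.ι K y)) =
      FreeAlgebra.lift K (fun y : Y => UniversalEnvelopingAlgebra.ι K (x y)) (FreeAlgebra.ι K y)
    rw [FreeAlgebra.lift_ι_apply]
    have : (FreeLieAlgebra.universalEnvelopingEquivFreeAlgebra K Y).symm (FreeAlgebra.ι K y)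
        = UniversalEnvelopingAlgebra.ι K (FreeLieAlgebra.of K y) := by
      show FreeAlgebra.lift K (UniversalEnvelopingAlgebra.ι K ∘ FreeLieAlgebra.of K) (FreeAlgebra.ι K y) = _
      rw [FreeAlgebra.lift_ι_apply]
      rfl
    rw [this, hΦι]
    congr 1
    exact FreeLieAlgebra.lift_of_apply x y
  have hΦ : Function.Bijective Φ := by
    have h' : Function.Bijective (Φ.comp
        (FreeLieAlgebra.universalEnvelopingEquivFreeAlgebra K Y).symm.toAlgHom) := by
      rw [hcomp]; exact h
    have h'' : Function.Bijective (Φ ∘ (FreeLieAlgebra.universalEnvelopingEquivFreeAlgebra K Y).symm) := h'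
    exact (Function.Bijective.of_comp_iff Φ
      (FreeLieAlgebra.universalEnvelopingEquivFreeAlgebra K Y).symm.bijective).mp h''
  have hinj : Function.Injective φ := by
    intro a b hab
    have h1 : Φ (UniversalEnvelopingAlgebra.ι K a) = Φ (UniversalEnvelopingAlgebra.ι K b) := by
      rw [hΦι, hΦι, hab]
    exact H1 K (FreeLieAlgebra K Y) (hΦ.1 h1)
  have hsurj : Function.Surjective φ := by
    intro l
    obtain ⟨ΔF, hΔF⟩ := exists_comul K (FreeLieAlgebra K Y)
    obtain ⟨ΔL, hΔL⟩ := exists_comul K L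
    obtain ⟨a, ha⟩ := hΦ.2 (UniversalEnvelopingAlgebra.ι K l)
    -- compatibility
    have hc : (Algebra.TensorProduct.map Φ Φ).comp ΔF = ΔL.comp Φ := by
      apply UniversalEnvelopingAlgebra.hom_ext
      apply LieHom.ext
      intro f
      show (Algebra.TensorProduct.map Φ Φ) (ΔF (UniversalEnvelopingAlgebra.ι K f))
        = ΔL (Φ (UniversalEnvelopingAlgebra.ι K f))
      rw [hΔF, hΦι, hΔL, map_add, Algebra.TensorProduct.map_tmul, Algebra.TensorProduct.map_tmul,
        hΦι, map_one]
    have hinjT : Function.Injective (Algebra.TensorProduct.map Φ Φ) := by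
      let e := AlgEquiv.ofBijective Φ hΦ
      have : (Algebra.TensorProduct.map Φ Φ) = (Algebra.TensorProduct.congr e e).toAlgHom := by
        apply Algebra.TensorProduct.ext
        · ext z; rfl
        · ext z; rfl
      rw [this]
      exact (Algebra.TensorProduct.congr e e).injective
    have hprim : ΔF a = a ⊗ₜ[K] 1 + 1 ⊗ₜ[K] a := by
      apply hinjT
      have h1 : (Algebra.TensorProduct.map Φ Φ) (ΔF a) = ΔL (Φ a) := by
        have := congrArg (fun g => g a) hc
        exact this
      rw [h1, ha, hΔL, map_add, Algebra.TensorProduct.map_tmul, Algebra.TensorProduct.map_tmul, ha,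
        map_one]
    obtain ⟨f, hf⟩ := H2 K (FreeLieAlgebra K Y) ΔF hΔF a hprim
    refine ⟨f, ?_⟩
    apply H1 K L
    show UniversalEnvelopingAlgebra.ι K (φ f) = UniversalEnvelopingAlgebra.ι K l
    rw [← hΦι, hf, ha]
  exact ⟨(LieEquiv.ofBijective φ ⟨hinj, hsurj⟩).symm⟩

end aux

theorem free_of_gens (H1 : HInj) (H2 : HPrim) (K : Type) [Field K] [CharZero K] (L : Type) [LieRing L]
    [LieAlgebra K L] (Y : Type) (x : Y → L)
    (h : Function.Bijective (FreeAlgebra.lift K (fun y : Y => UniversalEnvelopingAlgebra.ι K (x y)) :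
      FreeAlgebra K Y →ₐ[K] UniversalEnvelopingAlgebra K L)) :
    Nonempty (L ≃ₗ⁅K⁆ FreeLieAlgebra K Y) :=
  free_of_gens_aux H1 H2 K L Y x h

end Pool.Agent.Helper844_FA.GE
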