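import Mathlib
import Pool.Agent.H922R2.K13

set_option autoImplicit false

namespace Pool.Agent.Helper844_FA.JL

open MvPolynomial
open Pool.Agent.H922R2

section Descent

variable {k K : Type*} [Field k] [Field K] (φ : k →+* K)

theorem DJ_mapC (f h : MvPolynomial (Fin 2) k) : DJ (map φ f) (map φ h) = map φ (DJ f h) := by
  simp only [DJ_apply, pderiv_map, map_sub, map_mul]

theorem DJ_iterC (f h : MvPolynomial (Fin 2) k) (N : ℕ) :
    (DJ (map φ f))^[N] (map φ h) = map φ ((DJ f)^[N] h) := by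
  induction N with
  | zero => rfl
  | succ N ih =>
    rw [Function.iterate_succ_apply', Function.iterate_succ_apply', ih, DJ_mapC]

theorem LN_mapC (f : MvPolynomial (Fin 2) k) (hf : LN (DJ f)) : LN (DJ (map φ f)) := by
  have h2 : nilSub (DJ (map φ f)) = ⊤ := by
    rw [eq_top_iff, ← MvPolynomial.adjoin_range_X]
    apply Algebra.adjoin_le
    rintro _ ⟨i, rfl⟩
    obtain ⟨N, hN⟩ := hf (X i)
    refine ⟨N, ?_⟩
    have h := DJ_iterC φ f (X i) N
    rw [hN, map_zero, map_X] at h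
    exact h
  intro r
  have : r ∈ nilSub (DJ (map φ f)) := by rw [h2]; trivial
  exact this

theorem degreeOf_mapC (f : MvPolynomial (Fin 2) k) (i : Fin 2) :
    degreeOf i (map φ f) = degreeOf i f := by
  rw [degreeOf_eq_sup, degreeOf_eq_sup, support_map_of_injective _ φ.injective]

theorem Psi_mapC (w : Fin 2 → ℕ) (p : MvPolynomial (Fin 2) k) :
    Psi w (map φ p) = (Psi w p).map (map φ) := by
  apply Polynomial.ext
  intro n
  rw [Polynomial.coeff_map]
  ext t
  rw [coeff_coeff_Psi, coeff_map, coeff_map, coeff_coeff_Psi]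
  split_ifs <;> simp

theorem map_injC : Function.Injective (map (σ := Fin 2) φ) := map_injective φ φ.injective

end Descent

variable {k : Type} [Field k] [CharZero k]

theorem lead_one (f : MvPolynomial (Fin 2) k) (hf : LN (DJ f)) (g m' n' : ℕ)
    (hg : 0 < g) (hm' : 0 < m') (hn' : 0 < n') (hco : Nat.Coprime m' n')
    (hm : degreeOf 0 f = g * m') (hn : degreeOf 1 f = g * n') :
    m' = 1 ∨ n' = 1 := by
  set φ := algebraMap k (AlgebraicClosure k) with hφ
  have : CharZero (AlgebraicClosure k) := charZero_of_injective_algebraMap φ.injective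
  exact (lead_struct (map φ f) (LN_mapC φ f hf) g m' n' hg hm' hn' hco
    (by rw [degreeOf_mapC, hm]) (by rw [degreeOf_mapC, hn])).1

theorem lead_two (f : MvPolynomial (Fin 2) k) (hf : LN (DJ f)) (g m' : ℕ)
    (hg : 0 < g) (hm' : 0 < m')
    (hm : degreeOf 0 f = g * m') (hn : degreeOf 1 f = g * 1) :
    (Psi ![1, m'] f).natDegree = 1 * (g * m') ∧
      ∃ c z : k, c ≠ 0 ∧ z ≠ 0 ∧
        (Psi ![1, m'] f).leadingCoeff = C c * (X 0 ^ m' - C z * X 1 ^ 1) ^ g := by
  set φ := algebraMap k (AlgebraicClosure k) with hφ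
  have : CharZero (AlgebraicClosure k) := charZero_of_injective_algebraMap φ.injective
  obtain ⟨-, h2, c, z, hc, hz, hF⟩ := lead_struct (map φ f) (LN_mapC φ f hf) g m' 1 hg hm' one_pos
    (Nat.coprime_one_right m') (by rw [degreeOf_mapC, hm]) (by rw [degreeOf_mapC, hn])
  rw [Psi_mapC, Polynomial.natDegree_map_eq_of_injective (map_injC φ)] at h2
  rw [Psi_mapC, Polynomial.leadingCoeff_map_of_injective (map_injC φ)] at hF
  refine ⟨h2, ?_⟩
  set F := (Psi ![1, m'] f).leadingCoeff with hFdef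
  have ev : ∀ p : MvPolynomial (Fin 2) k, eval ![(1 : AlgebraicClosure k), 0] (map φ p) =
      φ (eval ![(1 : k), 0] p) := by
    intro p
    have h : (![(1 : AlgebraicClosure k), 0] : Fin 2 → AlgebraicClosure k) =
        fun i => φ ((![(1 : k), 0] : Fin 2 → k) i) := by
      funext i
      fin_cases i <;> simp
    rw [h, eval_map]
    have h2 := (eval₂_comp_left φ (RingHom.id k) (![(1 : k), 0] : Fin 2 → k) p)
    rw [eval₂_id] at h2
    rw [h2]
    rfl
  -- the constant
  have e1 : φ (eval ![(1 : k), 0] F) = c := by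
    rw [← ev, hF]
    simp
  -- the root
  have e2 : φ (eval ![(1 : k), 0] (pderiv 1 F)) = -(g * z * c) := by
    rw [← ev, ← pderiv_map, hF, Derivation.leibniz, Derivation.leibniz_pow]
    simp only [map_sub, Derivation.leibniz, Derivation.leibniz_pow, pderiv_C,
      pderiv_X_self, pderiv_X_of_ne (show (0 : Fin 2) ≠ 1 by decide), smul_eq_mul, nsmul_eq_mul,
      mul_zero, map_add, map_mul, map_pow, eval_C, eval_X, map_natCast, map_zero, map_one]
    simp
    ring
  set c0 := eval ![(1 : k), 0] F with hc0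
  set d0 := eval ![(1 : k), 0] (pderiv 1 F) with hd0
  have hc0' : c0 ≠ 0 := by
    intro h
    rw [h, map_zero] at e1
    exact hc e1.symm
  have hg0 : (g : k) ≠ 0 := by exact_mod_cast hg.ne'
  have hz0 : φ (-(d0 / (g * c0))) = z := by
    rw [map_neg, map_div₀, map_mul, e2, e1, map_natCast]
    have hg1 : (g : AlgebraicClosure k) ≠ 0 := by exact_mod_cast hg.ne'
    field_simp
  refine ⟨c0, -(d0 / (g * c0)), hc0', ?_, ?_⟩
  · intro h
    rw [h, map_zero] at hz0
    exact hz hz0.symm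
  · apply map_injC φ
    rw [hF, map_mul, map_pow, map_sub, map_mul, map_pow, map_pow, map_C, map_C, map_X, map_X, e1, hz0]

theorem reduce1' (f : MvPolynomial (Fin 2) k) (hf : LN (DJ f)) (g m' : ℕ) (hg : 0 < g) (hm' : 0 < m')
    (hm : degreeOf 0 f = g * m') (hn : degreeOf 1 f = g * 1) :
    ∃ P : Polynomial k, degreeOf 0 (elemY P f) < degreeOf 0 f ∧
      degreeOf 1 (elemY P f) ≤ degreeOf 1 f := by
  obtain ⟨hd, c, z, hc, hz, hF⟩ := lead_two f hf g m' hg hm' hm hn
  set w : Fin 2 → ℕ := ![1, m'] with hw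
  set P : Polynomial k := Polynomial.C z⁻¹ * Polynomial.X ^ m' with hP
  refine ⟨P, ?_⟩
  set τ := elemY P with hτ
  have hτ0 : τ (X 0) = X 0 := elemY_X0 P
  have hτ1 : τ (X 1) = X 1 + C z⁻¹ * X 0 ^ m' := by
    rw [hτ, elemY_X1, hP]
    simp [ux, algebraMap_eq]
  have hPsi : ∀ p, Psi w (τ p) = (Psi w p).map τ.toRingEquiv.toRingHom := by
    have h1 : (Psi w).comp τ.toAlgHom =
        (Polynomial.mapAlgHom τ.toAlgHom).comp (Psi w) := by
      apply MvPolynomial.algHom_ext
      intro i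
      fin_cases i
      · change Psi w (τ (X 0)) = (Psi w (X 0)).map τ.toRingEquiv.toRingHom
        rw [hτ0]
        simp only [Psi, aeval_X, Polynomial.map_mul, Polynomial.map_C, Polynomial.map_pow,
          Polynomial.map_X]
        congr 2
        exact hτ0.symm
      · change Psi w (τ (X 1)) = (Psi w (X 1)).map τ.toRingEquiv.toRingHom
        rw [hτ1]
        simp only [Psi, aeval_X, Polynomial.map_mul, Polynomial.map_C, Polynomial.map_pow,
          Polynomial.map_X, map_add, map_mul, map_pow]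
        have h2 : τ.toRingEquiv.toRingHom (X 1) = X 1 + C z⁻¹ * X 0 ^ m' := hτ1
        rw [h2]
        simp only [hw, Matrix.cons_val_zero, Matrix.cons_val_one, pow_one,
          Polynomial.C_add, Polynomial.C_mul, Polynomial.C_pow, mul_pow, aeval_C]
        rw [Polynomial.algebraMap_apply, MvPolynomial.algebraMap_eq]
        ring
    intro p
    exact DFunLike.congr_fun h1 p
  have hdeg : (Psi w (τ f)).natDegree ≤ g * m' := by
    rw [hPsi]
    refine (Polynomial.natDegree_map_le).trans ?_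
    rw [hd, one_mul]
  have hlead : (Psi w (τ f)).coeff (g * m') = C (c * (-z) ^ g) * X 1 ^ g := by
    rw [hPsi, Polynomial.coeff_map]
    have h1 : (Psi w f).coeff (g * m') = (Psi w f).leadingCoeff := by
      rw [Polynomial.leadingCoeff, hd, one_mul]
    rw [h1, hF]
    change τ (C c * (X 0 ^ m' - C z * X 1 ^ 1) ^ g) = _
    rw [map_mul, map_pow, map_sub, map_mul, map_pow, map_pow, hτ0, hτ1]
    have h2 : ∀ a : k, τ (C a) = C a := fun a => τ.commutes a
    rw [h2, h2]
    have h3 : (X 0 ^ m' - C z * (X 1 + C z⁻¹ * X 0 ^ m') ^ 1 : MvPolynomial (Fin 2) k) =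
        C (-z) * X 1 := by
      have : (X 0 ^ m' - C z * (X 1 + C z⁻¹ * X 0 ^ m') ^ 1 : MvPolynomial (Fin 2) k) =
        X 0 ^ m' - C z * X 1 - (C z * C z⁻¹) * X 0 ^ m' := by ring
      rw [this, ← C_mul, mul_inv_cancel₀ hz, C_1, C_neg]
      ring
    rw [h3, mul_pow, ← mul_assoc, ← C_pow, ← C_mul]
  have hsupp : ∀ t, coeff t (τ f) ≠ 0 → t 0 + m' * t 1 ≤ g * m' ∧
      (t 0 + m' * t 1 = g * m' → t 0 = 0) := by
    intro t ht
    have h1 := wt_le_natDegree w ht
    have h2 : wt w t = t 0 + m' * t 1 := by simp [wt, hw]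
    rw [h2] at h1
    refine ⟨h1.trans hdeg, fun h3 => ?_⟩
    have h4 := coeff_coeff_Psi w (τ f) (g * m') t
    rw [h2, if_pos h3, hlead] at h4
    by_contra h5
    apply ht
    rw [← h4, X_pow_eq_monomial, coeff_C_mul, coeff_monomial, if_neg, mul_zero]
    intro h6
    apply h5
    rw [← h6]
    simp
  have hgm : 0 < g * m' := Nat.mul_pos hg hm'
  constructor
  · rw [hm, degreeOf_lt_iff hgm]
    intro t ht
    obtain ⟨h1, h2⟩ := hsupp t (mem_support_iff.1 ht)
    by_contra h3
    have h4 : t 0 + m' * t 1 = g * m' := by omega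
    have := h2 h4
    omega
  · rw [hn, degreeOf_le_iff]
    intro t ht
    obtain ⟨h1, h2⟩ := hsupp t (mem_support_iff.1 ht)
    have h3 : m' * t 1 ≤ m' * g := by
      have : g * m' = m' * g := mul_comm _ _
      omega
    have := Nat.le_of_mul_le_mul_left h3 hm'
    omega

/-- the generators of the free algebra -/
noncomputable abbrev ug (k : Type) [Field k] (i : Fin 2) : FreeAlgebra k (Fin 2) := FreeAlgebra.ι k i

/-- abelianisation -/
noncomputable abbrev ab (k : Type) [Field k] : FreeAlgebra k (Fin 2) →ₐ[k] MvPolynomial (Fin 2) k :=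
  FreeAlgebra.lift k (fun i : Fin 2 => (X i : MvPolynomial (Fin 2) k))

omit [CharZero k] in
theorem ab_ug (i : Fin 2) : ab k (ug k i) = X i := by
  simp [ab, ug]

/-- the automorphisms which lift to the free algebra -/
noncomputable def LG (k : Type) [Field k] : Subgroup (GA k) where
  carrier := {φ | ∃ σ : FreeAlgebra k (Fin 2) ≃ₐ[k] FreeAlgebra k (Fin 2), ∀ a, ab k (σ a) = φ (ab k a)}
  mul_mem' := by
    rintro φ ψ ⟨σ, hσ⟩ ⟨τ, hτ⟩
    refine ⟨τ.trans σ, fun a => ?_⟩
    rw [AlgEquiv.trans_apply, hσ, hτ]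
    rfl
  one_mem' := ⟨AlgEquiv.refl, fun a => rfl⟩
  inv_mem' := by
    rintro φ ⟨σ, hσ⟩
    refine ⟨σ.symm, fun a => ?_⟩
    have h := hσ (σ.symm a)
    rw [AlgEquiv.apply_symm_apply] at h
    rw [h]
    exact (φ.symm_apply_apply _).symm

omit [CharZero k] in
/-- builder -/
theorem mem_LG {φ : GA k} (f g f' g' : FreeAlgebra k (Fin 2))
    (h1 : FreeAlgebra.lift k ![f, g] f' = ug k 0) (h2 : FreeAlgebra.lift k ![f, g] g' = ug k 1)
    (h3 : FreeAlgebra.lift k ![f', g'] f = ug k 0) (h4 : FreeAlgebra.lift k ![f', g'] g = ug k 1)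
    (h5 : φ (X 0) = ab k f) (h6 : φ (X 1) = ab k g) : φ ∈ LG k := by
  let σ : FreeAlgebra k (Fin 2) ≃ₐ[k] FreeAlgebra k (Fin 2) :=
    AlgEquiv.ofAlgHom (FreeAlgebra.lift k ![f, g]) (FreeAlgebra.lift k ![f', g'])
      (by
        apply FreeAlgebra.hom_ext
        funext i
        fin_cases i
        · simpa using h1
        · simpa using h2)
      (by
        apply FreeAlgebra.hom_ext
        funext i
        fin_cases i
        · simpa using h3
        · simpa using h4)
  refine ⟨σ, ?_⟩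
  have key : (ab k).comp σ.toAlgHom = φ.toAlgHom.comp (ab k) := by
    apply FreeAlgebra.hom_ext
    funext i
    fin_cases i
    · change ab k (FreeAlgebra.lift k ![f, g] (ug k 0)) = φ (ab k (ug k 0))
      rw [ab_ug, h5]
      simp [ug]
    · change ab k (FreeAlgebra.lift k ![f, g] (ug k 1)) = φ (ab k (ug k 1))
      rw [ab_ug, h6]
      simp [ug]
  intro a
  exact DFunLike.congr_fun key a

omit [CharZero k] in
theorem lift_ug0 (f g : FreeAlgebra k (Fin 2)) : FreeAlgebra.lift k ![f, g] (ug k 0) = f := by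
  simp [ug]

omit [CharZero k] in
theorem lift_ug1 (f g : FreeAlgebra k (Fin 2)) : FreeAlgebra.lift k ![f, g] (ug k 1) = g := by
  simp [ug]

omit [CharZero k] in
theorem sw_LG : sw ∈ LG k := by
  apply mem_LG (ug k 1) (ug k 0) (ug k 1) (ug k 0)
  · rw [lift_ug1]
  · rw [lift_ug0]
  · rw [lift_ug1]
  · rw [lift_ug0]
  · rw [sw_X0, ab_ug]
  · rw [sw_X1, ab_ug]

omit [CharZero k] in
theorem elemX_LG (P : Polynomial k) : elemX P ∈ LG k := by
  apply mem_LG (ug k 0 + Polynomial.aeval (ug k 1) P) (ug k 1)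
    (ug k 0 - Polynomial.aeval (ug k 1) P) (ug k 1)
  · rw [map_sub, lift_ug0, ← Polynomial.aeval_algHom_apply, lift_ug1]
    abel
  · rw [lift_ug1]
  · rw [map_add, lift_ug0, ← Polynomial.aeval_algHom_apply, lift_ug1]
    abel
  · rw [lift_ug1]
  · rw [elemX_X0, map_add, ab_ug, ← Polynomial.aeval_algHom_apply, ab_ug]
    rfl
  · rw [elemX_X1, ab_ug]

omit [CharZero k] in
theorem elemY_LG (P : Polynomial k) : elemY P ∈ LG k :=
  mul_mem (mul_mem sw_LG (elemX_LG P)) sw_LG

theorem ux_of_pderiv {p : MvPolynomial (Fin 2) k} (h : pderiv 1 p = 0) :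
    ∃ P : Polynomial k, p = ux P := by
  refine ⟨aeval ![Polynomial.X, 0] p, ?_⟩
  have h1 : ux (aeval ![(Polynomial.X : Polynomial k), 0] p) =
      aeval ![(X 0 : MvPolynomial (Fin 2) k), 0] p := by
    unfold ux
    have h2 : (Polynomial.aeval (X 0 : MvPolynomial (Fin 2) k)).comp
        (aeval ![(Polynomial.X : Polynomial k), 0]) = aeval ![(X 0 : MvPolynomial (Fin 2) k), 0] := by
      apply MvPolynomial.algHom_ext
      intro i
      fin_cases i <;> simp
    exact DFunLike.congr_fun h2 p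
  rw [h1]
  conv_rhs => rw [p.as_sum]
  conv_lhs => rw [p.as_sum]
  rw [map_sum]
  apply Finset.sum_congr rfl
  intro t ht
  have h3 := support_of_pderiv_eq_zero h t (mem_support_iff.1 ht)
  rw [aeval_monomial, Finsupp.prod_fintype _ _ (by simp), Fin.prod_univ_two, h3,
    monomial_eq, Finsupp.prod_fintype _ _ (by simp), Fin.prod_univ_two, h3]
  simp [MvPolynomial.algebraMap_eq]

theorem linear_LG {φ : GA k} {a b : k} (ha : a ≠ 0) (h : φ (X 0) = C a * X 0 + C b) :
    φ ∈ LG k := by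
  have hu := DJ_unit φ
  rw [DJ_apply, h] at hu
  have e1 : pderiv 0 (C a * X 0 + C b : MvPolynomial (Fin 2) k) = C a := by simp
  have e2 : pderiv 1 (C a * X 0 + C b : MvPolynomial (Fin 2) k) = 0 := by
    simp [pderiv_X_of_ne (show (0 : Fin 2) ≠ 1 by decide)]
  rw [e1, e2, zero_mul, sub_zero] at hu
  obtain ⟨c, hc, hc2⟩ := MvPolynomial.isUnit_iff_eq_C_of_isReduced.1 (isUnit_of_mul_isUnit_right hu)
  have hc0 : c ≠ 0 := hc.ne_zero
  obtain ⟨P, hP⟩ := ux_of_pderiv (p := φ (X 1) - C c * X 1) (by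
    rw [map_sub, hc2]
    simp)
  have h1 : φ (X 1) = C c * X 1 + ux P := by rw [← hP]; ring
  have hA : ∀ (f g : FreeAlgebra k (Fin 2)) (r : k), FreeAlgebra.lift k ![f, g] (algebraMap k _ r) =
      algebraMap k _ r := fun f g r => AlgHom.commutes _ r
  apply mem_LG (a • ug k 0 + algebraMap k _ b) (c • ug k 1 + Polynomial.aeval (ug k 0) P)
    (a⁻¹ • (ug k 0 - algebraMap k _ b))
    (c⁻¹ • (ug k 1 - Polynomial.aeval (a⁻¹ • (ug k 0 - algebraMap k _ b)) P))
  · rw [map_smul, map_sub, hA, lift_ug0, add_sub_cancel_right, smul_smul, inv_mul_cancel₀ ha, one_smul]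
  · rw [map_smul, map_sub, lift_ug1, ← Polynomial.aeval_algHom_apply, map_smul, map_sub, hA, lift_ug0,
      add_sub_cancel_right, smul_smul, inv_mul_cancel₀ ha, one_smul, add_sub_cancel_right, smul_smul,
      inv_mul_cancel₀ hc0, one_smul]
  · rw [map_add, map_smul, hA, lift_ug0, smul_smul, mul_inv_cancel₀ ha, one_smul, sub_add_cancel]
  · rw [map_add, map_smul, ← Polynomial.aeval_algHom_apply, lift_ug1, lift_ug0, smul_smul,
      mul_inv_cancel₀ hc0, one_smul, sub_add_cancel]
  · rw [h, map_add, map_smul, ab_ug, AlgHom.commutes, smul_eq_C_mul]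
    rfl
  · rw [h1, map_add, map_smul, ab_ug, ← Polynomial.aeval_algHom_apply, ab_ug, smul_eq_C_mul]
    rfl

theorem reduce' (f : MvPolynomial (Fin 2) k) (hf : LN (DJ f)) (h0 : 0 < degreeOf 0 f)
    (h1 : 0 < degreeOf 1 f) :
    ∃ τ ∈ LG k, degreeOf 0 (τ f) + degreeOf 1 (τ f) < degreeOf 0 f + degreeOf 1 f := by
  set m := degreeOf 0 f with hm
  set n := degreeOf 1 f with hn
  set g := Nat.gcd m n with hg
  have hgpos : 0 < g := Nat.gcd_pos_of_pos_left _ h0
  obtain ⟨m', hm'⟩ : g ∣ m := Nat.gcd_dvd_left m n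
  obtain ⟨n', hn'⟩ : g ∣ n := Nat.gcd_dvd_right m n
  have hm'pos : 0 < m' := Nat.pos_of_ne_zero (by rintro rfl; omega)
  have hn'pos : 0 < n' := Nat.pos_of_ne_zero (by rintro rfl; omega)
  have hco : Nat.Coprime m' n' := by
    have h := Nat.coprime_div_gcd_div_gcd (m := m) (n := n) hgpos
    rw [← hg] at h
    rwa [Nat.div_eq_of_eq_mul_right hgpos hm', Nat.div_eq_of_eq_mul_right hgpos hn'] at h
  rcases lead_one f hf g m' n' hgpos hm'pos hn'pos hco hm' hn' with h2 | h2
  · -- m' = 1 : swap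
    subst h2
    have e0 : degreeOf 0 (sw f) = n := by
      rw [degreeOf_sw]
      simp [hn]
    have e1 : degreeOf 1 (sw f) = m := by
      rw [degreeOf_sw]
      simp [hm]
    obtain ⟨P, h3, h4⟩ := reduce1' (sw f) (LN_map sw f hf) g n' hgpos hn'pos (by rw [e0, hn'])
      (by rw [e1, hm'])
    refine ⟨elemY P * sw, mul_mem (elemY_LG P) sw_LG, ?_⟩
    rw [AlgEquiv.mul_apply]
    omega
  · subst h2
    obtain ⟨P, h3, h4⟩ := reduce1' f hf g m' hgpos hm'pos hm' hn'
    exact ⟨elemY P, elemY_LG P, by omega⟩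

theorem LG_top : (LG k : Subgroup (GA k)) = ⊤ := by
  rw [eq_top_iff]
  intro φ _
  induction hN : degreeOf 0 (φ (X 0)) + degreeOf 1 (φ (X 0)) using Nat.strong_induction_on
    generalizing φ with
  | _ N ih =>
    by_cases h1 : degreeOf 1 (φ (X 0)) = 0
    · obtain ⟨a, b, ha, h⟩ := linear_of_pderiv (DJ_unit φ) (pderiv_of_degreeOf h1)
      exact linear_LG ha h
    · by_cases h0 : degreeOf 0 (φ (X 0)) = 0
      · have h2 : degreeOf 1 (((sw : GA k) * φ) (X 0)) = 0 := by
          rw [AlgEquiv.mul_apply, degreeOf_sw]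
          simpa using h0
        obtain ⟨a, b, ha, h⟩ := linear_of_pderiv (DJ_unit ((sw : GA k) * φ)) (pderiv_of_degreeOf h2)
        have h3 := linear_LG ha h
        have h4 : φ = (sw : GA k)⁻¹ * (sw * φ) := by group
        rw [h4]
        exact mul_mem (inv_mem sw_LG) h3
      · obtain ⟨τ, hτ, h2⟩ := reduce' (φ (X 0)) (LN_ga φ) (Nat.pos_of_ne_zero h0) (Nat.pos_of_ne_zero h1)
        have h3 := ih _ (hN ▸ h2) (φ := τ * φ) trivial rfl
        have h4 : φ = τ⁻¹ * (τ * φ) := by group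
        rw [h4]
        exact mul_mem (inv_mem hτ) h3

theorem jung_lift (k : Type) [Field k] [CharZero k] (φ : MvPolynomial (Fin 2) k ≃ₐ[k] MvPolynomial (Fin 2) k) :
    ∃ σ : FreeAlgebra k (Fin 2) ≃ₐ[k] FreeAlgebra k (Fin 2), ∀ a : FreeAlgebra k (Fin 2),
      FreeAlgebra.lift k (fun i : Fin 2 => (X i : MvPolynomial (Fin 2) k)) (σ a) =
        φ (FreeAlgebra.lift k (fun i : Fin 2 => (X i : MvPolynomial (Fin 2) k)) a) := by
  have h : φ ∈ LG k := by rw [LG_top]; trivial
  exact h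

end Pool.Agent.Helper844_FA.JL
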