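import Mathlib
import Pool.Agent.Helper844_FA.Core
import Pool.Agent.Helper844_FA.JungLift

/-! Normalising the abelianisation of a space of primitive generators. -/

set_option autoImplicit false

namespace Pool.Agent.Helper844_FA

open scoped TensorProduct

section Norm

variable {K : Type} [Field K]
  {Δ : FreeAlgebra K (Fin 2) →ₐ[K] FreeAlgebra K (Fin 2) ⊗[K] FreeAlgebra K (Fin 2)}
  {S : Submodule K (FreeAlgebra K (Fin 2))}

/-- the derivations of the polynomial ring induced by the slices at letters -/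
noncomputable def eta (Δ : FreeAlgebra K (Fin 2) →ₐ[K] FreeAlgebra K (Fin 2) ⊗[K] FreeAlgebra K (Fin 2))
    (x : Fin 2) : Derivation K (MvPolynomial (Fin 2) K) (MvPolynomial (Fin 2) K) :=
  MvPolynomial.mkDerivation K (fun i => ab K (dl Δ [x] (FreeAlgebra.ι K i)))

theorem eta_ab (h : HS (S : Set (FreeAlgebra K (Fin 2))) Δ) (x : Fin 2) (a : FreeAlgebra K (Fin 2)) :
    eta Δ x (ab K a) = ab K (dl Δ [x] a) := by
  refine HS0.ind (P := fun a => eta Δ x (ab K a) = ab K (dl Δ [x] a)) ?_ ?_ ?_ ?_ a
  · rintro _ ⟨i, rfl⟩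
    rw [ab_ι, eta, MvPolynomial.mkDerivation_X]
  · intro c
    rw [AlgHom.commutes, dl_algebraMap_ne (by simp), map_zero, Derivation.map_algebraMap]
  · intro a b ha hb
    rw [map_add, map_add, ha, hb, map_add, map_add]
  · intro a b ha hb
    rw [h.dl_single_mul, map_mul (ab K) a b, Derivation.leibniz, ha, hb, map_add, map_mul, map_mul,
      smul_eq_mul, smul_eq_mul]
    ring

theorem eta_S (h : HS (S : Set (FreeAlgebra K (Fin 2))) Δ) (x : Fin 2) {l : FreeAlgebra K (Fin 2)}
    (hl : l ∈ S) : eta Δ x (ab K l) = MvPolynomial.C (cf [x] l) := by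
  rw [eta_ab h, h.dl_S_ne hl (by simp), AlgHom.commutes, MvPolynomial.algebraMap_eq]

theorem coeff_zero_ab (a : FreeAlgebra K (Fin 2)) : MvPolynomial.coeff 0 (ab K a) = cf [] a := by
  have := coeff_ab (K := K) 0 0 a
  rw [Finsupp.single_zero, List.replicate_zero] at this
  exact this

theorem eta_const (h : HS (S : Set (FreeAlgebra K (Fin 2))) Δ) (x i : Fin 2) :
    MvPolynomial.constantCoeff (eta Δ x (MvPolynomial.X i)) = if i = x then 1 else 0 := by
  rw [← ab_ι, eta_ab h, MvPolynomial.constantCoeff_eq, coeff_zero_ab, h.flip, h.dl_nil, cf_ι]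
  simp [eq_comm]

theorem deriv_expand (D : Derivation K (MvPolynomial (Fin 2) K) (MvPolynomial (Fin 2) K))
    (p : MvPolynomial (Fin 2) K) : D p = MvPolynomial.pderiv 0 p * D (MvPolynomial.X 0) +
      MvPolynomial.pderiv 1 p * D (MvPolynomial.X 1) := by
  have h := Pool.Agent.H922R2.deriv_aeval D (fun i => MvPolynomial.X i) p
  rw [MvPolynomial.aeval_X_left] at h
  rw [Fin.sum_univ_two] at h
  simpa using h

theorem eta_kernel [CharZero K] (h : HS (S : Set (FreeAlgebra K (Fin 2))) Δ)
    {p : MvPolynomial (Fin 2) K} (h0 : eta Δ 0 p = 0) (h1 : eta Δ 1 p = 0) :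
    p = MvPolynomial.C (MvPolynomial.coeff 0 p) := by
  apply Pool.Agent.H922R2.eq_C_of_pderiv_eq_zero
  rw [deriv_expand] at h0 h1
  set a := eta Δ 0 (MvPolynomial.X 0) with ha
  set b := eta Δ 0 (MvPolynomial.X 1) with hb
  set c := eta Δ 1 (MvPolynomial.X 0) with hc
  set d := eta Δ 1 (MvPolynomial.X 1) with hd
  have hdet : a * d - b * c ≠ 0 := by
    intro hz
    have h2 := congrArg MvPolynomial.constantCoeff hz
    rw [map_sub, map_mul, map_mul, ha, hb, hc, hd, eta_const h, eta_const h, eta_const h,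
      eta_const h, map_zero] at h2
    simp at h2
  have e0 : (a * d - b * c) * MvPolynomial.pderiv 0 p = 0 := by
    linear_combination d * h0 - b * h1
  have e1 : (a * d - b * c) * MvPolynomial.pderiv 1 p = 0 := by
    linear_combination a * h1 - c * h0
  intro i
  fin_cases i
  · exact (mul_eq_zero.1 e0).resolve_left hdet
  · exact (mul_eq_zero.1 e1).resolve_left hdet

/-- no nontrivial combination of the linear coefficients vanishes on the generators -/
theorem lin_indep (h : HS (S : Set (FreeAlgebra K (Fin 2))) Δ) {α β : K}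
    (hz : ∀ l ∈ S, α * cf [0] l + β * cf [1] l = 0) : α = 0 ∧ β = 0 := by
  have key : ∀ a : FreeAlgebra K (Fin 2), α * cf [0] a + β * cf [1] a = 0 := by
    intro a
    refine h.ind (P := fun a => α * cf [0] a + β * cf [1] a = 0) ?_ ?_ ?_ ?_ a
    · intro l hl; exact hz l hl
    · intro c
      rw [cf_algebraMap_ne (by simp), cf_algebraMap_ne (by simp)]; ring
    · intro a b ha hb
      rw [map_add, map_add]
      linear_combination ha + hb
    · intro a b ha hb
      have e : ∀ x : Fin 2, cf [x] (a * b) = cf [] a * cf [x] b + cf [x] a * cf [] b := by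
        intro x
        rw [cf_mul]
        simp only [List.length_singleton]
        rw [Finset.sum_range_succ, Finset.sum_range_one]
        rfl
      rw [e, e]
      linear_combination (cf [] b) * ha + (cf [] a) * hb
  classical
  have e0 := key (FreeAlgebra.ι K 0)
  have e1 := key (FreeAlgebra.ι K 1)
  rw [cf_ι, cf_ι] at e0 e1
  simp at e0 e1
  exact ⟨e0, e1⟩

theorem exists_dual_gens (h : HS (S : Set (FreeAlgebra K (Fin 2))) Δ) (c : Fin 2 → K) :
    ∃ l ∈ S, ∀ x : Fin 2, cf [x] l = c x := by
  let Φ : FreeAlgebra K (Fin 2) →ₗ[K] (Fin 2 → K) := LinearMap.pi (fun x : Fin 2 => cf [x])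
  have htop : S.map Φ = ⊤ := by
    by_contra hne
    obtain ⟨f, hf0, hf⟩ := Submodule.exists_le_ker_of_lt_top (S.map Φ) (lt_top_iff_ne_top.2 hne)
    apply hf0
    have hv : ∀ v : Fin 2 → K, f v = f (Pi.single 0 1) * v 0 + f (Pi.single 1 1) * v 1 := by
      intro v
      have e : v = v 0 • (Pi.single 0 1 : Fin 2 → K) + v 1 • (Pi.single 1 1 : Fin 2 → K) := by
        funext i
        fin_cases i <;> simp
      conv_lhs => rw [e]
      rw [map_add, map_smul, map_smul, smul_eq_mul, smul_eq_mul]
      ring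
    obtain ⟨h1, h2⟩ := lin_indep h (α := f (Pi.single 0 1)) (β := f (Pi.single 1 1)) (by
      intro l hl
      have := hf (Submodule.mem_map_of_mem hl)
      rw [LinearMap.mem_ker, hv] at this
      exact this)
    apply LinearMap.ext
    intro v
    rw [hv, h1, h2]
    simp
  have hc : c ∈ S.map Φ := by rw [htop]; trivial
  obtain ⟨l, hl, hlc⟩ := hc
  exact ⟨l, hl, fun x => congrFun hlc x⟩

/-- normalisation -/
theorem norm_exists [CharZero K] (h : HS (S : Set (FreeAlgebra K (Fin 2))) Δ) :
    ∃ σ : FreeAlgebra K (Fin 2) ≃ₐ[K] FreeAlgebra K (Fin 2), ∀ l ∈ S, ∃ α β : K,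
      ab K (σ l) = MvPolynomial.C α * MvPolynomial.X 0 + MvPolynomial.C β * MvPolynomial.X 1 := by
  have h1 : ∀ i : Fin 2, ∃ l ∈ S, ∀ x : Fin 2, cf [x] l = if x = i then 1 else 0 := fun i =>
    exists_dual_gens h _
  choose g hgS hg using h1
  -- the linear coordinates
  have hlin : ∀ l ∈ S, ab K l = MvPolynomial.C (cf [0] l) * ab K (g 0) +
      MvPolynomial.C (cf [1] l) * ab K (g 1) := by
    intro l hl
    have hk : ∀ x : Fin 2, eta Δ x (ab K l - (MvPolynomial.C (cf [0] l) * ab K (g 0) +
        MvPolynomial.C (cf [1] l) * ab K (g 1))) = 0 := by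
      intro x
      rw [map_sub, map_add, Derivation.leibniz, Derivation.leibniz, eta_S h x hl,
        eta_S h x (hgS 0), eta_S h x (hgS 1), hg, hg]
      have hC : ∀ c : K, eta Δ x (MvPolynomial.C c) = 0 := fun c =>
        Derivation.map_algebraMap _ c
      rw [hC, hC]
      fin_cases x <;> simp
    have h2 := eta_kernel h (hk 0) (hk 1)
    have h3 : MvPolynomial.coeff 0 (ab K l - (MvPolynomial.C (cf [0] l) * ab K (g 0) +
        MvPolynomial.C (cf [1] l) * ab K (g 1))) = 0 := by
      rw [MvPolynomial.coeff_sub, MvPolynomial.coeff_add, MvPolynomial.coeff_C_mul,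
        MvPolynomial.coeff_C_mul, coeff_zero_ab, coeff_zero_ab, coeff_zero_ab, h.aug l hl,
        h.aug _ (hgS 0), h.aug _ (hgS 1)]
      ring
    rw [h3, MvPolynomial.C_0] at h2
    exact sub_eq_zero.1 h2
  let τ : MvPolynomial (Fin 2) K →ₐ[K] MvPolynomial (Fin 2) K :=
    MvPolynomial.aeval (fun i => ab K (g i))
  have hτX : ∀ i, τ (MvPolynomial.X i) = ab K (g i) := fun i => MvPolynomial.aeval_X _ _
  have hτl : ∀ l ∈ S, τ (MvPolynomial.C (cf [0] l) * MvPolynomial.X 0 +
      MvPolynomial.C (cf [1] l) * MvPolynomial.X 1) = ab K l := by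
    intro l hl
    rw [hlin l hl, map_add, map_mul, map_mul, hτX, hτX]
    congr 2
    · exact AlgHom.commutes τ _
    · exact AlgHom.commutes τ _
  have hsurj : Function.Surjective τ := by
    have habsurj : ∀ a : FreeAlgebra K (Fin 2), ab K a ∈ τ.range := by
      intro a
      refine h.ind (P := fun a => ab K a ∈ τ.range) ?_ ?_ ?_ ?_ a
      · intro l hl
        exact ⟨_, hτl l hl⟩
      · intro c
        rw [AlgHom.commutes]
        exact Subalgebra.algebraMap_mem _ _
      · intro a b ha hb
        rw [map_add]; exact Subalgebra.add_mem _ ha hb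
      · intro a b ha hb
        rw [map_mul]; exact Subalgebra.mul_mem _ ha hb
    intro p
    have : p ∈ τ.range := by
      induction p using MvPolynomial.induction_on with
      | C c => exact Subalgebra.algebraMap_mem _ c
      | add p q hp hq => exact Subalgebra.add_mem _ hp hq
      | mul_X p i hp =>
        refine Subalgebra.mul_mem _ hp ?_
        rw [← ab_ι]
        exact habsurj _
    exact this
  have hcomm : ∀ x p, eta Δ x (τ p) = τ (MvPolynomial.pderiv x p) := by
    intro x p
    induction p using MvPolynomial.induction_on with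
    | C c =>
      have e1 : τ (MvPolynomial.C c) = MvPolynomial.C c := AlgHom.commutes τ c
      rw [e1, MvPolynomial.pderiv_C, map_zero]
      exact Derivation.map_algebraMap _ c
    | add p q hp hq => rw [map_add, map_add, hp, hq, map_add, map_add]
    | mul_X p i hp =>
      rw [map_mul, Derivation.leibniz, Derivation.leibniz, hp, hτX, eta_S h x (hgS i), hg,
        map_add, smul_eq_mul, smul_eq_mul, smul_eq_mul, smul_eq_mul, map_mul, map_mul, hτX,
        MvPolynomial.pderiv_X]
      congr 1
      by_cases hx : x = i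
      · subst hx
        simp
      · rw [if_neg hx, Pi.single_eq_of_ne (fun h2 => hx h2.symm)]
        simp
  have hinj : Function.Injective τ := by
    rw [injective_iff_map_eq_zero]
    intro p
    induction hn : p.totalDegree using Nat.strong_induction_on generalizing p with
    | _ n ih =>
      intro hp
      have h2 : ∀ i, MvPolynomial.pderiv i p = 0 := by
        intro i
        by_contra hne
        exact hne (ih _ (hn ▸ Pool.Agent.H922R2.totalDegree_pderiv_lt p i hne) _ rfl (by
          rw [← hcomm, hp, map_zero]))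
      rw [Pool.Agent.H922R2.eq_C_of_pderiv_eq_zero p h2] at hp ⊢
      have e1 : τ (MvPolynomial.C (MvPolynomial.coeff 0 p)) =
        MvPolynomial.C (MvPolynomial.coeff 0 p) := AlgHom.commutes τ _
      rw [← e1, hp]
  let τe : MvPolynomial (Fin 2) K ≃ₐ[K] MvPolynomial (Fin 2) K :=
    AlgEquiv.ofBijective τ ⟨hinj, hsurj⟩
  obtain ⟨σ, hσ⟩ := JL.jung_lift K τe
  refine ⟨σ.symm, fun l hl => ⟨cf [0] l, cf [1] l, ?_⟩⟩
  apply hinj
  rw [hτl l hl]
  have h3 := hσ (σ.symm l)
  rw [AlgEquiv.apply_symm_apply] at h3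
  exact h3.symm

end Norm

end Pool.Agent.Helper844_FA
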