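import Mathlib

set_option autoImplicit false

namespace Pool.Agent.Helper844_FA.PR

open scoped TensorProduct

section aux

attribute [local instance 100] LieRing.ofAssociativeRing

variable (K : Type) [Field K] (L : Type) [LieRing L] [LieAlgebra K L]

/-- span of `1` and the image of `L` -/
def prim_mem_V : Submodule K (UniversalEnvelopingAlgebra K L) :=
  1 ⊔ LinearMap.range (UniversalEnvelopingAlgebra.ι K : L →ₗ⁅K⁆ UniversalEnvelopingAlgebra K L).toLinearMap

variable {L}

theorem prim_mem_one_le : (1 : Submodule K (UniversalEnvelopingAlgebra K L)) ≤ prim_mem_V K L := le_sup_left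

theorem prim_mem_iV (l : L) : UniversalEnvelopingAlgebra.ι K l ∈ prim_mem_V K L :=
  (le_sup_right : _ ≤ prim_mem_V K L) ⟨l, rfl⟩

theorem prim_mem_lie (l m : L) : (UniversalEnvelopingAlgebra.ι K ⁅l, m⁆ : UniversalEnvelopingAlgebra K L)
    = UniversalEnvelopingAlgebra.ι K l * UniversalEnvelopingAlgebra.ι K m
      - UniversalEnvelopingAlgebra.ι K m * UniversalEnvelopingAlgebra.ι K l := by
  rw [LieHom.map_lie, LieRing.of_associative_ring_bracket]

theorem prim_mem_mono {m n : ℕ} (h : m ≤ n) : prim_mem_V K L ^ m ≤ prim_mem_V K L ^ n := by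
  induction h with
  | refl => exact le_rfl
  | step _ ih =>
    refine ih.trans ?_
    rw [pow_succ']
    intro x hx
    have := Submodule.mul_mem_mul (prim_mem_one_le K (L := L) (Submodule.one_le.1 le_rfl)) hx
    rwa [one_mul] at this

/-- an element of `V * M` is handled by treating `M` and `l * M` -/
theorem prim_mem_ind {M : Submodule K (UniversalEnvelopingAlgebra K L)}
    {P : UniversalEnvelopingAlgebra K L → Prop} (h0 : ∀ x ∈ M, P x)
    (h1 : ∀ (l : L), ∀ x ∈ M, P (UniversalEnvelopingAlgebra.ι K l * x))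
    (hadd : ∀ x y, P x → P y → P (x + y)) (hsmul : ∀ (c : K) x, P x → P (c • x))
    {x : UniversalEnvelopingAlgebra K L} (hx : x ∈ prim_mem_V K L * M) : P x := by
  induction hx using Submodule.mul_induction_on' with
  | mem_mul_mem v hv w hw =>
    obtain ⟨a, ha, b, ⟨l, rfl⟩, rfl⟩ := Submodule.mem_sup.1 hv
    obtain ⟨c, rfl⟩ := Submodule.mem_one.1 ha
    rw [add_mul]
    refine hadd _ _ ?_ (h1 l w hw)
    rw [← Algebra.smul_def]
    exact hsmul c w (h0 w hw)
  | add x _ y _ hx hy => exact hadd x y hx hy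

theorem prim_mem_comm (l : L) (n : ℕ) : ∀ a ∈ prim_mem_V K L ^ n,
    a * UniversalEnvelopingAlgebra.ι K l - UniversalEnvelopingAlgebra.ι K l * a ∈ prim_mem_V K L ^ n := by
  induction n with
  | zero =>
    intro a ha
    rw [pow_zero] at ha ⊢
    obtain ⟨c, rfl⟩ := Submodule.mem_one.1 ha
    rw [Algebra.commutes, sub_self]
    exact Submodule.zero_mem _
  | succ n ih =>
    intro a ha
    rw [pow_succ'] at ha
    refine prim_mem_ind K (P := fun a => a * UniversalEnvelopingAlgebra.ι K l
      - UniversalEnvelopingAlgebra.ι K l * a ∈ prim_mem_V K L ^ (n+1)) ?_ ?_ ?_ ?_ ha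
    · intro x hx
      exact prim_mem_mono K (Nat.le_succ n) (ih x hx)
    · intro l1 x hx
      have h1 := Submodule.mul_mem_mul (prim_mem_iV K l1) (ih x hx)
      have h2 := Submodule.mul_mem_mul (prim_mem_iV K ⁅l1, l⁆) hx
      rw [← pow_succ'] at h1 h2
      have h3 := Submodule.add_mem _ h1 h2
      rw [prim_mem_lie] at h3
      have h4 : UniversalEnvelopingAlgebra.ι K l1 * x * UniversalEnvelopingAlgebra.ι K l
          - UniversalEnvelopingAlgebra.ι K l * (UniversalEnvelopingAlgebra.ι K l1 * x)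
          = UniversalEnvelopingAlgebra.ι K l1 * (x * UniversalEnvelopingAlgebra.ι K l
            - UniversalEnvelopingAlgebra.ι K l * x)
          + (UniversalEnvelopingAlgebra.ι K l1 * UniversalEnvelopingAlgebra.ι K l
            - UniversalEnvelopingAlgebra.ι K l * UniversalEnvelopingAlgebra.ι K l1) * x := by
        noncomm_ring
      rw [h4]
      exact h3
    · intro x y hx hy
      have := Submodule.add_mem _ hx hy
      have h4 : (x + y) * UniversalEnvelopingAlgebra.ι K l - UniversalEnvelopingAlgebra.ι K l * (x + y)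
          = (x * UniversalEnvelopingAlgebra.ι K l - UniversalEnvelopingAlgebra.ι K l * x)
            + (y * UniversalEnvelopingAlgebra.ι K l - UniversalEnvelopingAlgebra.ι K l * y) := by
        noncomm_ring
      rw [h4]; exact this
    · intro c x hx
      have := Submodule.smul_mem _ c hx
      have h4 : (c • x) * UniversalEnvelopingAlgebra.ι K l - UniversalEnvelopingAlgebra.ι K l * (c • x)
          = c • (x * UniversalEnvelopingAlgebra.ι K l - UniversalEnvelopingAlgebra.ι K l * x) := by
        rw [smul_mul_assoc, mul_smul_comm, smul_sub]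
      rw [h4]; exact this

/-- the tensor filtration -/
def prim_mem_T (L : Type) [LieRing L] [LieAlgebra K L] (n : ℕ) :
    Submodule K (UniversalEnvelopingAlgebra K L ⊗[K] UniversalEnvelopingAlgebra K L) :=
  Submodule.span K {t | ∃ i j, i + j ≤ n ∧ ∃ a ∈ prim_mem_V K L ^ i, ∃ b ∈ prim_mem_V K L ^ j, t = a ⊗ₜ[K] b}

theorem prim_mem_T_mono {m n : ℕ} (h : m ≤ n) : prim_mem_T K L m ≤ prim_mem_T K L n := by
  refine Submodule.span_mono ?_
  rintro t ⟨i, j, hij, r⟩
  exact ⟨i, j, hij.trans h, r⟩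

theorem prim_mem_T1 (l : L) (n : ℕ) : ∀ t ∈ prim_mem_T K L n,
    (UniversalEnvelopingAlgebra.ι K l ⊗ₜ[K] 1) * t ∈ prim_mem_T K L (n+1) := by
  intro t ht
  induction ht using Submodule.span_induction with
  | mem t ht =>
    obtain ⟨i, j, hij, a, ha, b, hb, rfl⟩ := ht
    refine Submodule.subset_span ⟨i+1, j, by omega, UniversalEnvelopingAlgebra.ι K l * a, ?_, b, hb, ?_⟩
    · rw [pow_succ']; exact Submodule.mul_mem_mul (prim_mem_iV K l) ha
    · rw [Algebra.TensorProduct.tmul_mul_tmul, one_mul]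
  | zero => rw [mul_zero]; exact Submodule.zero_mem _
  | add x y _ _ hx hy => rw [mul_add]; exact Submodule.add_mem _ hx hy
  | smul c x _ hx => rw [mul_smul_comm]; exact Submodule.smul_mem _ c hx

theorem prim_mem_T2 (l : L) (n : ℕ) : ∀ t ∈ prim_mem_T K L n,
    (1 ⊗ₜ[K] UniversalEnvelopingAlgebra.ι K l) * t ∈ prim_mem_T K L (n+1) := by
  intro t ht
  induction ht using Submodule.span_induction with
  | mem t ht =>
    obtain ⟨i, j, hij, a, ha, b, hb, rfl⟩ := ht
    refine Submodule.subset_span ⟨i, j+1, by omega, a, ha, UniversalEnvelopingAlgebra.ι K l * b, ?_, ?_⟩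
    · rw [pow_succ']; exact Submodule.mul_mem_mul (prim_mem_iV K l) hb
    · rw [Algebra.TensorProduct.tmul_mul_tmul, one_mul]
  | zero => rw [mul_zero]; exact Submodule.zero_mem _
  | add x y _ _ hx hy => rw [mul_add]; exact Submodule.add_mem _ hx hy
  | smul c x _ hx => rw [mul_smul_comm]; exact Submodule.smul_mem _ c hx

theorem prim_mem_mT (n : ℕ) : ∀ t ∈ prim_mem_T K L n,
    LinearMap.mul' K (UniversalEnvelopingAlgebra K L) t ∈ prim_mem_V K L ^ n := by
  intro t ht
  induction ht using Submodule.span_induction with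
  | mem t ht =>
    obtain ⟨i, j, hij, a, ha, b, hb, rfl⟩ := ht
    rw [LinearMap.mul'_apply]
    refine prim_mem_mono K hij ?_
    rw [pow_add]; exact Submodule.mul_mem_mul ha hb
  | zero => rw [map_zero]; exact Submodule.zero_mem _
  | add x y _ _ hx hy => rw [map_add]; exact Submodule.add_mem _ hx hy
  | smul c x _ hx => rw [map_smul]; exact Submodule.smul_mem _ c hx

theorem prim_mem_m1 (l : L) (t : UniversalEnvelopingAlgebra K L ⊗[K] UniversalEnvelopingAlgebra K L) :
    LinearMap.mul' K (UniversalEnvelopingAlgebra K L) ((UniversalEnvelopingAlgebra.ι K l ⊗ₜ[K] 1) * t)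
      = UniversalEnvelopingAlgebra.ι K l * LinearMap.mul' K (UniversalEnvelopingAlgebra K L) t := by
  induction t using TensorProduct.induction_on with
  | zero => simp
  | tmul a b =>
    rw [Algebra.TensorProduct.tmul_mul_tmul, LinearMap.mul'_apply, LinearMap.mul'_apply, one_mul, mul_assoc]
  | add x y hx hy => rw [mul_add, map_add, map_add, mul_add, hx, hy]

theorem prim_mem_m2 (l : L) (n : ℕ) : ∀ t ∈ prim_mem_T K L n,
    LinearMap.mul' K (UniversalEnvelopingAlgebra K L) ((1 ⊗ₜ[K] UniversalEnvelopingAlgebra.ι K l) * t)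
      - UniversalEnvelopingAlgebra.ι K l * LinearMap.mul' K (UniversalEnvelopingAlgebra K L) t
        ∈ prim_mem_V K L ^ n := by
  intro t ht
  induction ht using Submodule.span_induction with
  | mem t ht =>
    obtain ⟨i, j, hij, a, ha, b, hb, rfl⟩ := ht
    rw [Algebra.TensorProduct.tmul_mul_tmul, LinearMap.mul'_apply, LinearMap.mul'_apply, one_mul,
      ← mul_assoc, ← mul_assoc, ← sub_mul]
    refine prim_mem_mono K hij ?_
    rw [pow_add]; exact Submodule.mul_mem_mul (prim_mem_comm K l i a ha) hb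
  | zero => simp
  | add x y _ _ hx hy =>
    rw [mul_add, map_add, map_add, mul_add, add_sub_add_comm]
    exact Submodule.add_mem _ hx hy
  | smul c x _ hx =>
    rw [mul_smul_comm, map_smul, map_smul, mul_smul_comm, ← smul_sub]
    exact Submodule.smul_mem _ c hx

/-- the error filtration -/
def prim_mem_G (L : Type) [LieRing L] [LieAlgebra K L] : ℕ → Submodule K (UniversalEnvelopingAlgebra K L)
  | 0 => ⊥
  | n+1 => prim_mem_V K L ^ n

theorem prim_mem_G_le (n : ℕ) : prim_mem_G K L n ≤ prim_mem_V K L ^ n := by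
  cases n with
  | zero => exact bot_le
  | succ n => exact prim_mem_mono K (Nat.le_succ n)

theorem prim_mem_G_mul (l : L) (n : ℕ) : ∀ x ∈ prim_mem_G K L n,
    UniversalEnvelopingAlgebra.ι K l * x ∈ prim_mem_V K L ^ n := by
  intro x hx
  cases n with
  | zero =>
    have : x = 0 := hx
    rw [this, mul_zero]; exact Submodule.zero_mem _
  | succ n =>
    have hx' : x ∈ prim_mem_V K L ^ n := hx
    rw [pow_succ']; exact Submodule.mul_mem_mul (prim_mem_iV K l) hx'

variable (Δ : UniversalEnvelopingAlgebra K L →ₐ[K]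
      UniversalEnvelopingAlgebra K L ⊗[K] UniversalEnvelopingAlgebra K L)
    (hΔ : ∀ l : L, Δ (UniversalEnvelopingAlgebra.ι K l) =
      UniversalEnvelopingAlgebra.ι K l ⊗ₜ[K] 1 + 1 ⊗ₜ[K] UniversalEnvelopingAlgebra.ι K l)

include hΔ in
theorem prim_mem_main (n : ℕ) : ∀ x ∈ prim_mem_V K L ^ n, Δ x ∈ prim_mem_T K L n ∧
    LinearMap.mul' K (UniversalEnvelopingAlgebra K L) (Δ x) - (2 : K) ^ n • x ∈ prim_mem_G K L n := by
  induction n with
  | zero =>
    intro x hx
    rw [pow_zero] at hx
    obtain ⟨c, rfl⟩ := Submodule.mem_one.1 hx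
    have h1 : Δ (algebraMap K _ c) = c • ((1 : UniversalEnvelopingAlgebra K L) ⊗ₜ[K] 1) := by
      rw [AlgHom.commutes, Algebra.algebraMap_eq_smul_one, Algebra.TensorProduct.one_def]
    rw [h1]
    constructor
    · refine Submodule.smul_mem _ c (Submodule.subset_span ⟨0, 0, le_rfl, 1, ?_, 1, ?_, rfl⟩)
      · rw [pow_zero]; exact Submodule.one_le.1 le_rfl
      · rw [pow_zero]; exact Submodule.one_le.1 le_rfl
    · rw [map_smul, LinearMap.mul'_apply, one_mul, pow_zero, one_smul, ← Algebra.algebraMap_eq_smul_one, sub_self]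
      exact Submodule.zero_mem _
  | succ n ih =>
    intro x hx
    rw [pow_succ'] at hx
    refine prim_mem_ind K (P := fun x => Δ x ∈ prim_mem_T K L (n+1) ∧
      LinearMap.mul' K (UniversalEnvelopingAlgebra K L) (Δ x) - (2 : K) ^ (n+1) • x
        ∈ prim_mem_G K L (n+1)) ?_ ?_ ?_ ?_ hx
    · intro x hx
      refine ⟨prim_mem_T_mono K (Nat.le_succ n) (ih x hx).1, ?_⟩
      show _ ∈ prim_mem_V K L ^ n
      refine Submodule.sub_mem _ (prim_mem_mT K n _ (ih x hx).1) (Submodule.smul_mem _ _ hx)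
    · intro l x hx
      obtain ⟨h1, h2⟩ := ih x hx
      constructor
      · rw [map_mul, hΔ, add_mul]
        exact Submodule.add_mem _ (prim_mem_T1 K l n _ h1) (prim_mem_T2 K l n _ h1)
      · show _ ∈ prim_mem_V K L ^ n
        rw [map_mul, hΔ, add_mul, map_add, prim_mem_m1]
        have h3 := prim_mem_m2 K l n _ h1
        have h4 := prim_mem_G_mul K l n _ h2
        have h5 := Submodule.add_mem _ h3 (Submodule.smul_mem _ (2 : K) h4)
        convert h5 using 1
        rw [mul_sub, smul_sub, mul_smul_comm, smul_smul, pow_succ', two_smul]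
        abel
    · intro x y hx hy
      refine ⟨by rw [map_add]; exact Submodule.add_mem _ hx.1 hy.1, ?_⟩
      have := Submodule.add_mem _ hx.2 hy.2
      rwa [← add_sub_add_comm, ← map_add, ← map_add, ← smul_add] at this
    · intro c x hx
      refine ⟨by rw [map_smul]; exact Submodule.smul_mem _ c hx.1, ?_⟩
      have := Submodule.smul_mem _ c hx.2
      rwa [smul_sub, ← map_smul, ← map_smul, smul_comm] at this

theorem prim_mem_exh (x : UniversalEnvelopingAlgebra K L) : ∃ n, x ∈ prim_mem_V K L ^ n := by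
  let S : Subalgebra K (UniversalEnvelopingAlgebra K L) :=
    { carrier := {x | ∃ n, x ∈ prim_mem_V K L ^ n}
      mul_mem' := by
        rintro a b ⟨m, ha⟩ ⟨n, hb⟩
        exact ⟨m + n, by rw [pow_add]; exact Submodule.mul_mem_mul ha hb⟩
      add_mem' := by
        rintro a b ⟨m, ha⟩ ⟨n, hb⟩
        exact ⟨max m n, Submodule.add_mem _ (prim_mem_mono K (le_max_left _ _) ha)
          (prim_mem_mono K (le_max_right _ _) hb)⟩
      algebraMap_mem' := fun r => ⟨0, by rw [pow_zero]; exact Submodule.mem_one.2 ⟨r, rfl⟩⟩ }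
  let f : L →ₗ⁅K⁆ S :=
    { toFun := fun l => ⟨UniversalEnvelopingAlgebra.ι K l, 1, by rw [pow_one]; exact prim_mem_iV K l⟩
      map_add' := fun a b => Subtype.ext (map_add _ a b)
      map_smul' := fun c a => Subtype.ext (map_smul _ c a)
      map_lie' := fun {a b} => Subtype.ext (LieHom.map_lie _ a b) }
  have h : S.val.comp (UniversalEnvelopingAlgebra.lift K f) = AlgHom.id K _ := by
    apply UniversalEnvelopingAlgebra.hom_ext
    ext l
    simp [f]
  have h2 := congrArg (fun g : UniversalEnvelopingAlgebra K L →ₐ[K] UniversalEnvelopingAlgebra K L => g x) h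
  have h3 : ((UniversalEnvelopingAlgebra.lift K f x : S) : UniversalEnvelopingAlgebra K L) = x := h2
  rw [← h3]
  exact (UniversalEnvelopingAlgebra.lift K f x).2

end aux

/- PLAIN PROOF (primitive elements of an enveloping algebra in characteristic zero; no PBW theorem needed).
U = UniversalEnvelopingAlgebra K L. Let Uf n = span of all products of at most n elements ι l (Submodule.span of the set of
(List.map ι l).prod with l.length ≤ n); Uf is increasing, Uf m * Uf n ⊆ Uf (m+n), ⋃ Uf n = U (U is generated by the ι l), and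
[ι l, Uf n] ⊆ Uf n (induction on the length: [l, l1 w] = [l,l1] w + l1 [l,w] and [ι l, ι l1] = ι [l,l1]).
Let T n ⊆ U ⊗ U be the span of all a ⊗ b with a ∈ Uf i, b ∈ Uf j, i + j ≤ n, and m : U ⊗ U → U the multiplication (linear).
For t ∈ T n: (ι l ⊗ 1) t and (1 ⊗ ι l) t lie in T (n+1), m ((ι l ⊗ 1) t) = ι l * m t, and m ((1 ⊗ ι l) t) - ι l * m t ∈ Uf n
(on a ⊗ b: a l b - l a b = [a,l] b). By induction on the length n of a product w of n elements ι l: Δ w ∈ T n and, for n ≥ 1,
m (Δ w) - 2^n • w ∈ Uf (n-1) (for n = 0: m (Δ 1) = 1). So for all x ∈ Uf n with n ≥ 1: m (Δ x) - 2^n • x ∈ Uf (n-1).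
If x is primitive, m (Δ x) = 2 x; let n be minimal with x ∈ Uf n. If n ≥ 2 then (2^n - 2) • x ∈ Uf (n-1), so x ∈ Uf (n-1),
contradiction. So x ∈ Uf 1, i.e. x = c • 1 + ι l. Apply eps ⊗ eps (eps = augmentation = lift of the zero Lie homomorphism) to
Δ x = x ⊗ 1 + 1 ⊗ x: c = 2 c (Δ(c + ι l) = c • 1 ⊗ 1 + ι l ⊗ 1 + 1 ⊗ ι l), so c = 0. -/
theorem prim_mem (K : Type) [Field K] [CharZero K] (L : Type) [LieRing L] [LieAlgebra K L]
    (Δ : UniversalEnvelopingAlgebra K L →ₐ[K]
      UniversalEnvelopingAlgebra K L ⊗[K] UniversalEnvelopingAlgebra K L)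
    (hΔ : ∀ l : L, Δ (UniversalEnvelopingAlgebra.ι K l) =
      UniversalEnvelopingAlgebra.ι K l ⊗ₜ[K] 1 + 1 ⊗ₜ[K] UniversalEnvelopingAlgebra.ι K l)
    (x : UniversalEnvelopingAlgebra K L) (hx : Δ x = x ⊗ₜ[K] 1 + 1 ⊗ₜ[K] x) :
    ∃ l : L, UniversalEnvelopingAlgebra.ι K l = x := by
  classical
  have hex := prim_mem_exh K x
  have hmin := Nat.find_spec hex
  have hmin2 := fun m => Nat.find_min hex (m := m)
  set n := Nat.find hex with hn
  have hm2 : LinearMap.mul' K (UniversalEnvelopingAlgebra K L) (Δ x) = (2 : K) • x := by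
    rw [hx, map_add, LinearMap.mul'_apply, LinearMap.mul'_apply, mul_one, one_mul, two_smul]
  have hn1 : n ≤ 1 := by
    by_contra hcon
    push Not at hcon
    obtain ⟨k, hk⟩ : ∃ k, n = k + 2 := ⟨n - 2, by omega⟩
    rw [hk] at hmin
    have h1 := (prim_mem_main K Δ hΔ (k+2) x hmin).2
    rw [hm2, ← sub_smul] at h1
    have h2 : x ∈ prim_mem_V K L ^ (k+1) := by
      have h3 : (2 : K) - 2 ^ (k+2) ≠ 0 := by
        intro h
        have h4 : (2 : K) ^ (k+2) = 2 := (sub_eq_zero.1 h).symm
        have h5 : ((2 ^ (k+2) : ℕ) : K) = ((2 ^ 1 : ℕ) : K) := by push_cast; rw [h4]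
        have h6 := Nat.cast_injective h5
        have h7 := Nat.pow_right_injective (le_refl 2) h6
        omega
      have h4 : x = ((2 : K) - 2 ^ (k+2))⁻¹ • (((2 : K) - 2 ^ (k+2)) • x) := by
        rw [smul_smul, inv_mul_cancel₀ h3, one_smul]
      rw [h4]
      exact Submodule.smul_mem _ _ h1
    exact hmin2 (k+1) (by omega) h2
  have hxV : x ∈ prim_mem_V K L := by
    have := prim_mem_mono K hn1 hmin
    rwa [pow_one] at this
  obtain ⟨a, ha, b, ⟨l, rfl⟩, hab⟩ := Submodule.mem_sup.1 hxV
  obtain ⟨c, rfl⟩ := Submodule.mem_one.1 ha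
  refine ⟨l, ?_⟩
  -- the constant term vanishes
  have h1 : Δ x = c • ((1 : UniversalEnvelopingAlgebra K L) ⊗ₜ[K] 1)
      + (UniversalEnvelopingAlgebra.ι K l ⊗ₜ[K] 1 + 1 ⊗ₜ[K] UniversalEnvelopingAlgebra.ι K l) := by
    rw [← hab, map_add, AlgHom.commutes, Algebra.algebraMap_eq_smul_one, Algebra.TensorProduct.one_def]
    congr 1
    exact hΔ l
  have h2 : c • (1 : UniversalEnvelopingAlgebra K L) = 0 := by
    have h3 := congrArg (LinearMap.mul' K (UniversalEnvelopingAlgebra K L)) h1
    rw [hm2, map_add, map_add, map_smul, LinearMap.mul'_apply, LinearMap.mul'_apply, LinearMap.mul'_apply,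
      one_mul, one_mul, mul_one, ← hab, Algebra.algebraMap_eq_smul_one] at h3
    have h4 : (2 : K) • (c • (1 : UniversalEnvelopingAlgebra K L)
        + UniversalEnvelopingAlgebra.ι K l) = c • 1 + (UniversalEnvelopingAlgebra.ι K l
          + UniversalEnvelopingAlgebra.ι K l) := h3
    rw [two_smul] at h4
    have h5 : c • (1 : UniversalEnvelopingAlgebra K L) + (c • (1 : UniversalEnvelopingAlgebra K L)
        + (UniversalEnvelopingAlgebra.ι K l + UniversalEnvelopingAlgebra.ι K l))
        = 0 + (c • 1 + (UniversalEnvelopingAlgebra.ι K l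
          + UniversalEnvelopingAlgebra.ι K l)) := by
      rw [zero_add]
      conv_rhs => rw [← h4]
      abel
    exact add_right_cancel h5
  rw [Algebra.algebraMap_eq_smul_one, h2, zero_add] at hab
  exact hab

end Pool.Agent.Helper844_FA.PR
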