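/- JOB of helper844 (MP_a55e6f_al). -/
import Mathlib

set_option autoImplicit false

namespace Pool.Agent.Helper844_FA.RO

open Polynomial

section

attribute [local instance 100] LieRing.ofAssociativeRing

/-- in an enveloping algebra isomorphic to `K[X]`, brackets vanish -/
theorem ro_abelian (K : Type) [Field K] (L : Type) [LieRing L] [LieAlgebra K L]
    (hι : Function.Injective (fun x : L => UniversalEnvelopingAlgebra.ι K x))
    (e : UniversalEnvelopingAlgebra K L ≃ₐ[K] K[X]) (x y : L) : ⁅x, y⁆ = 0 := by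
  apply hι
  show UniversalEnvelopingAlgebra.ι K ⁅x, y⁆ = UniversalEnvelopingAlgebra.ι K 0
  rw [LieHom.map_lie, map_zero, LieRing.of_associative_ring_bracket]
  apply e.injective
  rw [map_sub, map_mul, map_mul, map_zero, mul_comm, sub_self]

/-- the Lie homomorphism `l ↦ p l + lam l ε` -/
noncomputable def roHom (K : Type) [Field K] (L : Type) [LieRing L] [LieAlgebra K L]
    (hab : ∀ x y : L, ⁅x, y⁆ = 0) (p : L →ₗ[K] K[X]) (lam : L →ₗ[K] K) :
    L →ₗ⁅K⁆ TrivSqZeroExt K[X] K[X] :=
  { toFun := fun l => TrivSqZeroExt.inl (p l) + TrivSqZeroExt.inr (C (lam l))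
    map_add' := by
      intro x y
      ext1 <;> simp
    map_smul' := by
      intro c x
      ext1
      · simp
      · simp [Polynomial.smul_eq_C_mul]
    map_lie' := by
      intro x y
      simp only [hab, map_zero, TrivSqZeroExt.inl_zero, TrivSqZeroExt.inr_zero, add_zero]
      rw [LieRing.of_associative_ring_bracket, mul_comm, sub_self] }

theorem ro_snd (K : Type) [Field K] (ψ : K[X] →ₐ[K] TrivSqZeroExt K[X] K[X])
    (h1 : ∀ g, (ψ g).fst = g) (g : K[X]) :
    (ψ g).snd = derivative g * (ψ X).snd := by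
  induction g using Polynomial.induction_on' with
  | add p q hp hq => rw [map_add, TrivSqZeroExt.snd_add, hp, hq, map_add, add_mul]
  | monomial n a =>
    induction n with
    | zero =>
      rw [monomial_zero_left, derivative_C, zero_mul]
      have : ψ (C a) = algebraMap K _ a := by
        rw [← Polynomial.algebraMap_eq, AlgHom.commutes]
      rw [this, TrivSqZeroExt.algebraMap_eq_inl']
      simp
    | succ n ih =>
      have : monomial (n + 1) a = monomial n a * X := by
        rw [monomial_mul_X]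
      rw [this, map_mul, TrivSqZeroExt.snd_mul, ih, h1, h1, derivative_mul, derivative_X]
      simp only [smul_eq_mul, MulOpposite.smul_eq_mul_unop, MulOpposite.unop_op]
      ring

theorem rank_one_aux (K : Type) [Field K] [CharZero K] (L : Type) [LieRing L] [LieAlgebra K L]
    (hι : Function.Injective (fun x : L => UniversalEnvelopingAlgebra.ι K x))
    (e : UniversalEnvelopingAlgebra K L ≃ₐ[K] K[X]) :
    ∃ x : L, Function.Bijective
      (Polynomial.aeval (UniversalEnvelopingAlgebra.ι K x) : K[X] →ₐ[K] UniversalEnvelopingAlgebra K L) := by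
  have hab := ro_abelian K L hι e
  set i : L →ₗ[K] UniversalEnvelopingAlgebra K L :=
    (UniversalEnvelopingAlgebra.ι K : L →ₗ⁅K⁆ UniversalEnvelopingAlgebra K L).toLinearMap with hi
  have hi' : ∀ x, i x = UniversalEnvelopingAlgebra.ι K x := fun x => rfl
  let p : L →ₗ[K] K[X] := e.toLinearMap ∘ₗ i
  have hp : ∀ x, p x = e (UniversalEnvelopingAlgebra.ι K x) := fun x => rfl
  -- the derivation property
  have hder : ∀ lam : L →ₗ[K] K, ∃ f : K[X], ∀ l : L, derivative (p l) * f = C (lam l) := by
    intro lam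
    let Φ : UniversalEnvelopingAlgebra K L →ₐ[K] TrivSqZeroExt K[X] K[X] :=
      UniversalEnvelopingAlgebra.lift K (roHom K L hab p lam)
    have hΦ : ∀ l, Φ (UniversalEnvelopingAlgebra.ι K l) =
        TrivSqZeroExt.inl (p l) + TrivSqZeroExt.inr (C (lam l)) := by
      intro l
      exact UniversalEnvelopingAlgebra.lift_ι_apply K (roHom K L hab p lam) l
    let ψ : K[X] →ₐ[K] TrivSqZeroExt K[X] K[X] := Φ.comp e.symm.toAlgHom
    have hfst : (TrivSqZeroExt.fstHom K K[X] K[X]).comp Φ = e.toAlgHom := by
      apply UniversalEnvelopingAlgebra.hom_ext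
      refine LieHom.ext fun l => ?_
      show (Φ (UniversalEnvelopingAlgebra.ι K l)).fst = e (UniversalEnvelopingAlgebra.ι K l)
      rw [hΦ]
      simp [hp]
    have h1 : ∀ g, (ψ g).fst = g := by
      intro g
      have := congrArg (fun F => F (e.symm g)) hfst
      have h2 : (TrivSqZeroExt.fstHom K K[X] K[X]) (Φ (e.symm g)) = e (e.symm g) := this
      rw [AlgEquiv.apply_symm_apply] at h2
      exact h2
    refine ⟨(ψ X).snd, fun l => ?_⟩
    have h3 := ro_snd K ψ h1 (p l)
    rw [← h3]
    have h4 : ψ (p l) = Φ (UniversalEnvelopingAlgebra.ι K l) := by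
      show Φ (e.symm (p l)) = _
      rw [hp, AlgEquiv.symm_apply_apply]
    rw [h4, hΦ]
    simp
  -- augmentation
  obtain ⟨t, ht⟩ : ∃ t : K, ∀ l : L, (p l).eval t = 0 := by
    let ε : UniversalEnvelopingAlgebra K L →ₐ[K] K := UniversalEnvelopingAlgebra.lift K (0 : L →ₗ⁅K⁆ K)
    let η : K[X] →ₐ[K] K := ε.comp e.symm.toAlgHom
    refine ⟨η X, fun l => ?_⟩
    have h5 : η = Polynomial.aeval (η X) := by
      ext
      simp
    have h6 : η (p l) = 0 := by
      show ε (e.symm (p l)) = 0
      rw [hp, AlgEquiv.symm_apply_apply]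
      exact UniversalEnvelopingAlgebra.lift_ι_apply K (0 : L →ₗ⁅K⁆ K) l
    rw [h5] at h6
    rw [← Polynomial.coe_aeval_eq_eval]
    exact h6
  -- `L ≠ 0`
  obtain ⟨l0, hl0⟩ : ∃ l0 : L, l0 ≠ 0 := by
    by_contra hcon
    push Not at hcon
    -- all algebra maps out of U agree
    have hF : (e.toAlgHom : UniversalEnvelopingAlgebra K L →ₐ[K] K[X]) =
        ((Polynomial.aeval (0 : K[X])).comp e.toAlgHom) := by
      apply UniversalEnvelopingAlgebra.hom_ext
      refine LieHom.ext fun l => ?_
      rw [hcon l, map_zero, map_zero]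
    have h7 : e (e.symm X) = Polynomial.aeval (0 : K[X]) (e (e.symm X)) :=
      congrArg (fun F => F (e.symm X)) hF
    rw [AlgEquiv.apply_symm_apply, aeval_X] at h7
    exact Polynomial.X_ne_zero h7
  obtain ⟨lam, hlam⟩ : ∃ lam : L →ₗ[K] K, lam l0 = 1 := by
    have h8 : ¬ ∀ φ : Module.Dual K L, φ l0 = 0 := fun h => hl0 ((Module.forall_dual_apply_eq_zero_iff K l0).1 h)
    push Not at h8
    obtain ⟨φ, hφ⟩ := h8
    refine ⟨(φ l0)⁻¹ • φ, ?_⟩
    rw [LinearMap.smul_apply, smul_eq_mul, inv_mul_cancel₀ hφ]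
  obtain ⟨f, hf⟩ := hder lam
  have hf0 : derivative (p l0) * f = 1 := by rw [hf, hlam, C_1]
  have hfu : IsUnit f := IsUnit.of_mul_eq_one _ (by rw [mul_comm]; exact hf0)
  obtain ⟨c, hcu, hc⟩ := Polynomial.isUnit_iff.1 hfu
  have hc0 : c ≠ 0 := hcu.ne_zero
  have hx1 : derivative (p (c • l0)) = 1 := by
    have h9 := hf (c • l0)
    rw [map_smul lam, hlam, smul_eq_mul, mul_one, ← hc] at h9
    have h10 : (C c : K[X]) ≠ 0 := by
      rw [Ne, C_eq_zero]; exact hc0
    exact mul_right_cancel₀ h10 (by rw [h9, one_mul])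
  have hx2 : p (c • l0) = X - C t := by
    have h11 : derivative (p (c • l0) - (X - C t)) = 0 := by
      rw [map_sub, hx1, map_sub, derivative_X, derivative_C, sub_zero, sub_self]
    have h12 := Polynomial.derivative_eq_zero.1 h11
    obtain ⟨d, hd⟩ := Polynomial.natDegree_eq_zero.1 h12
    have h13 : eval t (p (c • l0) - (X - C t)) = 0 := by
      rw [eval_sub, ht, eval_sub, eval_X, eval_C, sub_self, sub_self]
    rw [← hd, eval_C] at h13
    rw [h13, C_0] at hd
    exact (sub_eq_zero.1 hd.symm)
  refine ⟨c • l0, ?_⟩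
  have h14 : (Polynomial.aeval (UniversalEnvelopingAlgebra.ι K (c • l0)) :
      K[X] →ₐ[K] UniversalEnvelopingAlgebra K L) =
      (e.symm.toAlgHom).comp (Polynomial.aeval (X - C t)) := by
    apply Polynomial.algHom_ext
    rw [aeval_X, AlgHom.comp_apply, aeval_X, ← hx2, hp]
    exact (e.symm_apply_apply _).symm
  rw [h14]
  have h15 : Function.Bijective (Polynomial.aeval (X - C t) : K[X] →ₐ[K] K[X]) := by
    have h16 : ∀ g : K[X], Polynomial.aeval (X - C t) (Polynomial.aeval (X + C t) g) = g := by
      intro g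
      have : ((Polynomial.aeval (X - C t) : K[X] →ₐ[K] K[X]).comp (Polynomial.aeval (X + C t))) = AlgHom.id K K[X] := by
        apply Polynomial.algHom_ext
        simp
      exact congrArg (fun F => F g) this
    have h17 : ∀ g : K[X], Polynomial.aeval (X + C t) (Polynomial.aeval (X - C t) g) = g := by
      intro g
      have : ((Polynomial.aeval (X + C t) : K[X] →ₐ[K] K[X]).comp (Polynomial.aeval (X - C t))) = AlgHom.id K K[X] := by
        apply Polynomial.algHom_ext
        simp
      exact congrArg (fun F => F g) this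
    exact ⟨Function.LeftInverse.injective h17, Function.RightInverse.surjective h16⟩
  exact e.symm.bijective.comp h15

end

theorem rank_one (K : Type) [Field K] [CharZero K] (L : Type) [LieRing L] [LieAlgebra K L]
    (hι : Function.Injective (fun x : L => UniversalEnvelopingAlgebra.ι K x))
    (e : UniversalEnvelopingAlgebra K L ≃ₐ[K] K[X]) :
    ∃ x : L, Function.Bijective
      (Polynomial.aeval (UniversalEnvelopingAlgebra.ι K x) : K[X] →ₐ[K] UniversalEnvelopingAlgebra K L) :=
  rank_one_aux K L hι e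

end Pool.Agent.Helper844_FA.RO
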