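import Mathlib
import Pool.Agent.Helper844_FA.Norm
import Pool.Agent.Helper844_FA.Prim
import Pool.Agent.Helper844_FA.RankOne
import Pool.Agent.Helper844_FA.Gens
import Pool.Agent.H67.OL.DOM
import Pool.Agent.H67.OL.PBW2
import Pool.Agent.H67.OL.SORT

/-! A Lie algebra in characteristic zero whose enveloping algebra is a free associative algebra of
rank at most two is a free Lie algebra. -/

set_option autoImplicit false

namespace Pool.Agent.Helper844_FA

open scoped TensorProduct

theorem hInj : GE.HInj := by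
  intro K _ L _ _
  exact (H67OL.t_DOM H67OL.t_PBW2 H67OL.t_SORT K L).2.2

theorem hPrim : GE.HPrim := by
  intro K _ _ L _ _ Δ hΔ x hx
  exact PR.prim_mem K L Δ hΔ x hx

section Final

variable (K : Type) [Field K] (L : Type) [LieRing L] [LieAlgebra K L]

/-- the enveloping algebra is generated by the Lie algebra -/
theorem adjoin_ι : Algebra.adjoin K (Set.range fun l : L => UniversalEnvelopingAlgebra.ι K l) = ⊤ := by
  have h := H67OL.DOMaux.adjoin_top (Module.Basis.ofVectorSpace K L)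
  rw [eq_top_iff, ← h]
  apply Algebra.adjoin_mono
  rintro _ ⟨i, rfl⟩
  exact ⟨_, rfl⟩

/-- the augmentation -/
theorem exists_aug : ∃ ε : UniversalEnvelopingAlgebra K L →ₐ[K] K,
    ∀ l : L, ε (UniversalEnvelopingAlgebra.ι K l) = 0 := by
  let _ : LieRing K := LieRing.ofAssociativeRing
  refine ⟨UniversalEnvelopingAlgebra.lift K (0 : L →ₗ⁅K⁆ K), fun l => ?_⟩
  rw [UniversalEnvelopingAlgebra.lift_ι_apply]
  rfl

variable {K L}

/-- constant term -/
theorem cf_nil_eq {X : Type} (a : FreeAlgebra K X) :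
    cf [] a = FreeAlgebra.lift K (fun _ : X => (0 : K)) a := by
  induction a using mo_induction with
  | h0 => simp
  | hm w =>
    cases w with
    | nil => rw [mo_nil, cf_one_nil, map_one]
    | cons x w => rw [mo_cons, cf_nil_ι_mul, map_mul, FreeAlgebra.lift_ι_apply, zero_mul]
  | ha a b ha hb => rw [map_add, map_add, ha, hb]
  | hs c a ha => rw [map_smul, map_smul, ha]

/-- shift automorphism -/
noncomputable def shiftA {X : Type} (c : X → K) : FreeAlgebra K X ≃ₐ[K] FreeAlgebra K X :=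
  AlgEquiv.ofAlgHom
    (FreeAlgebra.lift K (fun x => FreeAlgebra.ι K x + algebraMap K _ (c x)))
    (FreeAlgebra.lift K (fun x => FreeAlgebra.ι K x - algebraMap K _ (c x)))
    (by
      apply FreeAlgebra.hom_ext
      funext x
      simp)
    (by
      apply FreeAlgebra.hom_ext
      funext x
      simp)

theorem exists_shift (e : UniversalEnvelopingAlgebra K L ≃ₐ[K] FreeAlgebra K (Fin 2)) :
    ∃ e' : UniversalEnvelopingAlgebra K L ≃ₐ[K] FreeAlgebra K (Fin 2),
      ∀ l : L, cf [] (e' (UniversalEnvelopingAlgebra.ι K l)) = 0 := by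
  obtain ⟨ε, hε⟩ := exists_aug K L
  refine ⟨e.trans (shiftA (fun x => ε (e.symm (FreeAlgebra.ι K x)))), fun l => ?_⟩
  have h : (FreeAlgebra.lift K (fun _ : Fin 2 => (0 : K))).comp
      (shiftA (fun x => ε (e.symm (FreeAlgebra.ι K x)))).toAlgHom = ε.comp e.symm.toAlgHom := by
    apply FreeAlgebra.hom_ext
    funext x
    simp [shiftA]
  rw [cf_nil_eq]
  have h2 := DFunLike.congr_fun h (e (UniversalEnvelopingAlgebra.ι K l))
  change FreeAlgebra.lift K (fun _ : Fin 2 => (0 : K))
    (shiftA (fun x => ε (e.symm (FreeAlgebra.ι K x))) (e (UniversalEnvelopingAlgebra.ι K l))) =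
    ε (e.symm (e (UniversalEnvelopingAlgebra.ι K l))) at h2
  rw [AlgEquiv.symm_apply_apply, hε] at h2
  exact h2

/-- the space of primitive generators -/
noncomputable def spaceS (e : UniversalEnvelopingAlgebra K L ≃ₐ[K] FreeAlgebra K (Fin 2)) :
    Submodule K (FreeAlgebra K (Fin 2)) where
  carrier := Set.range (fun l : L => e (UniversalEnvelopingAlgebra.ι K l))
  add_mem' := by
    rintro _ _ ⟨a, rfl⟩ ⟨b, rfl⟩
    exact ⟨a + b, by simp⟩
  zero_mem' := ⟨0, by simp⟩
  smul_mem' := by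
    rintro c _ ⟨a, rfl⟩
    exact ⟨c • a, by simp⟩

/-- the transported comultiplication -/
noncomputable def comulE (Δ : UniversalEnvelopingAlgebra K L →ₐ[K]
      UniversalEnvelopingAlgebra K L ⊗[K] UniversalEnvelopingAlgebra K L)
    (e : UniversalEnvelopingAlgebra K L ≃ₐ[K] FreeAlgebra K (Fin 2)) :
    FreeAlgebra K (Fin 2) →ₐ[K] FreeAlgebra K (Fin 2) ⊗[K] FreeAlgebra K (Fin 2) :=
  ((Algebra.TensorProduct.congr e e).toAlgHom.comp Δ).comp e.symm.toAlgHom

theorem congr_tmul' (e : UniversalEnvelopingAlgebra K L ≃ₐ[K] FreeAlgebra K (Fin 2))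
    (a b : UniversalEnvelopingAlgebra K L) :
    Algebra.TensorProduct.congr e e (a ⊗ₜ[K] b) = e a ⊗ₜ[K] e b := rfl

theorem comulE_apply (Δ : UniversalEnvelopingAlgebra K L →ₐ[K]
      UniversalEnvelopingAlgebra K L ⊗[K] UniversalEnvelopingAlgebra K L)
    (e : UniversalEnvelopingAlgebra K L ≃ₐ[K] FreeAlgebra K (Fin 2)) (u : UniversalEnvelopingAlgebra K L) :
    comulE Δ e (e u) = Algebra.TensorProduct.congr e e (Δ u) := by
  change Algebra.TensorProduct.congr e e (Δ (e.symm (e u))) = _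
  rw [AlgEquiv.symm_apply_apply]

theorem HS_of (Δ : UniversalEnvelopingAlgebra K L →ₐ[K]
      UniversalEnvelopingAlgebra K L ⊗[K] UniversalEnvelopingAlgebra K L)
    (hΔ : ∀ l : L, Δ (UniversalEnvelopingAlgebra.ι K l) =
      UniversalEnvelopingAlgebra.ι K l ⊗ₜ[K] 1 + 1 ⊗ₜ[K] UniversalEnvelopingAlgebra.ι K l)
    (e : UniversalEnvelopingAlgebra K L ≃ₐ[K] FreeAlgebra K (Fin 2))
    (he : ∀ l : L, cf [] (e (UniversalEnvelopingAlgebra.ι K l)) = 0) :
    HS (spaceS e : Set (FreeAlgebra K (Fin 2))) (comulE Δ e) where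
  gen := by
    change Algebra.adjoin K (Set.range (fun l : L => e (UniversalEnvelopingAlgebra.ι K l))) = ⊤
    have h : Set.range (fun l : L => e (UniversalEnvelopingAlgebra.ι K l)) =
        e.toAlgHom '' (Set.range fun l : L => UniversalEnvelopingAlgebra.ι K l) := by
      rw [← Set.range_comp]; rfl
    rw [h, ← AlgHom.map_adjoin, adjoin_ι, Algebra.map_top]
    exact (AlgHom.range_eq_top _).2 e.surjective
  prim := by
    rintro _ ⟨l, rfl⟩
    change comulE Δ e (e _) = e _ ⊗ₜ[K] 1 + 1 ⊗ₜ[K] e _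
    rw [comulE_apply, hΔ, map_add, congr_tmul', congr_tmul', map_one]
  aug := by
    rintro _ ⟨l, rfl⟩
    exact he l

/-- rank two -/
theorem rank_two_gens [CharZero K] (e : UniversalEnvelopingAlgebra K L ≃ₐ[K] FreeAlgebra K (Fin 2)) :
    ∃ x : Fin 2 → L, Function.Bijective
      (FreeAlgebra.lift K (fun y => UniversalEnvelopingAlgebra.ι K (x y)) :
        FreeAlgebra K (Fin 2) →ₐ[K] UniversalEnvelopingAlgebra K L) := by
  obtain ⟨Δ, hΔ⟩ := GE.exists_comul K L
  obtain ⟨e1, he1⟩ := exists_shift e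
  obtain ⟨σ, hσ⟩ := norm_exists (HS_of Δ hΔ e1 he1)
  set e2 := e1.trans σ with he2
  have hlin : ∀ l : L, ∃ α β : K, ab K (e2 (UniversalEnvelopingAlgebra.ι K l)) =
      MvPolynomial.C α * MvPolynomial.X 0 + MvPolynomial.C β * MvPolynomial.X 1 := fun l =>
    hσ _ ⟨l, rfl⟩
  have haug : ∀ l : L, cf [] (e2 (UniversalEnvelopingAlgebra.ι K l)) = 0 := by
    intro l
    obtain ⟨α, β, h⟩ := hlin l
    rw [← coeff_zero_ab, h, MvPolynomial.coeff_add, MvPolynomial.coeff_C_mul,
      MvPolynomial.coeff_C_mul, MvPolynomial.coeff_zero_X, MvPolynomial.coeff_zero_X]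
    ring
  have hHS := HS_of Δ hΔ e2 haug
  have hcore := core hHS (by rintro _ ⟨l, rfl⟩; exact hlin l)
  have hx : ∀ i : Fin 2, ∃ l : L, UniversalEnvelopingAlgebra.ι K l = e2.symm (FreeAlgebra.ι K i) := by
    intro i
    apply PR.prim_mem K L Δ hΔ
    apply (Algebra.TensorProduct.congr e2 e2).injective
    rw [← comulE_apply, hcore, AlgEquiv.apply_symm_apply, D0_ι, map_add, congr_tmul', congr_tmul',
      map_one, AlgEquiv.apply_symm_apply]
  choose x hx using hx
  refine ⟨x, ?_⟩
  have h3 : (FreeAlgebra.lift K (fun y => UniversalEnvelopingAlgebra.ι K (x y)) :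
        FreeAlgebra K (Fin 2) →ₐ[K] UniversalEnvelopingAlgebra K L) = e2.symm.toAlgHom := by
    apply FreeAlgebra.hom_ext
    funext i
    change FreeAlgebra.lift K (fun y => UniversalEnvelopingAlgebra.ι K (x y)) (FreeAlgebra.ι K i) =
      e2.symm (FreeAlgebra.ι K i)
    rw [FreeAlgebra.lift_ι_apply, hx]
  rw [h3]
  exact e2.symm.bijective

/-- free algebras on equivalent sets -/
noncomputable def faEquiv {X Y : Type} (E : X ≃ Y) : FreeAlgebra K X ≃ₐ[K] FreeAlgebra K Y :=
  AlgEquiv.ofAlgHom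
    (FreeAlgebra.lift K (fun x => FreeAlgebra.ι K (E x)))
    (FreeAlgebra.lift K (fun y => FreeAlgebra.ι K (E.symm y)))
    (by
      apply FreeAlgebra.hom_ext
      funext x
      simp)
    (by
      apply FreeAlgebra.hom_ext
      funext x
      simp)

/-- one variable -/
noncomputable def faOne : FreeAlgebra K (Fin 1) ≃ₐ[K] Polynomial K :=
  AlgEquiv.ofAlgHom
    (FreeAlgebra.lift K (fun _ => Polynomial.X))
    (Polynomial.aeval (FreeAlgebra.ι K 0))
    (by
      apply Polynomial.algHom_ext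
      simp)
    (by
      apply FreeAlgebra.hom_ext
      funext x
      have : x = 0 := Subsingleton.elim _ _
      subst this
      simp)

theorem rank_one_gens [CharZero K] (e : UniversalEnvelopingAlgebra K L ≃ₐ[K] FreeAlgebra K (Fin 1)) :
    ∃ x : Fin 1 → L, Function.Bijective
      (FreeAlgebra.lift K (fun y => UniversalEnvelopingAlgebra.ι K (x y)) :
        FreeAlgebra K (Fin 1) →ₐ[K] UniversalEnvelopingAlgebra K L) := by
  obtain ⟨x, hx⟩ := RO.rank_one K L (hInj K L) (e.trans faOne)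
  refine ⟨fun _ => x, ?_⟩
  have h3 : (FreeAlgebra.lift K (fun _ => UniversalEnvelopingAlgebra.ι K x) :
        FreeAlgebra K (Fin 1) →ₐ[K] UniversalEnvelopingAlgebra K L) =
      (Polynomial.aeval (UniversalEnvelopingAlgebra.ι K x)).comp (faOne (K := K)).toAlgHom := by
    apply FreeAlgebra.hom_ext
    funext i
    simp [faOne]
  rw [h3]
  exact hx.comp (faOne (K := K)).bijective

theorem rank_zero_gens (e : UniversalEnvelopingAlgebra K L ≃ₐ[K] FreeAlgebra K (Fin 0)) :
    ∃ x : Fin 0 → L, Function.Bijective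
      (FreeAlgebra.lift K (fun y => UniversalEnvelopingAlgebra.ι K (x y)) :
        FreeAlgebra K (Fin 0) →ₐ[K] UniversalEnvelopingAlgebra K L) := by
  refine ⟨fun i => i.elim0, ?_⟩
  have h3 : (FreeAlgebra.lift K (fun y : Fin 0 => UniversalEnvelopingAlgebra.ι K
      ((fun i => i.elim0 : Fin 0 → L) y)) :
        FreeAlgebra K (Fin 0) →ₐ[K] UniversalEnvelopingAlgebra K L) = e.symm.toAlgHom := by
    apply FreeAlgebra.hom_ext
    funext i
    exact i.elim0
  rw [h3]
  exact e.symm.bijective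

theorem transfer {n : ℕ} {Y : Type} (E : Y ≃ Fin n)
    (h : ∃ x : Fin n → L, Function.Bijective
      (FreeAlgebra.lift K (fun y => UniversalEnvelopingAlgebra.ι K (x y)) :
        FreeAlgebra K (Fin n) →ₐ[K] UniversalEnvelopingAlgebra K L)) :
    ∃ x : Y → L, Function.Bijective
      (FreeAlgebra.lift K (fun y => UniversalEnvelopingAlgebra.ι K (x y)) :
        FreeAlgebra K Y →ₐ[K] UniversalEnvelopingAlgebra K L) := by
  obtain ⟨x, hx⟩ := h
  refine ⟨fun y => x (E y), ?_⟩
  have h3 : (FreeAlgebra.lift K (fun y => UniversalEnvelopingAlgebra.ι K (x (E y))) :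
        FreeAlgebra K Y →ₐ[K] UniversalEnvelopingAlgebra K L) =
      (FreeAlgebra.lift K (fun y => UniversalEnvelopingAlgebra.ι K (x y))).comp
        (faEquiv (K := K) E).toAlgHom := by
    apply FreeAlgebra.hom_ext
    funext i
    simp [faEquiv]
  rw [h3]
  exact hx.comp (faEquiv (K := K) E).bijective

end Final

/-- Main theorem: rank at most two. -/
theorem main (K : Type) [Field K] [CharZero K] (L : Type) [LieRing L] [LieAlgebra K L]
    (Y : Type) (hY : Cardinal.mk Y ≤ 2)
    (h : Nonempty (UniversalEnvelopingAlgebra K L ≃ₐ[K] FreeAlgebra K Y)) :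
    Nonempty (L ≃ₗ⁅K⁆ FreeLieAlgebra K Y) := by
  obtain ⟨e⟩ := h
  have hfin : Finite Y := by
    rw [← Cardinal.mk_lt_aleph0_iff]
    exact lt_of_le_of_lt hY (by exact_mod_cast Cardinal.natCast_lt_aleph0 (n := 2))
  obtain ⟨n, ⟨E⟩⟩ := Finite.exists_equiv_fin Y
  have hn : n ≤ 2 := by
    rw [Cardinal.mk_congr E, Cardinal.mk_fin] at hY
    exact_mod_cast hY
  have hg : ∃ x : Fin n → L, Function.Bijective
      (FreeAlgebra.lift K (fun y => UniversalEnvelopingAlgebra.ι K (x y)) :
        FreeAlgebra K (Fin n) →ₐ[K] UniversalEnvelopingAlgebra K L) := by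
    have e' := e.trans (faEquiv (K := K) E)
    interval_cases n
    · exact rank_zero_gens e'
    · exact rank_one_gens e'
    · exact rank_two_gens e'
  obtain ⟨x, hx⟩ := transfer E hg
  exact GE.free_of_gens hInj hPrim K L Y x hx

end Pool.Agent.Helper844_FA
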